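import Pool.Agent.SP.ArA

/-!
The residue classes form a system of sides.
-/

set_option autoImplicit false

namespace Pool.Agent.SP

open Finset
open Pool.Agent.FS

private theorem ArB_pr_iff {m : ℕ} {Q : Finset ℕ} (hQ : ∀ l ∈ Q, hb l ∣ qq m l) (i : Q)
    (a b : KK m Q i) : pr hQ i a = pr hQ i b ↔ rr a ≡ rr b [MOD hb i] := by
  have h0 : pr hQ i a = pr hQ i b ↔
      ZMod.unitsMap (hQ i i.2) a = ZMod.unitsMap (hQ i i.2) b := Iff.rfl
  rw [h0, Units.ext_iff, ZMod.unitsMap_val, ZMod.unitsMap_val, ← ZMod.natCast_eq_natCast_iff, rr, rr,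
    ZMod.natCast_val, ZMod.natCast_val]

private theorem ArB_neg {n d : ℕ} [NeZero n] (hd : d ∣ n) (a b : (ZMod n)ˣ)
    (h : rr (-b) ≡ rr a [MOD d]) : rr b ≡ rr (-a) [MOD d] := by
  have ha : rr (-a) + rr a ≡ 0 [MOD d] := by
    have := (rr_neg a).of_dvd hd
    rwa [neg_one_mul] at this
  have hb' : rr (-b) + rr b ≡ 0 [MOD d] := by
    have := (rr_neg b).of_dvd hd
    rwa [neg_one_mul] at this
  have h1 : rr (-b) + rr b ≡ rr (-b) + rr (-a) [MOD d] := by
    refine hb'.trans (ha.symm.trans ?_)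
    rw [add_comm (rr (-a)) (rr a)]
    exact h.symm.add_right _
  exact Nat.ModEq.add_left_cancel' _ h1

theorem sides_BB {m : ℕ} [NeZero m] {Q : Finset ℕ} (hp : ∀ l ∈ Q, l.Prime)
    (hQ : ∀ l ∈ Q, hb l ∣ qq m l) : Sides (pr hQ) (ng m Q) (BB m Q) where
  single := by
    intro i a
    refine ⟨qq m i, hQ i i.2, dvd_refl _, a, ?_⟩
    ext b
    rw [Set.mem_singleton_iff, Set.mem_setOf_eq]
    constructor
    · rintro rfl
      exact Nat.ModEq.refl _
    · intro h
      exact rr_inj h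
  sub := by
    intro i B hB
    obtain ⟨d, hd1, _, a, rfl⟩ := hB
    refine ⟨pr hQ i a, ?_⟩
    intro b hb'
    rw [ArB_pr_iff]
    exact Nat.ModEq.of_dvd hd1 hb'
  cls := by
    intro i ρ
    obtain ⟨a, rfl⟩ := pr_surj hQ i ρ
    refine ⟨hb i, dvd_refl _, hQ i i.2, a, ?_⟩
    ext b
    rw [Set.mem_setOf_eq, Set.mem_setOf_eq, ArB_pr_iff]
  inv := by
    intro i B hB
    obtain ⟨d, hd1, hd2, a, rfl⟩ := hB
    refine ⟨d, hd1, hd2, -a, ?_⟩
    ext b
    rw [Set.mem_setOf_eq, Set.mem_setOf_eq, Set.mem_setOf_eq]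
    unfold ng
    constructor
    · exact ArB_neg hd2 a b
    · intro h
      have h1 : rr (- -a) ≡ rr (-b) [MOD d] := by
        rw [neg_neg]
        refine (ArB_neg hd2 b a ?_)
        exact h.symm
      rw [neg_neg] at h1
      exact h1.symm

end Pool.Agent.SP
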