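import Pool.Agent.SP.Alg
import Pool.Agent.FS.Mixed

/-!
A function on a product of groups whose mixed differences vanish is a sum of functions which
are independent of one coordinate.
-/

set_option autoImplicit false

namespace Pool.Agent.SP

open Finset
open Pool.Agent.FS (difs dif)

theorem IS_of_difs {ι : Type} [DecidableEq ι] {K : ι → Type} [∀ i, CommGroup (K i)] (ls : List ι)
    (hnd : ls.Nodup) (X : (∀ i, K i) → ℤ)
    (h : ∀ ks : ∀ i, K i, difs (ls.map fun i => Pi.mulSingle i (ks i)) X = 0) :
    IS ls.toFinset X := by
  induction ls generalizing X with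
  | nil =>
    have h0 : X = 0 := h fun _ => 1
    rw [h0]
    exact IS_zero _
  | cons i ls ih =>
    obtain ⟨hi, hnd'⟩ := List.nodup_cons.1 hnd
    have hZ : ∀ a : K i, IS ls.toFinset (dif (Pi.mulSingle i a⁻¹) X) := by
      intro a
      refine ih hnd' _ fun ks => ?_
      have h1 := h (Function.update ks i a⁻¹)
      rw [List.map_cons, Pool.Agent.FS.Mixed_difs_cons, Function.update_self] at h1
      have h2 : (ls.map fun j => (Pi.mulSingle j (Function.update ks i a⁻¹ j) : ∀ i, K i)) =
          ls.map fun j => Pi.mulSingle j (ks j) := by
        refine List.map_congr_left fun j hj => ?_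
        have hji : j ≠ i := by
          rintro rfl
          exact hi hj
        rw [Function.update_of_ne hji]
      rw [h2] at h1
      rw [Pool.Agent.FS.Mixed_difs_dif]
      exact h1
    choose F hF1 hF2 using hZ
    have hkey : X - up i 1 X = ∑ l ∈ ls.toFinset, fun w => F (w i) l w := by
      funext w
      have h1 := congrFun (hF2 (w i)) w
      rw [Finset.sum_apply] at h1 ⊢
      rw [← h1, Pi.sub_apply]
      simp only [dif, up]
      congr 2
      funext j
      by_cases hj : j = i
      · subst hj
        simp
      · have h5 : ∀ (inst : DecidableEq ι), @Function.update ι K inst w i 1 j = w j := fun inst =>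
          Function.update_of_ne hj _ _
        rw [h5, Pi.mul_apply, Pi.mulSingle_eq_of_ne hj, one_mul]
    have h3 : IS ls.toFinset (X - up i 1 X) := by
      refine ⟨fun l w => F (w i) l w, fun l hl => ?_, hkey⟩
      intro w a
      have hli : i ≠ l := by
        rintro rfl
        exact hi (List.mem_toFinset.1 hl)
      have h5 : ∀ (inst : DecidableEq ι), @Function.update ι K inst w l a i = w i := fun inst =>
        Function.update_of_ne hli _ _
      beta_reduce
      rw [h5]
      exact hF1 (w i) l hl w a
    have h4 : X = (X - up i 1 X) + up i 1 X := by ring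
    rw [h4, List.toFinset_cons]
    exact (h3.mono (Finset.subset_insert _ _)).add
      (IS_of_Inv (Finset.mem_insert_self _ _) (Inv_up i 1 X))

end Pool.Agent.SP
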