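import Pool.Agent.SP.ArA
import Pool.Agent.SP.Mix

/-!
# The odd part of the coefficients is a sum of invariant functions
-/

set_option autoImplicit false

namespace Pool.Agent.SP

open Finset
open Pool.Agent.FS

private theorem ArC_modEq_prod (m : ℕ) (S : Finset ℕ) (hp : ∀ l ∈ S, l.Prime) {a b : ℕ}
    (h : ∀ l ∈ S, a ≡ b [MOD qq m l]) : a ≡ b [MOD ∏ l ∈ S, qq m l] := by
  classical
  induction S using Finset.induction_on with
  | empty => simpa using Nat.modEq_one
  | insert l S hl ih =>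
    rw [Finset.prod_insert hl]
    have hcop : (qq m l).Coprime (∏ l' ∈ S, qq m l') := by
      apply Nat.Coprime.prod_right
      intro l' hl'
      have hne : l ≠ l' := by
        rintro rfl
        exact hl hl'
      exact Nat.Coprime.pow _ _ ((Nat.coprime_primes (hp l (Finset.mem_insert_self _ _))
        (hp l' (Finset.mem_insert_of_mem hl'))).2 hne)
    exact (Nat.modEq_and_modEq_iff_modEq_mul hcop).1
      ⟨h l (Finset.mem_insert_self _ _),
        ih (fun l' hl' => hp l' (Finset.mem_insert_of_mem hl'))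
          (fun l' hl' => h l' (Finset.mem_insert_of_mem hl'))⟩

private theorem ArC_ordCompl_dvd {m : ℕ} {Q : Finset ℕ} (hp : ∀ l ∈ Q, l.Prime) (i : Q) :
    ordCompl[(i : ℕ)] (nn m Q) ∣ ∏ l ∈ Q.erase i, qq m l := by
  classical
  have hi : (i : ℕ).Prime := hp i i.2
  have h1 : nn m Q = qq m i * ∏ l ∈ Q.erase (i : ℕ), qq m l := by
    unfold nn
    rw [Finset.mul_prod_erase Q (fun l => qq m l) i.2]
  have h2 : (ordCompl[(i : ℕ)] (nn m Q)).Coprime (qq m i) :=
    Nat.Coprime.pow_right _ (Nat.coprime_ordCompl hi (NeZero.ne (nn m Q))).symm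
  refine h2.dvd_of_dvd_mul_left ?_
  rw [← h1]
  exact Nat.ordCompl_dvd _ _

private theorem ArC_lift {m : ℕ} [NeZero m] {Q : Finset ℕ} (hp : ∀ l ∈ Q, l.Prime) (i : Q)
    (a : KK m Q i) : ∃ k : (ZMod (nn m Q))ˣ, co m Q k = Pi.mulSingle i a ∧ k ∈ Kl (nn m Q) i := by
  classical
  obtain ⟨k, hk⟩ := (co_bij (m := m) hp).2 (Pi.mulSingle i a)
  refine ⟨k, hk, ?_⟩
  rw [mem_Kl]
  refine Nat.ModEq.of_dvd (ArC_ordCompl_dvd hp i) ?_
  apply ArC_modEq_prod
  · intro l hl
    exact hp l (Finset.mem_of_mem_erase hl)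
  · intro l hl
    have hlQ : l ∈ Q := Finset.mem_of_mem_erase hl
    have hne : l ≠ i := Finset.ne_of_mem_erase hl
    have h1 := rr_co k (⟨l, hlQ⟩ : Q)
    rw [hk] at h1
    have h2 : (Pi.mulSingle i a : ∀ i : Q, KK m Q i) ⟨l, hlQ⟩ = 1 := by
      apply Pi.mulSingle_eq_of_ne
      intro h
      exact hne (congrArg Subtype.val h)
    rw [h2] at h1
    exact h1.symm.trans rr_one

theorem IS_nu {m : ℕ} [NeZero m] {A : Type} [AddCommGroup A] (D : Datum m A) {Q : Finset ℕ}
    (hp : ∀ l ∈ Q, l.Prime) (hQ : ∀ l ∈ Q, hb l ∣ qq m l) (L : Set ℕ)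
    (hL : ∀ n' ∈ L, ∃ l ∈ Q, ¬ l ∣ n') (X : (∀ i : Q, KK m Q i) → ℤ) (b : A) (hb' : b ∈ D.lev L)
    (hW : ∀ t, D.W t (SS D Q X + b) = 0) : IS univ (X - sg (ng m Q) X) := by
  classical
  have hmem : ∀ l : ℕ, l ∈ (Q.attach.toList.map Subtype.val) ↔ l ∈ Q := by
    intro l
    rw [List.mem_map]
    constructor
    · rintro ⟨i, -, rfl⟩
      exact i.2
    · intro hl
      exact ⟨⟨l, hl⟩, by simp, rfl⟩
  have hmain : ∀ κ : (∀ i : Q, KK m Q i),
      difs (Q.attach.toList.map fun i => Pi.mulSingle i (κ i)) (X - sg (ng m Q) X) = 0 := by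
    intro κ
    choose kk hk1 hk2 using fun i : Q => ArC_lift (m := m) hp i (κ i)
    have h1 : ∀ g : (ZMod (nn m Q))ˣ, difs (Q.attach.toList.map kk)
        (fun g => (fun w => X (co m Q w)) g - (fun w => X (co m Q w)) (-1 * g)) g = 0 := by
      intro g
      refine FS.mixed D (nn_uni hp).1 (nn_uni hp).2 (Q.attach.toList.map Subtype.val) ?_ ?_ L ?_
        (fun w => X (co m Q w)) b hb' ?_ (Q.attach.toList.map kk) ?_ g
      · intro l hl
        have hlQ := (hmem l).1 hl
        exact ⟨hp l hlQ, (prime_dvd_nn hp hQ (hp l hlQ)).2 hlQ⟩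
      · intro l hl hln
        exact (hmem l).2 ((prime_dvd_nn hp hQ hl).1 hln)
      · intro n' hn'
        obtain ⟨l, hl, hl'⟩ := hL n' hn'
        exact ⟨l, (hmem l).2 hl, hl'⟩
      · intro t
        exact hW t
      · rw [List.forall₂_map_left_iff, List.forall₂_map_right_iff]
        exact List.forall₂_same.2 fun i _ => hk2 i
    have h2 : (fun g : (ZMod (nn m Q))ˣ =>
        (fun w => X (co m Q w)) g - (fun w => X (co m Q w)) (-1 * g)) =
        fun g => (X - sg (ng m Q) X) (co m Q g) := by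
      funext g
      simp only [Pi.sub_apply, sg]
      rw [co_neg]
    rw [h2, Mixed_difs_comp (co m Q)] at h1
    have h3 : (Q.attach.toList.map kk).map (co m Q) =
        Q.attach.toList.map fun i => Pi.mulSingle i (κ i) := by
      rw [List.map_map]
      apply List.map_congr_left
      intro i _
      exact hk1 i
    rw [h3] at h1
    funext w
    obtain ⟨g, rfl⟩ := (co_bij (m := m) hp).2 w
    exact h1 g
  have h := IS_of_difs Q.attach.toList (Finset.nodup_toList _) (X - sg (ng m Q) X) hmain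
  exact h.mono (Finset.subset_univ _)

end Pool.Agent.SP
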