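import Pool.Agent.SP.ArA

/-!
An element of support `Q` is the sum over a box (uses the statements of ArA.lean, which is
a different job).

Plan. `e := addOrderOf x`, `e ∣ m` (`FS.RUp_order_dvd`), `n := nn m Q = upl m e` (unfold both, `hx`), `e ∣ n`
(`FS.upl_uni`). By `FS.Up_sum D.dist x`, `D.f x = ∑ z ∈ Up x, D.f z`. Every `z ∈ Up x` has order `n` (`FS.Up_order`), so
`z = emb m n w` for a unit `w` (`FS.exists_emb`), unique by `FS.emb_inj`. Hence
`D.f x = ∑ w : (ZMod n)ˣ, (if emb m n w ∈ Up x then 1 else 0) • D.f (emb m n w)`. Let `y` be the unit modulo `e` with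
`x = emb m e y` (`FS.exists_emb`), `w₀` a lift of `y` to a unit modulo `n` (`ZMod.unitsMap_surjective`).
`emb m n w ∈ Up x` iff `(n / e) * emb m n w = x` (`FS.RUp_mem`) iff `(m / e) * w.val ≡ (m / e) * w₀.val [MOD m]` iff
`rr w ≡ rr w₀ [MOD e]` iff `rr w ≡ rr w₀ [MOD ordProj[l] e]` for all `l ∈ Q` (the prime powers are coprime and their
product is `e`: `Nat.prod_factorization_pow_eq_self`) iff `co m Q w i ∈ B i` for all `i`, where
`B i := {b | rr b ≡ rr (co m Q w₀ i) [MOD ordProj[i] e]}` (`rr_co`, `ordProj[i] e ∣ qq m i`). Finally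
`hb i ∣ ordProj[i] e`: `i ∣ e`; for `i = 2` we have `4 ∣ e` by `hreg`.
-/

set_option autoImplicit false

namespace Pool.Agent.SP

open Finset
open Pool.Agent.FS

private theorem ArD_hb {e l : ℕ} (he : e ≠ 0) (hreg : ¬ 2 ∣ e ∨ 4 ∣ e) (hl : l ∈ e.primeFactors) :
    hb l ∣ ordProj[l] e := by
  have hp := Nat.prime_of_mem_primeFactors hl
  have hd := Nat.dvd_of_mem_primeFactors hl
  unfold hb
  split_ifs with h2
  · subst h2
    have h4 : 4 ∣ e := by
      rcases hreg with h | h
      · exact absurd hd h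
      · exact h
    have h5 : 2 ≤ e.factorization 2 := by
      refine (hp.pow_dvd_iff_le_factorization he).1 ?_
      exact h4
    exact pow_dvd_pow 2 h5
  · have h5 : e.factorization l ≠ 0 := by
      have := hp.factorization_pos_of_dvd he hd
      omega
    exact dvd_pow_self l h5

private theorem ArD_modEq {e a b : ℕ} (he : e ≠ 0) :
    a ≡ b [MOD e] ↔ ∀ l ∈ e.primeFactors, a ≡ b [MOD ordProj[l] e] := by
  constructor
  · intro h l _
    exact h.of_dvd (Nat.ordProj_dvd e l)
  · intro h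
    rw [Nat.modEq_iff_dvd]
    have h1 : ∏ l ∈ e.primeFactors, ((ordProj[l] e : ℕ) : ℤ) ∣ (b : ℤ) - a := by
      refine Finset.prod_dvd_of_coprime ?_ ?_
      · intro p hp q hq hpq
        have hp1 := Nat.prime_of_mem_primeFactors (Finset.mem_coe.1 hp)
        have hq1 := Nat.prime_of_mem_primeFactors (Finset.mem_coe.1 hq)
        rw [Function.onFun, Nat.isCoprime_iff_coprime]
        exact Nat.Coprime.pow _ _ ((Nat.coprime_primes hp1 hq1).2 hpq)
      · intro l hl
        exact (Nat.modEq_iff_dvd).1 (h l hl)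
    have h2 : ∏ l ∈ e.primeFactors, (ordProj[l] e : ℕ) = e := by
      have := Nat.prod_factorization_pow_eq_self he
      rw [Finsupp.prod, Nat.support_factorization] at this
      exact this
    rw [← Nat.cast_prod, h2] at h1
    exact h1

private theorem ArD_cancel {m e a b : ℕ} (hm0 : m ≠ 0) (hem : e ∣ m) :
    m / e * a ≡ m / e * b [MOD m] ↔ a ≡ b [MOD e] := by
  obtain ⟨c, rfl⟩ := hem
  have he0 : 0 < e := Nat.pos_of_ne_zero fun h => hm0 (by rw [h, zero_mul])
  have hc0 : c ≠ 0 := fun h => hm0 (by rw [h, mul_zero])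
  rw [Nat.mul_div_cancel_left c he0, mul_comm e c]
  constructor
  · intro h
    exact Nat.ModEq.mul_left_cancel' hc0 h
  · intro h
    exact Nat.ModEq.mul_left' c h

private theorem ArD_div {m n e : ℕ} (hm0 : m ≠ 0) (hnm : n ∣ m) (hen : e ∣ n) :
    m / n * (n / e) = m / e := by
  obtain ⟨c, rfl⟩ := hnm
  obtain ⟨d, rfl⟩ := hen
  have he0 : 0 < e := Nat.pos_of_ne_zero fun h => hm0 (by rw [h, zero_mul, zero_mul])
  have hn0 : 0 < e * d := Nat.pos_of_ne_zero fun h => hm0 (by rw [h, zero_mul])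
  rw [Nat.mul_div_cancel_left c hn0, Nat.mul_div_cancel_left d he0, mul_assoc,
    Nat.mul_div_cancel_left _ he0, mul_comm]

theorem f_box {m : ℕ} [NeZero m] {A : Type} [AddCommGroup A] (D : Datum m A) {Q : Finset ℕ}
    (x : ZMod m) (hreg : Reg x) (hx : (addOrderOf x).primeFactors = Q) :
    ∃ B : ∀ i : Q, Set (KK m Q i), (∀ i, B i ∈ BB m Q i) ∧ D.f x = SS D Q (ind B) := by
  classical
  subst hx
  have hm0 : m ≠ 0 := NeZero.ne m
  have hem : addOrderOf x ∣ m := RUp_order_dvd x
  have he0 : addOrderOf x ≠ 0 := fun h => hm0 (Nat.eq_zero_of_zero_dvd (h ▸ hem))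
  have hreg' : ¬ 2 ∣ addOrderOf x ∨ 4 ∣ addOrderOf x := hreg
  set e := addOrderOf x with he
  have hne : NeZero e := ⟨he0⟩
  obtain ⟨y, hy⟩ := (exists_emb hem x).1 he.symm
  have hnm : nn m e.primeFactors ∣ m := (upl_uni hem).1.1
  have hen : e ∣ nn m e.primeFactors := (upl_uni hem).2.1
  obtain ⟨w₀, hw₀⟩ := ZMod.unitsMap_surjective hen y
  have hyw : rr y ≡ rr w₀ [MOD e] := by
    rw [← ZMod.natCast_eq_natCast_iff, rr, rr, ZMod.natCast_zmod_val, ← hw₀]
    change (ZMod.castHom hen (ZMod e)) (w₀ : ZMod (nn m e.primeFactors)) = _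
    rw [ZMod.castHom_apply, ZMod.natCast_val]
  have hdq : ∀ i : e.primeFactors, ordProj[(i : ℕ)] e ∣ qq m i := fun i =>
    Nat.ordProj_dvd_ordProj_of_dvd hm0 hem i
  refine ⟨fun i => {b | rr b ≡ rr (co m e.primeFactors w₀ i) [MOD ordProj[(i : ℕ)] e]}, ?_, ?_⟩
  · intro i
    exact ⟨ordProj[(i : ℕ)] e, ArD_hb he0 hreg' i.2, hdq i, co m e.primeFactors w₀ i, rfl⟩
  · rw [← Up_sum D.dist x, SS]
    have key : ∀ w : (ZMod (nn m e.primeFactors))ˣ,
        (∀ i : e.primeFactors, co m e.primeFactors w i ∈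
          ({b | rr b ≡ rr (co m e.primeFactors w₀ i) [MOD ordProj[(i : ℕ)] e]} :
            Set (KK m e.primeFactors i))) ↔
        emb m (nn m e.primeFactors) w ∈ Up x := by
      intro w
      have h1 : (∀ i : e.primeFactors, co m e.primeFactors w i ∈
          ({b | rr b ≡ rr (co m e.primeFactors w₀ i) [MOD ordProj[(i : ℕ)] e]} :
            Set (KK m e.primeFactors i))) ↔ ∀ l ∈ e.primeFactors, rr w ≡ rr w₀ [MOD ordProj[l] e] := by
        constructor
        · intro h l hl
          have h2 : rr (co m e.primeFactors w ⟨l, hl⟩) ≡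
              rr (co m e.primeFactors w₀ ⟨l, hl⟩) [MOD ordProj[l] e] := h ⟨l, hl⟩
          have h3 := (rr_co w ⟨l, hl⟩).of_dvd (hdq ⟨l, hl⟩)
          have h4 := (rr_co w₀ ⟨l, hl⟩).of_dvd (hdq ⟨l, hl⟩)
          exact (h3.symm.trans h2).trans h4
        · intro h i
          have h2 := h i i.2
          have h3 := (rr_co w i).of_dvd (hdq i)
          have h4 := (rr_co w₀ i).of_dvd (hdq i)
          exact (h3.trans h2).trans h4.symm
      rw [h1, ← ArD_modEq he0, RUp_mem]
      have h5 : (((upl m (addOrderOf x) / addOrderOf x : ℕ) : ZMod m) *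
          emb m (nn m e.primeFactors) w) = ((m / e * rr w : ℕ) : ZMod m) := by
        change (((nn m e.primeFactors / e : ℕ) : ZMod m) *
          ((m / nn m e.primeFactors * rr w : ℕ) : ZMod m)) = _
        rw [← Nat.cast_mul, ← mul_assoc]
        have h12 := ArD_div hm0 hnm hen
        rw [mul_comm (nn m e.primeFactors / e), h12]
      rw [h5]
      have h6 : x = ((m / e * rr y : ℕ) : ZMod m) := hy
      have h7 : (((m / e * rr w : ℕ) : ZMod m) = x) ↔ rr w ≡ rr y [MOD e] := by
        conv_lhs => rw [h6]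
        rw [ZMod.natCast_eq_natCast_iff]
        exact ArD_cancel hm0 hem
      rw [h7]
      constructor
      · intro h
        exact h.trans hyw.symm
      · intro h
        exact h.trans hyw
    have h10 : ∀ w : (ZMod (nn m e.primeFactors))ˣ,
        ind (fun i : e.primeFactors =>
          ({b | rr b ≡ rr (co m e.primeFactors w₀ i) [MOD ordProj[(i : ℕ)] e]} :
            Set (KK m e.primeFactors i))) (co m e.primeFactors w) •
          D.f (emb m (nn m e.primeFactors) w) =
        if emb m (nn m e.primeFactors) w ∈ Up x then D.f (emb m (nn m e.primeFactors) w) else 0 := by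
      intro w
      rw [ind]
      by_cases h : emb m (nn m e.primeFactors) w ∈ Up x
      · rw [if_pos ((key w).2 h), if_pos h, one_smul]
      · rw [if_neg (fun h' => h ((key w).1 h')), if_neg h, zero_smul]
    rw [Finset.sum_congr rfl (fun w _ => h10 w), ← Finset.sum_filter]
    symm
    refine Finset.sum_bij (fun w _ => emb m (nn m e.primeFactors) w) ?_ ?_ ?_ ?_
    · intro w hw
      exact (Finset.mem_filter.1 hw).2
    · intro w _ w' _ h
      exact Units.ext (emb_inj hnm h)
    · intro z hz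
      have h11 : addOrderOf z = nn m e.primeFactors := Up_order x z hz
      obtain ⟨w, hw⟩ := (exists_emb hnm z).1 h11
      refine ⟨w, Finset.mem_filter.2 ⟨Finset.mem_univ _, ?_⟩, hw.symm⟩
      rw [← hw]
      exact hz
    · intro w _
      rfl

/-- the levels of a regular element -/
theorem hb_dvd_of_reg {m : ℕ} [NeZero m] (x : ZMod m) (hreg : Reg x) :
    ∀ l ∈ (addOrderOf x).primeFactors, hb l ∣ qq m l := by
  intro l hl
  have hm0 : m ≠ 0 := NeZero.ne m
  have hem : addOrderOf x ∣ m := RUp_order_dvd x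
  have he0 : addOrderOf x ≠ 0 := fun h => hm0 (Nat.eq_zero_of_zero_dvd (h ▸ hem))
  exact (ArD_hb he0 hreg hl).trans (Nat.ordProj_dvd_ordProj_of_dvd hm0 hem l)

end Pool.Agent.SP
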