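import Pool.Agent.SP.ArDefs

/-!
# A distribution relation for units

`y := emb m n w₀`, `d := n / e`. The elements `z` with `d z = d y` are the `emb m n w` with
`rr w ≡ rr w₀` modulo `e`, and the `z` with `(n / l) z = 0`, which form one fibre of the
multiplication by `d / l`.
-/

set_option autoImplicit false

namespace Pool.Agent.SP

open Finset
open Pool.Agent.FS
open Pool.Agent.Helper9.Fermat (fib mem_fib)

theorem low_sum {m : ℕ} [NeZero m] {A : Type} [AddCommGroup A] (D : Datum m A) {n e l : ℕ}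
    [NeZero n] (hn : n ∣ m) (he : e * l ∣ n) (hl : l.Prime) (hle : ¬ l ∣ e)
    (hpf : ∀ p : ℕ, p.Prime → p ∣ n → p = l ∨ p ∣ e) (w₀ : (ZMod n)ˣ) :
    ∃ x₁ x₂ : ZMod m, addOrderOf x₁ = e ∧ addOrderOf x₂ = e ∧
      ∑ w ∈ univ.filter (fun w : (ZMod n)ˣ => rr w ≡ rr w₀ [MOD e]), D.f (emb m n w) =
        D.f x₁ - D.f x₂ := by
  classical
  have hn0 : n ≠ 0 := NeZero.ne n
  have hm0 : m ≠ 0 := NeZero.ne m
  obtain ⟨d', hd'⟩ := he
  have he0 : e ≠ 0 := by
    rintro rfl
    rw [zero_mul, zero_mul] at hd'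
    exact hn0 hd'
  have hl0 : 0 < l := hl.pos
  have hd'0 : d' ≠ 0 := by
    rintro rfl
    rw [mul_zero] at hd'
    exact hn0 hd'
  set d := l * d' with hd
  have hned : n = d * e := by rw [hd', hd]; ring
  have hnl : n = l * (e * d') := by rw [hd']; ring
  have hd0 : d ≠ 0 := Nat.mul_ne_zero hl0.ne' hd'0
  obtain ⟨c, hc⟩ := id hn
  have hmn : m / n = c := by
    conv_lhs => rw [hc]
    exact Nat.mul_div_cancel_left c (Nat.pos_of_ne_zero hn0)
  have hdm : d ∣ m := (hned ▸ Dvd.intro e rfl : d ∣ n).trans hn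
  have hd'm : d' ∣ m := (Dvd.intro_left l rfl : d' ∣ d).trans hdm
  set y : ZMod m := emb m n (w₀ : ZMod n) with hy
  have hyo : addOrderOf y = n := (exists_emb hn y).2 ⟨w₀, rfl⟩
  -- the element `y'`
  have hcop : Nat.Coprime e l := ((Nat.Prime.coprime_iff_not_dvd hl).2 hle).symm
  obtain ⟨v', hv1, hv2⟩ := Nat.chineseRemainder hcop (rr w₀) 0
  set y' : ZMod m := ((c * v' : ℕ) : ZMod m) with hy'
  have hyv : y = ((c * rr w₀ : ℕ) : ZMod m) := by
    rw [hy, emb, hmn]
    rfl
  have hdy : (d : ZMod m) * y' = (d : ZMod m) * y := by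
    rw [hy', hyv, ← Nat.cast_mul, ← Nat.cast_mul, ZMod.natCast_eq_natCast_iff]
    have h1 := Nat.ModEq.mul_left' (d * c) hv1
    have h2 : d * c * e = m := by rw [hc, hned]; ring
    rw [h2] at h1
    have e1 : d * (c * v') = d * c * v' := by ring
    have e2 : d * (c * rr w₀) = d * c * rr w₀ := by ring
    rw [e1, e2]
    exact h1
  have hly : ((e * d' : ℕ) : ZMod m) * y' = 0 := by
    obtain ⟨k, hk⟩ := (Nat.modEq_zero_iff_dvd).1 hv2
    rw [hy', ← Nat.cast_mul, ZMod.natCast_eq_zero_iff]
    refine ⟨k, ?_⟩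
    rw [hk, hc, hnl]
    ring
  -- orders
  have hx1 : addOrderOf ((d : ZMod m) * y) = e := by
    rw [← nsmul_eq_mul, addOrderOf_nsmul_of_dvd hd0 (by rw [hyo, hned]; exact Dvd.intro e rfl), hyo]
    conv_lhs => rw [hned]
    exact Nat.mul_div_cancel_left e (Nat.pos_of_ne_zero hd0)
  have hx2 : addOrderOf ((d' : ZMod m) * y') = e := by
    refine Nat.dvd_antisymm ?_ ?_
    · rw [addOrderOf_dvd_iff_nsmul_eq_zero, nsmul_eq_mul, ← mul_assoc, ← Nat.cast_mul]
      exact hly
    · have h1 : l • ((d' : ZMod m) * y') = (d : ZMod m) * y := by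
        rw [nsmul_eq_mul, ← mul_assoc, ← Nat.cast_mul, ← hd, hdy]
      have h2 := addOrderOf_smul_dvd (x := (d' : ZMod m) * y') l
      rw [h1, hx1] at h2
      exact h2
  refine ⟨(d : ZMod m) * y, (d' : ZMod m) * y', hx1, hx2, ?_⟩
  have hs1 := dist_gen D d hdm y
  have hs2 := dist_gen D d' hd'm y'
  -- the second part of the fibre
  have hF2 : (fib m d ((d : ZMod m) * y)).filter (fun z => ((e * d' : ℕ) : ZMod m) * z = 0) =
      fib m d' ((d' : ZMod m) * y') := by
    ext z
    rw [mem_filter, mem_fib, mem_fib]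
    constructor
    · rintro ⟨h1, h2⟩
      have h3 : addOrderOf (z - y') ∣ l * d' := by
        rw [addOrderOf_dvd_iff_nsmul_eq_zero, nsmul_eq_mul, ← hd, mul_sub, h1, hdy, sub_self]
      have h4 : addOrderOf (z - y') ∣ e * d' := by
        rw [addOrderOf_dvd_iff_nsmul_eq_zero, nsmul_eq_mul, mul_sub, h2, hly, sub_self]
      have h5 : addOrderOf (z - y') ∣ d' := by
        have h6 := Nat.dvd_gcd h3 h4
        rw [Nat.gcd_mul_right, Nat.Coprime.gcd_eq_one hcop.symm, one_mul] at h6
        exact h6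
      rw [addOrderOf_dvd_iff_nsmul_eq_zero, nsmul_eq_mul, mul_sub, sub_eq_zero] at h5
      exact h5
    · intro h1
      constructor
      · rw [← hdy, hd, Nat.cast_mul, mul_assoc, mul_assoc, h1]
      · rw [Nat.cast_mul, mul_assoc, h1, ← mul_assoc, ← Nat.cast_mul]
        exact hly
  -- the first part of the fibre
  have hF1 : ∑ w ∈ univ.filter (fun w : (ZMod n)ˣ => rr w ≡ rr w₀ [MOD e]), D.f (emb m n w) =
      ∑ z ∈ (fib m d ((d : ZMod m) * y)).filter
        (fun z => ¬ ((e * d' : ℕ) : ZMod m) * z = 0), D.f z := by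
    have hiff : ∀ w : (ZMod n)ˣ, (d : ZMod m) * emb m n (w : ZMod n) = (d : ZMod m) * y ↔
        rr w ≡ rr w₀ [MOD e] := by
      intro w
      rw [hy, mul_emb_eq_iff hn hned, ZMod.cast_eq_val, ZMod.cast_eq_val,
        ZMod.natCast_eq_natCast_iff]
      rfl
    refine Finset.sum_nbij (fun w : (ZMod n)ˣ => emb m n (w : ZMod n)) ?_ ?_ ?_ ?_
    · intro w hw
      rw [mem_filter] at hw
      rw [mem_filter, mem_fib]
      refine ⟨(hiff w).2 hw.2, ?_⟩
      intro h0
      have h1 : addOrderOf (emb m n (w : ZMod n)) = n := (exists_emb hn _).2 ⟨w, rfl⟩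
      have h2 : n ∣ e * d' := by
        rw [← h1, addOrderOf_dvd_iff_nsmul_eq_zero, nsmul_eq_mul]
        exact h0
      have h3 := Nat.le_of_dvd (Nat.pos_of_ne_zero (Nat.mul_ne_zero he0 hd'0)) h2
      have h4 : 2 * (e * d') ≤ l * (e * d') := Nat.mul_le_mul_right _ hl.two_le
      have h5 : 0 < e * d' := Nat.pos_of_ne_zero (Nat.mul_ne_zero he0 hd'0)
      rw [hnl] at h3
      omega
    · intro w _ w' _ h
      exact Units.ext (emb_inj hn h)
    · intro z hz
      rw [mem_coe, mem_filter, mem_fib] at hz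
      obtain ⟨h1, h2⟩ := hz
      have hnz : addOrderOf z ∣ n := by
        rw [addOrderOf_dvd_iff_nsmul_eq_zero, nsmul_eq_mul, hned, mul_comm d e, Nat.cast_mul,
          mul_assoc, h1, ← mul_assoc, ← Nat.cast_mul, mul_comm e d, ← hned, ← nsmul_eq_mul,
          ← hyo]
        exact addOrderOf_nsmul_eq_zero y
      have ho : addOrderOf z = n := by
        obtain ⟨k, hk⟩ := hnz
        by_cases hk1 : k = 1
        · rw [hk, hk1, mul_one]
        · exfalso
          obtain ⟨p, hp, q, hq⟩ := Nat.exists_prime_and_dvd hk1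
          have hpn : p ∣ n := by
            rw [hk, hq]
            exact (Dvd.intro q rfl : p ∣ p * q).mul_left _
          have hz0 : ((addOrderOf z * q : ℕ) : ZMod m) * z = 0 := by
            rw [mul_comm (addOrderOf z) q, Nat.cast_mul, mul_assoc, ← nsmul_eq_mul (addOrderOf z),
              addOrderOf_nsmul_eq_zero, mul_zero]
          have hnpq : n = p * (addOrderOf z * q) := by
            rw [hk, hq]
            ring
          rcases hpf p hp hpn with rfl | hpe
          · apply h2
            have h6 : e * d' = addOrderOf z * q := by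
              have h7 : p * (e * d') = p * (addOrderOf z * q) := hnl.symm.trans hnpq
              exact Nat.eq_of_mul_eq_mul_left hp.pos h7
            rw [h6]
            exact hz0
          · obtain ⟨e', he'⟩ := hpe
            have h6 : addOrderOf z * q = e' * d := by
              have h7 : p * (addOrderOf z * q) = p * (e' * d) := by
                rw [← hnpq, hned, he']
                ring
              exact Nat.eq_of_mul_eq_mul_left hp.pos h7
            rw [h6, Nat.cast_mul, mul_assoc, h1, ← mul_assoc, ← Nat.cast_mul, ← h6] at hz0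
            have h8 : n ∣ addOrderOf z * q := by
              rw [← hyo, addOrderOf_dvd_iff_nsmul_eq_zero, nsmul_eq_mul]
              exact hz0
            have h9 : 0 < addOrderOf z * q := by
              rcases Nat.eq_zero_or_pos (addOrderOf z * q) with h | h
              · rw [h, mul_zero] at hnpq
                exact absurd hnpq hn0
              · exact h
            have h10 := Nat.le_of_dvd h9 h8
            have h11 : 2 * (addOrderOf z * q) ≤ p * (addOrderOf z * q) :=
              Nat.mul_le_mul_right _ hp.two_le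
            rw [hnpq] at h10
            omega
      obtain ⟨w, hw⟩ := (exists_emb hn z).1 ho
      refine ⟨w, ?_, hw.symm⟩
      rw [mem_coe, mem_filter]
      refine ⟨mem_univ _, (hiff w).1 ?_⟩
      rw [← hw]
      exact h1
    · intro w _
      rfl
  rw [hF1, ← hs1, ← hs2, ← hF2, eq_sub_iff_add_eq, add_comm]
  exact Finset.sum_filter_add_sum_filter_not _ _ _

end Pool.Agent.SP
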