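import Pool.Agent.SP.ArA
import Pool.Agent.SP.ArE

/-!
The sum over a box with one full side is a difference of two elements.
-/

set_option autoImplicit false

namespace Pool.Agent.SP

open Finset
open Pool.Agent.FS

private theorem arF_dvd_hb (l : ℕ) : l ∣ hb l := by
  unfold hb
  split_ifs with h
  · subst h; exact ⟨2, rfl⟩
  · exact dvd_rfl

private theorem arF_modEq_prod {ι : Type} [Fintype ι] (d : ι → ℕ)
    (hc : ∀ i j : ι, i ≠ j → (d i).Coprime (d j)) (x y : ℕ) :
    (∀ i, x ≡ y [MOD d i]) ↔ x ≡ y [MOD ∏ i, d i] := by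
  classical
  constructor
  · intro h
    have key : ∀ s : Finset ι, x ≡ y [MOD ∏ i ∈ s, d i] := by
      intro s
      induction s using Finset.induction_on with
      | empty => simp [Nat.modEq_one]
      | insert i s hi ih =>
        rw [Finset.prod_insert hi]
        refine (Nat.modEq_and_modEq_iff_modEq_mul ?_).1 ⟨h i, ih⟩
        apply Nat.Coprime.prod_right
        intro j hj
        apply hc
        rintro rfl
        exact hi hj
    exact key Finset.univ
  · intro h i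
    exact h.of_dvd (Finset.dvd_prod_of_mem d (Finset.mem_univ i))

theorem low {m : ℕ} [NeZero m] {A : Type} [AddCommGroup A] (D : Datum m A) {Q : Finset ℕ}
    (hp : ∀ l ∈ Q, l.Prime) (hQ : ∀ l ∈ Q, hb l ∣ qq m l) (j : Q)
    (B : ∀ i : Q, Set (KK m Q i)) (hB : ∀ i, i ≠ j → B i ∈ BB m Q i) (hj : B j = Set.univ) :
    ∃ x₁ x₂ : ZMod m, (Reg x₁ ∧ (addOrderOf x₁).primeFactors = Q.erase j) ∧
      (Reg x₂ ∧ (addOrderOf x₂).primeFactors = Q.erase j) ∧
      SS D Q (ind B) = D.f x₁ - D.f x₂ := by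
  classical
  have hex : ∀ i : Q, ∃ d : ℕ, ∃ a : KK m Q i, (i ≠ j → hb i ∣ d) ∧ (i = j → d = 1) ∧
      d ∣ qq m i ∧ B i = {b | rr b ≡ rr a [MOD d]} := by
    intro i
    by_cases hi : i = j
    · subst hi
      refine ⟨1, 1, fun h => absurd rfl h, fun _ => rfl, one_dvd _, ?_⟩
      rw [hj]
      ext b
      simp [Nat.modEq_one]
    · obtain ⟨d, h1, h2, a, h3⟩ := hB i hi
      exact ⟨d, a, fun _ => h1, fun h => absurd h hi, h2, h3⟩
  choose d a h1 h2 h3 h4 using hex
  have hpr : ∀ i : Q, (i : ℕ).Prime := fun i => hp i i.2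
  have hcop : ∀ i i' : Q, i ≠ i' → (d i).Coprime (d i') := by
    intro i i' hii
    have hne : (i : ℕ) ≠ (i' : ℕ) := fun h => hii (Subtype.ext h)
    exact Nat.Coprime.coprime_dvd_left (h3 i)
      (Nat.Coprime.coprime_dvd_right (h3 i') (qq_coprime (m := m) (hpr i) (hpr i') hne))
  -- primes dividing a factor
  have hpd : ∀ p : ℕ, p.Prime → ∀ i : Q, p ∣ d i → p = i ∧ i ≠ j := by
    intro p hpp i hpi
    constructor
    · by_contra hne
      exact not_dvd_qq (m := m) hpp (hpr i) hne (hpi.trans (h3 i))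
    · rintro rfl
      rw [h2 i rfl] at hpi
      exact hpp.one_lt.ne' (Nat.dvd_one.1 hpi)
  set e : ℕ := ∏ i : Q, d i with he
  have hde : ∀ i : Q, d i ∣ e := fun i => Finset.dvd_prod_of_mem d (Finset.mem_univ i)
  have hd0 : ∀ i : Q, d i ≠ 0 := fun i h => by
    have := h3 i
    rw [h] at this
    exact (NeZero.ne (qq m i)) (Nat.eq_zero_of_zero_dvd this)
  have he0 : e ≠ 0 := Finset.prod_ne_zero_iff.2 fun i _ => hd0 i
  have hpe : ∀ p : ℕ, p.Prime → p ∣ e → p ∈ Q.erase (j : ℕ) := by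
    intro p hpp hpe
    obtain ⟨i, -, hi⟩ := (hpp.prime.dvd_finsetProd_iff d).1 hpe
    obtain ⟨h5, h6⟩ := hpd p hpp i hi
    rw [Finset.mem_erase, h5]
    exact ⟨fun h => h6 (Subtype.ext h), i.2⟩
  have heQ : ∀ p : ℕ, p ∈ Q.erase (j : ℕ) → hb p ∣ e := by
    intro p hpQ
    rw [Finset.mem_erase] at hpQ
    have hij : (⟨p, hpQ.2⟩ : Q) ≠ j := fun h => hpQ.1 (congrArg Subtype.val h)
    exact (h1 ⟨p, hpQ.2⟩ hij).trans (hde _)
  have hnm := (nn_uni (m := m) hp).1
  -- e * j divides nn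
  have hej : e * (j : ℕ) ∣ nn m Q := by
    have h5 : nn m Q = ∏ i : Q, qq m i := by
      unfold nn
      exact (Finset.prod_coe_sort Q (fun l => qq m l)).symm
    have h6 : e * (j : ℕ) = ∏ i : Q, (d i * if i = j then (j : ℕ) else 1) := by
      rw [Finset.prod_mul_distrib, Finset.prod_ite_eq' Finset.univ j]
      simp [he]
    rw [h5, h6]
    apply Finset.prod_dvd_prod_of_dvd
    intro i _
    by_cases hi : i = j
    · subst hi
      rw [if_pos rfl, h2 i rfl, one_mul]
      exact (arF_dvd_hb i).trans (hQ i i.2)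
    · rw [if_neg hi, mul_one]
      exact h3 i
  have hje : ¬ (j : ℕ) ∣ e := by
    intro h
    have := hpe j (hpr j) h
    simp at this
  obtain ⟨w₀, hw₀⟩ := (co_bij (m := m) hp).2 a
  have hpf : ∀ p : ℕ, p.Prime → p ∣ nn m Q → p = (j : ℕ) ∨ p ∣ e := by
    intro p hpp hpn
    have hpQ := (prime_dvd_nn hp hQ hpp).1 hpn
    by_cases hpj : p = (j : ℕ)
    · exact Or.inl hpj
    · exact Or.inr ((arF_dvd_hb p).trans (heQ p (Finset.mem_erase.2 ⟨hpj, hpQ⟩)))
  obtain ⟨x₁, x₂, hx₁, hx₂, hsum⟩ := low_sum D hnm hej (hpr j) hje hpf w₀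
  have hfac : e.primeFactors = Q.erase (j : ℕ) := by
    ext p
    rw [Nat.mem_primeFactors]
    constructor
    · rintro ⟨hpp, hpd', -⟩
      exact hpe p hpp hpd'
    · intro h
      exact ⟨hp p (Finset.mem_of_mem_erase h), (arF_dvd_hb p).trans (heQ p h), he0⟩
  have hreg : ∀ x : ZMod m, addOrderOf x = e → Reg x := by
    intro x hx
    unfold Reg
    rw [hx]
    by_cases h : 2 ∣ e
    · right
      have h5 := heQ 2 (hpe 2 Nat.prime_two h)
      simpa [hb] using h5
    · exact Or.inl h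
  refine ⟨x₁, x₂, ⟨hreg x₁ hx₁, by rw [hx₁, hfac]⟩, ⟨hreg x₂ hx₂, by rw [hx₂, hfac]⟩, ?_⟩
  rw [← hsum, SS, Finset.sum_filter]
  apply Finset.sum_congr rfl
  intro w _
  have hiff : (∀ i, co m Q w i ∈ B i) ↔ rr w ≡ rr w₀ [MOD e] := by
    rw [he, ← arF_modEq_prod d hcop]
    apply forall_congr'
    intro i
    rw [h4 i, Set.mem_ofPred_eq]
    have h5 : rr (co m Q w i) ≡ rr w [MOD d i] := (rr_co w i).of_dvd (h3 i)
    have h6 : rr (a i) ≡ rr w₀ [MOD d i] := by
      rw [← hw₀]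
      exact (rr_co w₀ i).of_dvd (h3 i)
    constructor
    · intro h
      exact h5.symm.trans (h.trans h6)
    · intro h
      exact h5.trans (h.trans h6.symm)
  unfold ind
  by_cases h : rr w ≡ rr w₀ [MOD e]
  · rw [if_pos h, if_pos (hiff.2 h), one_smul]
  · rw [if_neg h, if_neg (fun h' => h (hiff.1 h')), zero_smul]

end Pool.Agent.SP
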