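import Pool.Agent.SP.ArA

/-!
Additivity of the sums over the units.
-/

set_option autoImplicit false

namespace Pool.Agent.SP

open Finset
open Pool.Agent.FS

variable {m : ℕ} [NeZero m] {A : Type} [AddCommGroup A] (D : Datum m A) {Q : Finset ℕ}

theorem SS_zero : SS D Q 0 = 0 := by
  unfold SS
  apply Finset.sum_eq_zero
  intro w _
  rw [Pi.zero_apply, zero_smul]

theorem SS_add (X Y : (∀ i : Q, KK m Q i) → ℤ) : SS D Q (X + Y) = SS D Q X + SS D Q Y := by
  unfold SS
  rw [← Finset.sum_add_distrib]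
  apply Finset.sum_congr rfl
  intro w _
  rw [Pi.add_apply, add_smul]

theorem SS_sum {α : Type} (s : Finset α) (X : α → (∀ i : Q, KK m Q i) → ℤ) :
    SS D Q (∑ a ∈ s, X a) = ∑ a ∈ s, SS D Q (X a) := by
  classical
  induction s using Finset.induction_on with
  | empty => rw [Finset.sum_empty, Finset.sum_empty, SS_zero]
  | insert a s ha ih => rw [Finset.sum_insert ha, Finset.sum_insert ha, SS_add, ih]

private theorem ArG_smul (c : ℤ) (X : (∀ i : Q, KK m Q i) → ℤ) :
    SS D Q (c • X) = c • SS D Q X := by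
  unfold SS
  rw [Finset.smul_sum]
  apply Finset.sum_congr rfl
  intro w _
  rw [Pi.smul_apply, smul_eq_mul, mul_smul]

theorem SS_bsum (ls : List ((∀ i : Q, Set (KK m Q i)) × ℤ)) :
    SS D Q (bsum ls) = (ls.map fun b => b.2 • SS D Q (ind b.1)).sum := by
  induction ls with
  | nil =>
    have h : bsum ([] : List ((∀ i : Q, Set (KK m Q i)) × ℤ)) = 0 := by
      unfold bsum
      rw [List.map_nil, List.sum_nil]
    rw [h, SS_zero, List.map_nil, List.sum_nil]
  | cons b ls ih =>
    have h : bsum (b :: ls) = b.2 • ind b.1 + bsum ls := by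
      unfold bsum
      rw [List.map_cons, List.sum_cons]
    rw [h, SS_add, ArG_smul, ih, List.map_cons, List.sum_cons]

theorem SS_even (hp : ∀ l ∈ Q, l.Prime) (hQ : ∀ l ∈ Q, hb l ∣ qq m l) (hne : Q.Nonempty)
    (E : (∀ i : Q, KK m Q i) → ℤ) (hE : sg (ng m Q) E = E) : SS D Q E = 0 := by
  have hn : nn m Q ∣ m := (nn_uni hp).1
  have h3 : 3 ≤ nn m Q := by
    obtain ⟨l, hl⟩ := hne
    have h1 : 3 ≤ hb l := hb_pos (hp l hl)
    have h2 : hb l ∣ nn m Q := (hQ l hl).trans (qq_dvd_nn m ⟨l, hl⟩)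
    have h4 : 0 < nn m Q := Nat.pos_of_ne_zero (NeZero.ne _)
    exact h1.trans (Nat.le_of_dvd h4 h2)
  refine even_sum D hn h3 (fun w => E (co m Q w)) ?_
  intro g
  have h5 := congrFun hE (co m Q g)
  change E (co m Q (-1 * g)) = E (co m Q g)
  rw [co_neg]
  exact h5

end Pool.Agent.SP
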