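import Pool.Agent.SP.BoxA

/-!
# The norm of signed boxes: slices and the involution
-/

set_option autoImplicit false

namespace Pool.Agent.SP

open Finset

variable {ι : Type} {K R : ι → Type} {π : ∀ i, K i → R i} {c : ∀ i, K i → K i}
  {𝓑 : ∀ i, Set (Set (K i))}

theorem boxC_nil : bsum ([] : List ((∀ i, Set (K i)) × ℤ)) = 0 := rfl

theorem boxC_cons (b : (∀ i, Set (K i)) × ℤ) (ls : List ((∀ i, Set (K i)) × ℤ)) :
    bsum (b :: ls) = b.2 • ind b.1 + bsum ls := by
  rw [bsum, bsum, List.map_cons, List.sum_cons]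

open Classical in
/-- the members of the list whose `l`-side contains `a`, with the `l`-side replaced by `D`. -/
noncomputable def boxCL (l : ι) (a : K l) (D : Set (K l)) (ls : List ((∀ i, Set (K i)) × ℤ)) :
    List ((∀ i, Set (K i)) × ℤ) :=
  (ls.filter fun b => a ∈ b.1 l).map fun b => (Function.update b.1 l D, b.2)

theorem boxC_length (l : ι) (a : K l) (D : Set (K l)) (ls : List ((∀ i, Set (K i)) × ℤ)) :
    (boxCL l a D ls).length ≤ ls.length := by
  classical
  rw [boxCL, List.length_map]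
  exact List.length_filter_le _ _

theorem boxC_mem {l : ι} {a : K l} {D : Set (K l)} {ls : List ((∀ i, Set (K i)) × ℤ)}
    {x : (∀ i, Set (K i)) × ℤ} (hx : x ∈ boxCL l a D ls) :
    ∃ b ∈ ls, x.1 l = D ∧ (∀ i, i ≠ l → x.1 i = b.1 i) ∧ x.2 = b.2 := by
  classical
  rw [boxCL, List.mem_map] at hx
  obtain ⟨b, hb, rfl⟩ := hx
  refine ⟨b, (List.mem_filter.1 hb).1, ?_, fun i hi => ?_, rfl⟩
  · exact Function.update_self l D b.1
  · exact Function.update_of_ne hi D b.1

open Classical in
theorem boxC_boxCL_cons_mem {l : ι} {a : K l} (D : Set (K l)) {b : (∀ i, Set (K i)) × ℤ}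
    (ls : List ((∀ i, Set (K i)) × ℤ)) (h : a ∈ b.1 l) :
    boxCL l a D (b :: ls) = (Function.update b.1 l D, b.2) :: boxCL l a D ls := by
  rw [boxCL, List.filter_cons_of_pos (by simpa using h), List.map_cons, boxCL]

theorem boxC_boxCL_cons_notMem {l : ι} {a : K l} (D : Set (K l)) {b : (∀ i, Set (K i)) × ℤ}
    (ls : List ((∀ i, Set (K i)) × ℤ)) (h : a ∉ b.1 l) :
    boxCL l a D (b :: ls) = boxCL l a D ls := by
  classical
  rw [boxCL, List.filter_cons_of_neg (by simpa using h), boxCL]

open Classical in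
theorem boxC_ind_update (l : ι) (B : ∀ i, Set (K i)) (D : Set (K l)) (w : ∀ i, K i) :
    ind (Function.update B l D) w = if (w l ∈ D ∧ ∀ i, i ≠ l → w i ∈ B i) then 1 else 0 := by
  rw [ind]
  congr 1
  apply propext
  constructor
  · intro h
    refine ⟨?_, fun i hi => ?_⟩
    · have := h l
      rwa [Function.update_self] at this
    · have := h i
      rwa [Function.update_of_ne hi] at this
  · rintro ⟨h1, h2⟩ i
    by_cases hi : i = l
    · subst hi
      rwa [Function.update_self]
    · rw [Function.update_of_ne hi]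
      exact h2 i hi

open Classical in
theorem boxC_ind_at (l : ι) (a : K l) (B : ∀ i, Set (K i)) (w : ∀ i, K i) :
    ind B (Function.update w l a) = if (a ∈ B l ∧ ∀ i, i ≠ l → w i ∈ B i) then 1 else 0 := by
  rw [ind]
  congr 1
  apply propext
  constructor
  · intro h
    refine ⟨?_, fun i hi => ?_⟩
    · have := h l
      rwa [Function.update_self] at this
    · have := h i
      rwa [Function.update_of_ne hi] at this
  · rintro ⟨h1, h2⟩ i
    by_cases hi : i = l
    · subst hi
      rwa [Function.update_self]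
    · rw [Function.update_of_ne hi]
      exact h2 i hi

theorem boxC_up (l : ι) (a : K l) (ls : List ((∀ i, Set (K i)) × ℤ)) :
    up l a (bsum ls) = bsum (boxCL l a Set.univ ls) := by
  classical
  induction ls with
  | nil => rfl
  | cons b ls ih =>
    rw [boxC_cons, up_add, ih]
    by_cases h : a ∈ b.1 l
    · rw [boxC_boxCL_cons_mem Set.univ ls h, boxC_cons]
      congr 1
      funext w
      change b.2 • ind b.1 (Function.update w l a) = b.2 • ind (Function.update b.1 l Set.univ) w
      rw [boxC_ind_at, boxC_ind_update]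
      simp only [h, Set.mem_univ, true_and]
    · rw [boxC_boxCL_cons_notMem Set.univ ls h]
      have h0 : up l a (b.2 • ind b.1) = 0 := by
        funext w
        change b.2 • ind b.1 (Function.update w l a) = 0
        rw [boxC_ind_at, if_neg (fun h' => h h'.1), smul_zero]
      rw [h0, zero_add]

theorem boxC_cut (l : ι) (a : K l) (ρ : R l) (ls : List ((∀ i, Set (K i)) × ℤ)) :
    cut π l {ρ} (bsum (boxCL l a Set.univ ls)) = bsum (boxCL l a {b | π l b = ρ} ls) := by
  classical
  induction ls with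
  | nil => exact cut_zero l {ρ}
  | cons b ls ih =>
    by_cases h : a ∈ b.1 l
    · rw [boxC_boxCL_cons_mem _ ls h, boxC_boxCL_cons_mem _ ls h, boxC_cons, boxC_cons, cut_add, ih]
      congr 1
      funext w
      by_cases hw : π l (w l) = ρ
      · rw [cut_of_mem (mem_singleton.2 hw)]
        change b.2 • ind (Function.update b.1 l Set.univ) w =
          b.2 • ind (Function.update b.1 l {b | π l b = ρ}) w
        rw [boxC_ind_update, boxC_ind_update]
        simp only [Set.mem_univ, Set.mem_ofPred_eq, hw]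
      · rw [cut_of_notMem (fun h' => hw (mem_singleton.1 h'))]
        change (0 : ℤ) = b.2 • ind (Function.update b.1 l {b | π l b = ρ}) w
        rw [boxC_ind_update, if_neg (fun h' => hw h'.1), smul_zero]
    · rw [boxC_boxCL_cons_notMem _ ls h, boxC_boxCL_cons_notMem _ ls h, ih]

theorem boxC_up_cut (l : ι) (a : K l) (X : (∀ i, K i) → ℤ) :
    up l a (cut π l {π l a} X) = up l a X := by
  classical
  funext w
  change cut π l {π l a} X (Function.update w l a) = X (Function.update w l a)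
  rw [cut_of_mem]
  rw [Function.update_self, mem_singleton]

theorem boxC_sg (ls : List ((∀ i, Set (K i)) × ℤ)) :
    sg c (bsum ls) = bsum (ls.map fun b => ((fun i => {a | c i a ∈ b.1 i}), b.2)) := by
  induction ls with
  | nil => rfl
  | cons b ls ih =>
    rw [boxC_cons, sg_add, ih, List.map_cons, boxC_cons]
    rfl

theorem bnorm_slice [Finite ι] [∀ i, Finite (K i)] (H : Sides π c 𝓑) (l : ι) (ρ : R l) (a : K l)
    (X : (∀ i, K i) → ℤ) :
    bnorm 𝓑 (cut π l {ρ} (up l a X)) ≤ bnorm 𝓑 (cut π l {π l a} X) := by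
  obtain ⟨ls, h1, h2, h3⟩ := bnorm_spec H.single (cut π l {π l a} X)
  rw [← boxC_up_cut (π := π), h2, boxC_up, boxC_cut, ← h2, ← h3]
  refine (bnorm_le _ ?_).trans (boxC_length _ _ _ _)
  intro x hx
  obtain ⟨b, hb, hx1, hx2, hx3⟩ := boxC_mem hx
  refine ⟨fun i => ?_, ?_⟩
  · by_cases hi : i = l
    · subst hi
      rw [hx1]
      exact H.cls i ρ
    · rw [hx2 i hi]
      exact (h1 b hb).1 i
  · rw [hx3]
    exact (h1 b hb).2

theorem bnorm_sig [Finite ι] [∀ i, Finite (K i)] (H : Sides π c 𝓑) (X : (∀ i, K i) → ℤ) :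
    bnorm 𝓑 (sg c X) ≤ bnorm 𝓑 X := by
  obtain ⟨ls, h1, h2, h3⟩ := bnorm_spec H.single X
  have h4 : bnorm 𝓑 (sg c (bsum ls)) ≤ ls.length := by
    rw [boxC_sg]
    refine (bnorm_le _ ?_).trans (le_of_eq (List.length_map _))
    intro x hx
    rw [List.mem_map] at hx
    obtain ⟨b, hb, rfl⟩ := hx
    exact ⟨fun i => H.inv i _ ((h1 b hb).1 i), (h1 b hb).2⟩
  rw [← h2, h3] at h4
  exact h4

/-- A function which is independent of the `l`-coordinate is the sum of few signed boxes with full
`l`-side. -/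
theorem exists_inv_rep [Finite ι] [∀ i, Finite (K i)] (H : Sides π c 𝓑)
    (hπ : ∀ i, Function.Surjective (π i)) (l : ι) (ρ : R l) (Y : (∀ i, K i) → ℤ) (hY : Inv l Y) :
    ∃ ls : List ((∀ i, Set (K i)) × ℤ), Y = bsum ls ∧ ls.length ≤ bnorm 𝓑 (cut π l {ρ} Y) ∧
      ∀ b ∈ ls, (∀ i, i ≠ l → b.1 i ∈ 𝓑 i) ∧ b.1 l = Set.univ ∧ (b.2 = 1 ∨ b.2 = -1) := by
  obtain ⟨a, rfl⟩ := hπ l ρ
  obtain ⟨ls, h1, h2, h3⟩ := bnorm_spec H.single (cut π l {π l a} Y)
  refine ⟨boxCL l a Set.univ ls, ?_, ?_, ?_⟩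
  · rw [← boxC_up, ← h2, boxC_up_cut, hY.up_eq]
  · rw [← h3]
    exact boxC_length _ _ _ _
  · intro x hx
    obtain ⟨b, hb, hx1, hx2, hx3⟩ := boxC_mem hx
    refine ⟨fun i hi => ?_, hx1, ?_⟩
    · rw [hx2 i hi]
      exact (h1 b hb).1 i
    · rw [hx3]
      exact (h1 b hb).2

end Pool.Agent.SP
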