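import Pool.Agent.SP.BoxB
import Pool.Agent.SP.BoxC

/-!
# The norm of signed boxes
-/

set_option autoImplicit false

namespace Pool.Agent.SP

open Finset

variable {ι : Type} {K R : ι → Type} {π : ∀ i, K i → R i} {c : ∀ i, K i → K i}
  [∀ i, Fintype (R i)] {𝓑 : ∀ i, Set (Set (K i))}

/-- the norm of signed boxes -/
noncomputable def boxNrm [Finite ι] [∀ i, Finite (K i)] (H : Sides π c 𝓑) : Nrm π c where
  N := bnorm 𝓑
  zero := bnorm_zero
  eq_zero := bnorm_eq_zero H.single
  neg := bnorm_neg H.single
  add := bnorm_add H.single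
  cls := bnorm_cls H
  slice := bnorm_slice H
  sig := bnorm_sig H

end Pool.Agent.SP
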