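import Pool.Agent.SP.Prop1
import Pool.Agent.SP.BoxN
import Pool.Agent.SP.ArB
import Pool.Agent.SP.ArC
import Pool.Agent.SP.ArD
import Pool.Agent.SP.ArF
import Pool.Agent.SP.ArG

/-!
# The removal of a maximal support

The sum of an odd distribution over the elements whose order has the set of prime factors `Q` is
rewritten as a sum over elements whose orders have smaller sets of prime factors.
-/

set_option autoImplicit false

namespace Pool.Agent.SP

open Finset
open Pool.Agent.FS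

theorem stepQ_hh2 : hh 2 = 1 := by
  unfold hh hb
  decide

theorem stepQ_hh3 : hh 3 = 1 := by
  unfold hh hb
  decide

theorem stepQ_hh5 : hh 5 = 2 := by
  unfold hh hb
  decide

theorem stepQ_hh7 : hh 7 = 3 := by
  unfold hh hb
  decide

theorem stepQ_reg_neg {m : ℕ} {x : ZMod m} (h : Reg x) : Reg (-x) := by
  unfold Reg at h ⊢
  rwa [addOrderOf_neg]

/-- a list of signed boxes with a full side gives a multiset of lower support -/
theorem stepQ_list {m : ℕ} [NeZero m] {A : Type} [AddCommGroup A] (D : Datum m A) {Q : Finset ℕ}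
    (hp : ∀ l ∈ Q, l.Prime) (hQ : ∀ l ∈ Q, hb l ∣ qq m l) (j : Q)
    (ls : List ((∀ i : Q, Set (KK m Q i)) × ℤ)) :
    (∀ b ∈ ls, (∀ i, i ≠ j → b.1 i ∈ BB m Q i) ∧ b.1 j = Set.univ ∧ (b.2 = 1 ∨ b.2 = -1)) →
    ∃ T' : Multiset (ZMod m), T'.card ≤ 2 * ls.length ∧
      (∀ x ∈ T', Reg x ∧ (addOrderOf x).primeFactors = Q.erase j) ∧
      (ls.map fun b => b.2 • SS D Q (ind b.1)).sum = (T'.map D.f).sum := by
  induction ls with
  | nil =>
    intro _
    exact ⟨0, by simp, by simp, by simp⟩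
  | cons b ls ih =>
    intro h
    obtain ⟨T', hc', hm', hs'⟩ := ih (fun b' hb' => h b' (List.mem_cons_of_mem _ hb'))
    obtain ⟨hB, hj, hsgn⟩ := h b List.mem_cons_self
    obtain ⟨x₁, x₂, h1, h2, h3⟩ := low D hp hQ j b.1 hB hj
    rcases hsgn with hs | hs
    · refine ⟨x₁ ::ₘ (-x₂) ::ₘ T', ?_, ?_, ?_⟩
      · rw [Multiset.card_cons, Multiset.card_cons, List.length_cons]
        omega
      · intro x hx
        rw [Multiset.mem_cons, Multiset.mem_cons] at hx
        rcases hx with rfl | rfl | hx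
        · exact h1
        · exact ⟨stepQ_reg_neg h2.1, by rw [addOrderOf_neg]; exact h2.2⟩
        · exact hm' x hx
      · rw [List.map_cons, List.sum_cons, hs', Multiset.map_cons, Multiset.map_cons,
          Multiset.sum_cons, Multiset.sum_cons, h3, hs, one_smul, D.odd]
        abel
    · refine ⟨(-x₁) ::ₘ x₂ ::ₘ T', ?_, ?_, ?_⟩
      · rw [Multiset.card_cons, Multiset.card_cons, List.length_cons]
        omega
      · intro x hx
        rw [Multiset.mem_cons, Multiset.mem_cons] at hx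
        rcases hx with rfl | rfl | hx
        · exact ⟨stepQ_reg_neg h1.1, by rw [addOrderOf_neg]; exact h1.2⟩
        · exact h2
        · exact hm' x hx
      · rw [List.map_cons, List.sum_cons, hs', Multiset.map_cons, Multiset.map_cons,
          Multiset.sum_cons, Multiset.sum_cons, h3, hs, neg_smul, one_smul, D.odd]
        abel

theorem stepQ {m : ℕ} [NeZero m] {A : Type} [AddCommGroup A] (D : Datum m A) {Q : Finset ℕ}
    (hp : ∀ l ∈ Q, l.Prime) (T : Multiset (ZMod m))
    (hT : ∀ x ∈ T, Reg x ∧ (addOrderOf x).primeFactors = Q) (L : Set ℕ)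
    (hL : ∀ n' ∈ L, ∃ l ∈ Q, ¬ l ∣ n') (b : A) (hb' : b ∈ D.lev L)
    (hW : ∀ t, D.W t ((T.map D.f).sum + b) = 0)
    (hc : ∀ p ∈ Q, ∀ q ∈ Q, p < q → T.card < hh p * hh q ∨
      (p = 5 ∧ q = 7 ∧ T.card < 10 ∧ ∃ r ∈ Q, 3 < hh r)) :
    ∃ T' : Multiset (ZMod m), T'.card ≤ T.card ∧
      (∀ x ∈ T', Reg x ∧ ∃ l ∈ Q, (addOrderOf x).primeFactors = Q.erase l) ∧
      (T.map D.f).sum = (T'.map D.f).sum := by
  classical
  by_cases hT0 : T = 0
  · subst hT0
    exact ⟨0, by simp, by simp, by simp⟩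
  rcases Q.eq_empty_or_nonempty with hQe | hne
  · refine ⟨0, by simp, by simp, ?_⟩
    rw [Multiset.map_zero, Multiset.sum_zero]
    apply Multiset.sum_eq_zero
    intro a ha
    rw [Multiset.mem_map] at ha
    obtain ⟨x, hx, rfl⟩ := ha
    have h1 := (hT x hx).2
    rw [hQe, Nat.primeFactors_eq_empty] at h1
    have h2 : 0 < addOrderOf x := addOrderOf_pos x
    have h3 : addOrderOf x = 1 := by omega
    rw [AddMonoid.addOrderOf_eq_one_iff] at h3
    rw [h3, D.zero]
  obtain ⟨x0, hx0⟩ := Multiset.exists_mem_of_ne_zero hT0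
  have hTc : 0 < T.card := Multiset.card_pos.2 hT0
  have hQ : ∀ l ∈ Q, hb l ∣ qq m l := by
    intro l hl
    apply hb_dvd_of_reg x0 (hT x0 hx0).1 l
    rw [(hT x0 hx0).2]
    exact hl
  choose! Bx hBx using (fun x (hx : x ∈ T) => f_box D x (hT x hx).1 (hT x hx).2)
  set ls : List ((∀ i : Q, Set (KK m Q i)) × ℤ) := T.toList.map (fun x => (Bx x, (1 : ℤ))) with hls
  have hBL : IsBL (BB m Q) ls := by
    intro b hb2
    rw [hls, List.mem_map] at hb2
    obtain ⟨x, hx, rfl⟩ := hb2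
    exact ⟨(hBx x (Multiset.mem_toList.1 hx)).1, Or.inl rfl⟩
  have hX : SS D Q (bsum ls) = (T.map D.f).sum := by
    rw [SS_bsum, hls, List.map_map]
    have h1 : T.toList.map ((fun b : (∀ i : Q, Set (KK m Q i)) × ℤ => b.2 • SS D Q (ind b.1)) ∘
        (fun x => (Bx x, (1 : ℤ)))) = T.toList.map D.f := by
      apply List.map_congr_left
      intro x hx
      rw [Function.comp_apply, one_smul]
      exact ((hBx x (Multiset.mem_toList.1 hx)).2).symm
    rw [h1, ← Multiset.sum_coe, ← Multiset.map_coe, Multiset.coe_toList]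
  have hnorm : bnorm (BB m Q) (bsum ls) ≤ T.card := by
    refine (bnorm_le ls hBL).trans ?_
    rw [hls, List.length_map, Multiset.length_toList]
  have hIS := IS_nu D hp hQ L hL (bsum ls) b hb' (by
    intro t
    rw [hX]
    exact hW t)
  have : Nonempty Q := hne.to_subtype
  have hinj : Function.Injective (fun i : Q => hh i) := by
    intro p q hpq
    rcases hh_inj (hp p p.2) (hp q q.2) hpq with h1 | ⟨h1, h2⟩ | ⟨h1, h2⟩
    · exact Subtype.ext h1
    · exfalso
      have h3 := p.2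
      have h4 := q.2
      rw [h1] at h3
      rw [h2] at h4
      rcases hc 2 h3 3 h4 (by norm_num) with h5 | h5
      · rw [stepQ_hh2, stepQ_hh3] at h5
        omega
      · omega
    · exfalso
      have h3 := p.2
      have h4 := q.2
      rw [h1] at h3
      rw [h2] at h4
      rcases hc 2 h4 3 h3 (by norm_num) with h5 | h5
      · rw [stepQ_hh2, stepQ_hh3] at h5
        omega
      · omega
  have hN : ∀ p q : Q, hh p < hh q → (boxNrm (sides_BB hp hQ)).N (bsum ls) < hh p * hh q ∨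
      (hh p = 2 ∧ hh q = 3 ∧ (boxNrm (sides_BB hp hQ)).N (bsum ls) < 10 ∧ ∃ r : Q, 3 < hh r) := by
    intro p q hpq
    rcases hc p p.2 q q.2 (hh_lt (hp p p.2) (hp q q.2) hpq) with h1 | ⟨h1, h2, h3, r, hr, h4⟩
    · left
      exact lt_of_le_of_lt hnorm h1
    · right
      refine ⟨?_, ?_, lt_of_le_of_lt hnorm h3, ⟨r, hr⟩, h4⟩
      · rw [h1]
        exact stepQ_hh5
      · rw [h2]
        exact stepQ_hh7
  obtain ⟨Y, E, n, hY, hE, hXE, h2n⟩ := decomp (h := fun i : Q => hh i) (card_RR hp)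
    (fun i => hh_pos (hp i i.2)) (pr_surj hQ) ng_ng (cR := ngR Q) (pr_ng hQ) (ngR_ne hp) hinj
    (boxNrm (sides_BB hp hQ)) (bsum ls) hIS hN
  have hE0 : SS D Q E = 0 := SS_even D hp hQ hne E hE
  have hXs : SS D Q (bsum ls) = ∑ l : Q, SS D Q (Y l) := by
    rw [hXE, SS_add, hE0, zero_add, SS_sum]
  have hkey : ∀ l : Q, ∃ T' : Multiset (ZMod m), T'.card ≤ 2 * n l ∧
      (∀ x ∈ T', Reg x ∧ (addOrderOf x).primeFactors = Q.erase l) ∧
      SS D Q (Y l) = (T'.map D.f).sum := by
    intro l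
    obtain ⟨ls', h1, h2, h3⟩ := exists_inv_rep (sides_BB hp hQ) (pr_surj hQ) l
      (pr hQ l 1) (Y l) (hY l).1
    obtain ⟨T', h4, h5, h6⟩ := stepQ_list D hp hQ l ls' h3
    refine ⟨T', ?_, h5, ?_⟩
    · have h7 : ls'.length ≤ n l := h2.trans ((hY l).2 (pr hQ l 1))
      omega
    · rw [h1, SS_bsum]
      exact h6
  choose T' hT1 hT2 hT3 using hkey
  refine ⟨∑ l : Q, T' l, ?_, ?_, ?_⟩
  · rw [Multiset.card_sum]
    refine (Finset.sum_le_sum (fun l _ => hT1 l)).trans ?_
    rw [← Finset.mul_sum]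
    exact h2n.trans hnorm
  · intro x hx
    rw [Multiset.mem_sum] at hx
    obtain ⟨l, -, hl⟩ := hx
    exact ⟨(hT2 l x hl).1, l, l.2, (hT2 l x hl).2⟩
  · rw [← hX, hXs]
    have h1 := map_sum ((Multiset.sumAddMonoidHom (M := A)).comp (Multiset.mapAddMonoidHom D.f)) T'
      Finset.univ
    simp only [AddMonoidHom.comp_apply, Multiset.coe_sumAddMonoidHom,
      Multiset.coe_mapAddMonoidHom] at h1
    rw [h1]
    exact Finset.sum_congr rfl (fun l _ => hT3 l)

end Pool.Agent.SP
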