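import Pool.Agent.SP.ArDefs

/-!
Elements whose order is twice an odd number (see `f_good` in FS/Main.lean or FSU/Main.lean, where
these arguments occur).

Definitions: `cntW S T` counts the elements `x` of `S` such that `hb l ∣ addOrderOf x` for all `l ∈ T` (`hb 2 = 4`, `hb l = l`
otherwise); the elements which are not `Reg` (order `2 * odd`) are counted twice.

Plan for `dbl_one`. `h := m / 2`; `2 * h = 0` in `ZMod m`. `y := 2 * x`, `z := -(x + h)`. `FS.f_half D hm (x + h)`:
`D.f (x + h + h) = D.f (2 * (x + h)) - D.f (x + h)`, i.e. `D.f x = D.f y + D.f z` (`D.odd`). With `addOrderOf x = 2 * e₁`, `e₁` odd: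
`e₁ * x = h` (the only element of order two), so `e₁ * (x + h) = 0` and `addOrderOf z ∣ e₁`; conversely `x = (x + h) + h`
gives `addOrderOf x ∣ 2 * addOrderOf z`, so `addOrderOf z = e₁`; `addOrderOf y = e₁`.
Plan for `dbl`. Induction on the multiset `S` (`Multiset.induction_on`): a regular element is kept, another one is
replaced by the two elements of `dbl_one`; `cntT` and `cntW` are additive; for a regular `x` and a set `T` of
primes: `T ⊆ (addOrderOf x).primeFactors` iff `hb l ∣ addOrderOf x` for all `l ∈ T`; for the two elements of odd order `e₁`: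
`T ⊆ e₁.primeFactors` iff `hb l ∣ 2 * e₁` for all `l ∈ T` (if `2 ∈ T` both are false).
-/

set_option autoImplicit false

namespace Pool.Agent.SP

open Finset
open Pool.Agent.FS

open Classical in
/-- The number of elements `x` of `S` with `hb l ∣ addOrderOf x` for all `l ∈ T`; the elements whose order is
twice an odd number are counted twice. -/
noncomputable def cntW {m : ℕ} (S : Multiset (ZMod m)) (T : Finset ℕ) : ℕ :=
  (S.map fun x => if ∀ l ∈ T, hb l ∣ addOrderOf x then
    (if 2 ∣ addOrderOf x ∧ ¬ 4 ∣ addOrderOf x then 2 else 1) else 0).sum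

variable {m : ℕ} [NeZero m] {A : Type} [AddCommGroup A]

private theorem dbl_aux (hm : 2 ∣ m) (x : ZMod m) {e₁ : ℕ} (he₁ : addOrderOf x = 2 * e₁)
    (hodd : ¬ 2 ∣ e₁) : ((m / 2 : ℕ) : ZMod m) + ((m / 2 : ℕ) : ZMod m) = 0 ∧
      (e₁ : ZMod m) * (x + ((m / 2 : ℕ) : ZMod m)) = 0 := by
  set h := ((m / 2 : ℕ) : ZMod m) with hh
  have hh2 : h + h = 0 := by
    have := Pool.Agent.Helper9.Fermat.half_neg (m := m) hm
    rw [neg_eq_iff_add_eq_zero] at this
    exact this
  have h1 : (e₁ : ZMod m) * x = h := by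
    have h3 : ((2 : ℕ) : ZMod m) * ((e₁ : ZMod m) * x) = 0 := by
      rw [← mul_assoc, ← Nat.cast_mul, ← he₁, ← nsmul_eq_mul]
      exact addOrderOf_nsmul_eq_zero x
    have h4' : (e₁ : ZMod m) * x ≠ 0 := by
      intro h5
      rw [← nsmul_eq_mul, ← addOrderOf_dvd_iff_nsmul_eq_zero, he₁] at h5
      have he1 : 0 < e₁ := Nat.pos_of_ne_zero (by rintro rfl; exact hodd (dvd_zero 2))
      have := Nat.le_of_dvd he1 h5
      omega
    have h6 : (e₁ : ZMod m) * x ∈ Pool.Agent.Helper9.Fermat.fib m 2 (((2 : ℕ) : ZMod m) * 0) := by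
      rw [Pool.Agent.Helper9.Fermat.mem_fib, h3, mul_zero]
    have h7 : Pool.Agent.Helper9.Fermat.fib m 2 (((2 : ℕ) : ZMod m) * 0) = {0, h} := by
      symm
      refine Finset.eq_of_subset_of_card_le ?_ ?_
      · intro z hz
        rw [mem_insert, mem_singleton] at hz
        rw [Pool.Agent.Helper9.Fermat.mem_fib]
        rcases hz with rfl | rfl
        · rfl
        · push_cast
          linear_combination hh2
      · rw [Pool.Agent.Helper9.Fermat.fib_card (by norm_num) hm,
          card_pair (Pool.Agent.Helper9.Fermat.half_ne hm).symm]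
    rw [h7, mem_insert, mem_singleton] at h6
    exact h6.resolve_left h4'
  obtain ⟨c, hc⟩ : ∃ c, e₁ = 2 * c + 1 := ⟨e₁ / 2, by omega⟩
  have h6 : (e₁ : ZMod m) * h = h := by
    rw [hc]
    push_cast
    linear_combination (c : ZMod m) * hh2
  exact ⟨hh2, by rw [mul_add, h1, h6, hh2]⟩

theorem dbl_one (hm : 2 ∣ m) (x : ZMod m) (hx : ¬ Reg x) :
    ∃ y z : ZMod m, (∀ D : Datum m A, D.f x = D.f y + D.f z) ∧
      ∃ e₁, ¬ 2 ∣ e₁ ∧ addOrderOf x = 2 * e₁ ∧ addOrderOf y = e₁ ∧ addOrderOf z = e₁ := by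
  obtain ⟨h2, h4⟩ := not_or.1 hx
  rw [not_not] at h2
  obtain ⟨e₁, he₁⟩ := h2
  have hodd : ¬ 2 ∣ e₁ := fun h => h4 (by rw [he₁]; obtain ⟨c, rfl⟩ := h; exact ⟨c, by ring⟩)
  obtain ⟨hh2, h5⟩ := dbl_aux hm x he₁ hodd
  set h := ((m / 2 : ℕ) : ZMod m) with hh
  have hx' : x = (x + h) + h := by rw [add_assoc, hh2, add_zero]
  have hy : (2 : ZMod m) * (x + h) = 2 * x := by linear_combination hh2
  refine ⟨2 * x, -(x + h), fun D => ?_, e₁, hodd, he₁, ?_, ?_⟩
  · have h6 := f_half D hm (x + h)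
    rw [← hh, ← hx', hy] at h6
    rw [h6, D.odd, sub_eq_add_neg]
  · have h7 : (2 : ZMod m) * x = (2 : ℕ) • x := by rw [nsmul_eq_mul]; rfl
    rw [h7, addOrderOf_nsmul_of_dvd two_ne_zero (by rw [he₁]; exact dvd_mul_right 2 e₁), he₁]
    omega
  · rw [addOrderOf_neg]
    refine Nat.dvd_antisymm ?_ ?_
    · rw [addOrderOf_dvd_iff_nsmul_eq_zero, nsmul_eq_mul]
      exact h5
    · have h8 : 2 * e₁ ∣ 2 * addOrderOf (x + h) := by
        rw [← he₁, addOrderOf_dvd_iff_nsmul_eq_zero, nsmul_eq_mul]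
        have h9 : ((addOrderOf (x + h) : ℕ) : ZMod m) * (x + h) = 0 := by
          rw [← nsmul_eq_mul]
          exact addOrderOf_nsmul_eq_zero _
        push_cast
        linear_combination 2 * h9 - (addOrderOf (x + h) : ZMod m) * hh2
      exact Nat.dvd_of_mul_dvd_mul_left two_pos h8

private theorem cntT_cons (x : ZMod m) (S : Multiset (ZMod m)) (T : Finset ℕ) [Decidable (T ⊆ (addOrderOf x).primeFactors)] :
    cntT (x ::ₘ S) T = (if T ⊆ (addOrderOf x).primeFactors then 1 else 0) + cntT S T := by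
  unfold cntT
  rw [Multiset.filter_cons, Multiset.card_add]
  congr 1
  split_ifs <;> simp

private theorem cntW_cons (x : ZMod m) (S : Multiset (ZMod m)) (T : Finset ℕ)
    [Decidable (∀ l ∈ T, hb l ∣ addOrderOf x)] [Decidable (2 ∣ addOrderOf x ∧ ¬ 4 ∣ addOrderOf x)] :
    cntW (x ::ₘ S) T = (if ∀ l ∈ T, hb l ∣ addOrderOf x then
      (if 2 ∣ addOrderOf x ∧ ¬ 4 ∣ addOrderOf x then 2 else 1) else 0) + cntW S T := by
  unfold cntW
  rw [Multiset.map_cons, Multiset.sum_cons]
  congr 1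
  congr

private theorem sub_iff_reg (x : ZMod m) (hx : Reg x) (T : Finset ℕ) (hT : ∀ l ∈ T, l.Prime) :
    T ⊆ (addOrderOf x).primeFactors ↔ ∀ l ∈ T, hb l ∣ addOrderOf x := by
  have hpos : addOrderOf x ≠ 0 := (addOrderOf_pos x).ne'
  refine forall_congr' fun l => forall_congr' fun hl => ?_
  rw [Nat.mem_primeFactors_of_ne_zero hpos, and_iff_right (hT l hl)]
  unfold hb
  split_ifs with h
  · subst h
    rcases hx with hx | hx
    · exact ⟨fun h => absurd h hx, fun h => absurd ((by norm_num : (2 : ℕ) ∣ 4).trans h) hx⟩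
    · exact ⟨fun _ => hx, fun h => (by norm_num : (2 : ℕ) ∣ 4).trans h⟩
  · exact Iff.rfl

private theorem sub_iff_odd {e₁ : ℕ} (he : ¬ 2 ∣ e₁) (T : Finset ℕ) (hT : ∀ l ∈ T, l.Prime) :
    T ⊆ e₁.primeFactors ↔ ∀ l ∈ T, hb l ∣ 2 * e₁ := by
  have hpos : e₁ ≠ 0 := by rintro rfl; exact he (dvd_zero 2)
  refine forall_congr' fun l => forall_congr' fun hl => ?_
  rw [Nat.mem_primeFactors_of_ne_zero hpos, and_iff_right (hT l hl)]
  unfold hb
  split_ifs with h
  · subst h
    refine ⟨fun h => absurd h he, fun h => absurd ?_ he⟩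
    obtain ⟨c, hc⟩ := h
    exact ⟨c, by omega⟩
  · refine ⟨fun h => h.mul_left 2, fun h3 => ?_⟩
    rcases (hT l hl).dvd_mul.1 h3 with h4 | h4
    · exact absurd ((Nat.prime_dvd_prime_iff_eq (hT l hl) Nat.prime_two).1 h4) h
    · exact h4

theorem dbl (hm : 2 ∣ m) (S : Multiset (ZMod m)) :
    ∃ S' : Multiset (ZMod m), (∀ x ∈ S', Reg x) ∧
      (∀ D : Datum m A, (S.map D.f).sum = (S'.map D.f).sum) ∧
      ∀ T : Finset ℕ, (∀ l ∈ T, l.Prime) → cntT S' T = cntW S T := by
  classical
  induction S using Multiset.induction_on with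
  | empty => exact ⟨0, by simp, by simp, fun T _ => by simp [cntT, cntW]⟩
  | cons x S ih =>
    obtain ⟨S', h1, h2, h3⟩ := ih
    by_cases hx : Reg x
    · refine ⟨x ::ₘ S', ?_, ?_, ?_⟩
      · intro y hy
        rcases Multiset.mem_cons.1 hy with rfl | hy
        · exact hx
        · exact h1 y hy
      · intro D
        rw [Multiset.map_cons, Multiset.sum_cons, Multiset.map_cons, Multiset.sum_cons, h2 D]
      · intro T hT
        rw [cntT_cons, cntW_cons, h3 T hT]
        congr 1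
        have h5 : ¬ (2 ∣ addOrderOf x ∧ ¬ 4 ∣ addOrderOf x) := by
          rintro ⟨h6, h7⟩
          rcases hx with hx | hx
          · exact hx h6
          · exact h7 hx
        rw [if_neg h5]
        by_cases h6 : T ⊆ (addOrderOf x).primeFactors
        · rw [if_pos h6, if_pos ((sub_iff_reg x hx T hT).1 h6)]
        · rw [if_neg h6, if_neg fun h => h6 ((sub_iff_reg x hx T hT).2 h)]
    · obtain ⟨y, z, hyz, e₁, hodd, hex, hey, hez⟩ := dbl_one (A := A) hm x hx
      refine ⟨y ::ₘ z ::ₘ S', ?_, ?_, ?_⟩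
      · intro w hw
        rcases Multiset.mem_cons.1 hw with rfl | hw
        · exact Or.inl (by rw [hey]; exact hodd)
        · rcases Multiset.mem_cons.1 hw with rfl | hw
          · exact Or.inl (by rw [hez]; exact hodd)
          · exact h1 w hw
      · intro D
        simp only [Multiset.map_cons, Multiset.sum_cons]
        rw [h2 D, hyz D, add_assoc]
      · intro T hT
        rw [cntT_cons, cntT_cons, cntW_cons, h3 T hT, ← add_assoc]
        congr 1
        rw [hey, hez, hex]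
        have h5 : (2 ∣ 2 * e₁ ∧ ¬ 4 ∣ 2 * e₁) :=
          ⟨dvd_mul_right 2 e₁, fun ⟨c, hc⟩ => hodd ⟨c, by omega⟩⟩
        rw [if_pos h5]
        by_cases h6 : T ⊆ e₁.primeFactors
        · rw [if_pos h6, if_pos ((sub_iff_odd hodd T hT).1 h6)]
        · rw [if_neg h6, if_neg fun h => h6 ((sub_iff_odd hodd T hT).2 h)]

end Pool.Agent.SP
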