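import Pool.Agent.SP.StepQ

/-!
# The chain over all supports
-/

set_option autoImplicit false

namespace Pool.Agent.SP

open Finset
open Pool.Agent.FS

theorem ChainS_add {m : ℕ} (S S' : Multiset (ZMod m)) (T : Finset ℕ) :
    cntT (S + S') T = cntT S T + cntT S' T := by
  unfold cntT
  rw [Multiset.filter_add, Multiset.card_add]

theorem ChainS_le {m : ℕ} (S : Multiset (ZMod m)) (T : Finset ℕ) : cntT S T ≤ S.card := by
  unfold cntT
  exact Multiset.card_le_card (Multiset.filter_le _ _)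

theorem ChainS_eq {m : ℕ} (S : Multiset (ZMod m)) (T : Finset ℕ)
    (h : ∀ x ∈ S, T ⊆ (addOrderOf x).primeFactors) : cntT S T = S.card := by
  unfold cntT
  rw [Multiset.filter_eq_self.2 h]

theorem ChainS_zero {m : ℕ} (S : Multiset (ZMod m)) (T : Finset ℕ)
    (h : ∀ x ∈ S, ¬ T ⊆ (addOrderOf x).primeFactors) : cntT S T = 0 := by
  unfold cntT
  rw [Multiset.filter_eq_nil.2 h, Multiset.card_zero]

/-- the allowed sets are closed under subsets -/
theorem ChainS_sub (𝒢 : Finset ℕ → Prop) (h𝒢 : ∀ T, 𝒢 T → ∀ l ∈ T, 𝒢 (T.erase l)) (k : ℕ) :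
    ∀ T T₁ : Finset ℕ, 𝒢 T → T₁ ⊆ T → (T \ T₁).card = k → 𝒢 T₁ := by
  induction k with
  | zero =>
    intro T T₁ hT hs hk
    have h1 : T ⊆ T₁ := Finset.sdiff_eq_empty_iff_subset.1 (Finset.card_eq_zero.1 hk)
    rwa [Finset.Subset.antisymm hs h1]
  | succ k ih =>
    intro T T₁ hT hs hk
    obtain ⟨l, hl⟩ : (T \ T₁).Nonempty := Finset.card_pos.1 (by omega)
    have hl' := Finset.mem_sdiff.1 hl
    refine ih (T.erase l) T₁ (h𝒢 T hT l hl'.1) ?_ ?_
    · intro a ha
      refine Finset.mem_erase.2 ⟨?_, hs ha⟩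
      rintro rfl
      exact hl'.2 ha
    · have h1 : T.erase l \ T₁ = (T \ T₁).erase l := by
        ext a
        simp only [Finset.mem_sdiff, Finset.mem_erase]
        tauto
      rw [h1, Finset.card_erase_of_mem hl, hk, Nat.add_sub_cancel]

open Classical in
theorem ChainS_ind {m : ℕ} [NeZero m] {A : Type} [AddCommGroup A] (D : Datum m A)
    (𝒢 : Finset ℕ → Prop) (h𝒢 : ∀ T, 𝒢 T → ∀ l ∈ T, 𝒢 (T.erase l)) (k : ℕ) :
    ∀ F : Finset (Finset ℕ), F.card = k → (∀ T ∈ F, ¬ 𝒢 T ∧ ∀ l ∈ T, l.Prime) →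
      (∀ T ∈ F, ∀ l ∈ T, ¬ 𝒢 (T.erase l) → T.erase l ∈ F) →
      ∀ S : Multiset (ZMod m), (∀ x ∈ S, Reg x) →
      (∀ T : Finset ℕ, (∀ l ∈ T, l.Prime) → ¬ 𝒢 T → ∀ p ∈ T, ∀ q ∈ T, p < q →
        cntT S T < hh p * hh q ∨ (p = 5 ∧ q = 7 ∧ cntT S T < 10 ∧ ∃ r ∈ T, 3 < hh r)) →
      (∀ t, D.W t (S.map D.f).sum = 0) →
      (∀ x ∈ S, 𝒢 (addOrderOf x).primeFactors ∨ (addOrderOf x).primeFactors ∈ F) →
      ∃ S₁ : Multiset (ZMod m), (∀ x ∈ S₁, Reg x ∧ 𝒢 (addOrderOf x).primeFactors) ∧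
        (S.map D.f).sum = (S₁.map D.f).sum := by
  induction k with
  | zero =>
    intro F hk _ _ S hreg _ _ hF
    refine ⟨S, fun x hx => ⟨hreg x hx, ?_⟩, rfl⟩
    rcases hF x hx with h | h
    · exact h
    · rw [Finset.card_eq_zero.1 hk] at h
      exact absurd h (Finset.notMem_empty _)
  | succ k ih =>
    intro F hk hF1 hF2 S hreg hc hW hF
    obtain ⟨T, hTF, hTmax⟩ := Finset.exists_max_image F (fun T => T.card)
      (Finset.card_pos.1 (by omega))
    set ST : Multiset (ZMod m) := S.filter fun x => (addOrderOf x).primeFactors = T with hST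
    set S' : Multiset (ZMod m) := S.filter fun x => ¬ (addOrderOf x).primeFactors = T with hS'
    have hadd : ST + S' = S := Multiset.filter_add_not _ S
    have hmemT : ∀ x ∈ ST, x ∈ S ∧ (addOrderOf x).primeFactors = T := fun x hx =>
      Multiset.mem_filter.1 hx
    have hmem' : ∀ x ∈ S', x ∈ S ∧ ¬ (addOrderOf x).primeFactors = T := fun x hx =>
      Multiset.mem_filter.1 hx
    have hsum : (S.map D.f).sum = (ST.map D.f).sum + (S'.map D.f).sum := by
      rw [← hadd, Multiset.map_add, Multiset.sum_add]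
    have hcard : ST.card ≤ cntT S T := by
      rw [← hadd, ChainS_add, ChainS_eq ST T fun x hx => (hmemT x hx).2.ge]
      exact Nat.le_add_right _ _
    -- the levels of the remaining elements
    have hL : ∀ n' ∈ {n' : ℕ | ∃ x ∈ S', n' = addOrderOf x}, ∃ l ∈ T, ¬ l ∣ n' := by
      rintro n' ⟨x, hx, rfl⟩
      by_contra hcon
      push Not at hcon
      have hne : addOrderOf x ≠ 0 := (addOrderOf_pos x).ne'
      have hsub : T ⊆ (addOrderOf x).primeFactors := fun l hl =>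
        Nat.mem_primeFactors.2 ⟨(hF1 T hTF).2 l hl, hcon l hl, hne⟩
      rcases hF x (hmem' x hx).1 with h | h
      · exact (hF1 T hTF).1 (ChainS_sub 𝒢 h𝒢 _ _ T h hsub rfl)
      · exact (hmem' x hx).2 (Finset.eq_of_subset_of_card_le hsub (hTmax _ h)).symm
    have hb : (S'.map D.f).sum ∈ D.lev {n' : ℕ | ∃ x ∈ S', n' = addOrderOf x} := by
      refine AddSubgroup.multiset_sum_mem _ _ ?_
      intro a ha
      obtain ⟨x, hx, rfl⟩ := Multiset.mem_map.1 ha
      exact f_mem D ⟨x, hx, rfl⟩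
    obtain ⟨T', hT'c, hT'm, hT's⟩ := stepQ D (Q := T) (hF1 T hTF).2 ST
      (fun x hx => ⟨hreg x (hmemT x hx).1, (hmemT x hx).2⟩) _ hL _ hb
      (fun t => by rw [← hsum]; exact hW t) (by
        intro p hp q hq hpq
        rcases hc T (hF1 T hTF).2 (hF1 T hTF).1 p hp q hq hpq with h | ⟨h1, h2, h3, h4⟩
        · exact Or.inl (hcard.trans_lt h)
        · exact Or.inr ⟨h1, h2, hcard.trans_lt h3, h4⟩)
    have hcnt : ∀ T₁ : Finset ℕ, cntT (S' + T') T₁ ≤ cntT S T₁ := by
      intro T₁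
      rw [← hadd, ChainS_add, ChainS_add, add_comm]
      refine Nat.add_le_add_right ?_ _
      by_cases hs : T₁ ⊆ T
      · rw [ChainS_eq ST T₁ fun x hx => by rw [(hmemT x hx).2]; exact hs]
        exact (ChainS_le T' T₁).trans hT'c
      · rw [ChainS_zero T' T₁ fun x hx hcon => by
          obtain ⟨_, l, _, hl⟩ := hT'm x hx
          rw [hl] at hcon
          exact hs (hcon.trans (Finset.erase_subset _ _))]
        exact Nat.zero_le _
    have hsum2 : (S.map D.f).sum = ((S' + T').map D.f).sum := by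
      rw [hsum, hT's, Multiset.map_add, Multiset.sum_add, add_comm]
    rw [hsum2]
    refine ih (F.erase T) (by rw [Finset.card_erase_of_mem hTF, hk, Nat.add_sub_cancel])
      (fun T₁ hT₁ => hF1 T₁ (Finset.mem_of_mem_erase hT₁)) ?_ (S' + T') ?_ ?_ ?_ ?_
    · intro T₁ hT₁ l hl hn
      refine Finset.mem_erase.2 ⟨?_, hF2 T₁ (Finset.mem_of_mem_erase hT₁) l hl hn⟩
      intro he
      have h1 : T₁.card ≤ T.card := hTmax T₁ (Finset.mem_of_mem_erase hT₁)
      have h2 : (T₁.erase l).card < T₁.card := Finset.card_erase_lt_of_mem hl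
      rw [he] at h2
      omega
    · intro x hx
      rcases Multiset.mem_add.1 hx with h | h
      · exact hreg x (hmem' x h).1
      · exact (hT'm x h).1
    · intro T₁ h1 h2 p hp q hq hpq
      rcases hc T₁ h1 h2 p hp q hq hpq with h | ⟨h3, h4, h5, h6⟩
      · exact Or.inl ((hcnt T₁).trans_lt h)
      · exact Or.inr ⟨h3, h4, (hcnt T₁).trans_lt h5, h6⟩
    · intro t
      rw [← hsum2]
      exact hW t
    · intro x hx
      rcases Multiset.mem_add.1 hx with h | h
      · rcases hF x (hmem' x h).1 with h' | h'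
        · exact Or.inl h'
        · exact Or.inr (Finset.mem_erase.2 ⟨(hmem' x h).2, h'⟩)
      · obtain ⟨_, l, hlT, hl⟩ := hT'm x h
        rw [hl]
        by_cases hG : 𝒢 (T.erase l)
        · exact Or.inl hG
        · refine Or.inr (Finset.mem_erase.2 ⟨?_, hF2 T hTF l hlT hG⟩)
          intro he
          have h2 : (T.erase l).card < T.card := Finset.card_erase_lt_of_mem hlT
          rw [he] at h2
          exact lt_irrefl _ h2

theorem chainS {m : ℕ} [NeZero m] {A : Type} [AddCommGroup A] (D : Datum m A)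
    (𝒢 : Finset ℕ → Prop) (h𝒢 : ∀ T, 𝒢 T → ∀ l ∈ T, 𝒢 (T.erase l)) (S : Multiset (ZMod m))
    (hreg : ∀ x ∈ S, Reg x)
    (hc : ∀ T : Finset ℕ, (∀ l ∈ T, l.Prime) → ¬ 𝒢 T → ∀ p ∈ T, ∀ q ∈ T, p < q →
      cntT S T < hh p * hh q ∨
      (p = 5 ∧ q = 7 ∧ cntT S T < 10 ∧ ∃ r ∈ T, 3 < hh r))
    (hW : ∀ t, D.W t (S.map D.f).sum = 0) :
    ∃ S₁ : Multiset (ZMod m), (∀ x ∈ S₁, Reg x ∧ 𝒢 (addOrderOf x).primeFactors) ∧
      (S.map D.f).sum = (S₁.map D.f).sum := by
  classical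
  refine ChainS_ind D 𝒢 h𝒢 _ (m.primeFactors.powerset.filter fun T => ¬ 𝒢 T) rfl ?_ ?_ S hreg hc
    hW ?_
  · intro T hT
    have h1 := Finset.mem_filter.1 hT
    exact ⟨h1.2, fun l hl => Nat.prime_of_mem_primeFactors (Finset.mem_powerset.1 h1.1 hl)⟩
  · intro T hT l _ hn
    have h1 := Finset.mem_filter.1 hT
    exact Finset.mem_filter.2 ⟨Finset.mem_powerset.2
      ((Finset.erase_subset _ _).trans (Finset.mem_powerset.1 h1.1)), hn⟩
  · intro x _
    by_cases hG : 𝒢 (addOrderOf x).primeFactors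
    · exact Or.inl hG
    · refine Or.inr (Finset.mem_filter.2 ⟨Finset.mem_powerset.2 ?_, hG⟩)
      have h1 : addOrderOf x ∣ m := by
        have := addOrderOf_dvd_card (x := x)
        rwa [ZMod.card] at this
      exact Nat.primeFactors_mono h1 (NeZero.ne m)

end Pool.Agent.SP
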