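import Pool.Agent.SP.ArA2

/-!
# Classes: cardinalities, the involution has no fixed points, half totients
-/

set_option autoImplicit false

namespace Pool.Agent.SP

open Finset
open Pool.Agent.FS

variable {m : ℕ} {Q : Finset ℕ}

private theorem ArA_even {l : ℕ} (hl : l.Prime) : Even (hb l).totient :=
  Nat.totient_even (hb_pos hl)

private theorem ArA_two : hh 2 = 1 := by
  unfold hh hb
  decide

private theorem ArA_odd {l : ℕ} (hl : l.Prime) (h2 : l ≠ 2) : hh l = (l - 1) / 2 ∧ l % 2 = 1 ∧ 3 ≤ l := by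
  refine ⟨?_, ?_, ?_⟩
  · unfold hh hb
    rw [if_neg h2, Nat.totient_prime hl]
  · rcases hl.eq_two_or_odd with h | h
    · exact absurd h h2
    · exact h
  · have := hl.two_le
    omega

theorem card_RR (hp : ∀ l ∈ Q, l.Prime) (i : Q) : Fintype.card (RR Q i) = 2 * hh i := by
  have hl := hp i i.2
  have h3 := hb_pos hl
  have hne : NeZero (hb (i : ℕ)) := ⟨by omega⟩
  rw [← Nat.card_eq_fintype_card]
  have h1 : Nat.card (RR Q i) = Nat.card (ZMod (hb (i : ℕ)))ˣ := rfl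
  rw [h1, Nat.card_eq_fintype_card, ZMod.card_units_eq_totient]
  unfold hh
  exact (Nat.two_mul_div_two_of_even (ArA_even hl)).symm

theorem hh_pos {l : ℕ} (hl : l.Prime) : 0 < hh l := by
  have h3 := hb_pos hl
  have h1 : 0 < (hb l).totient := Nat.totient_pos.2 (by omega)
  have h2 := ArA_even hl
  unfold hh
  obtain ⟨k, hk⟩ := h2
  omega

theorem hh_inj {p q : ℕ} (hp : p.Prime) (hq : q.Prime) (h : hh p = hh q) :
    p = q ∨ (p = 2 ∧ q = 3) ∨ (p = 3 ∧ q = 2) := by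
  by_cases hp2 : p = 2
  · by_cases hq2 : q = 2
    · left; rw [hp2, hq2]
    · obtain ⟨h1, h2, h3⟩ := ArA_odd hq hq2
      rw [hp2, ArA_two, h1] at h
      omega
  · obtain ⟨h1, h2, h3⟩ := ArA_odd hp hp2
    by_cases hq2 : q = 2
    · rw [hq2, ArA_two, h1] at h
      omega
    · obtain ⟨h4, h5, h6⟩ := ArA_odd hq hq2
      rw [h1, h4] at h
      omega

theorem hh_lt {p q : ℕ} (hp : p.Prime) (hq : q.Prime) (h : hh p < hh q) : p < q := by
  by_cases hp2 : p = 2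
  · by_cases hq2 : q = 2
    · rw [hp2, hq2] at h; omega
    · obtain ⟨h1, h2, h3⟩ := ArA_odd hq hq2
      omega
  · obtain ⟨h1, h2, h3⟩ := ArA_odd hp hp2
    by_cases hq2 : q = 2
    · rw [hq2, ArA_two, h1] at h
      omega
    · obtain ⟨h4, h5, h6⟩ := ArA_odd hq hq2
      rw [h1, h4] at h
      omega

theorem pr_surj [NeZero m] (hQ : ∀ l ∈ Q, hb l ∣ qq m l) (i : Q) : Function.Surjective (pr hQ i) := by
  intro ρ
  obtain ⟨a, ha⟩ := ZMod.unitsMap_surjective (hQ i i.2) ρ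
  exact ⟨a, ha⟩

theorem pr_ng (hQ : ∀ l ∈ Q, hb l ∣ qq m l) (i : Q) (a : KK m Q i) :
    pr hQ i (ng m Q i a) = ngR Q i (pr hQ i a) := by
  unfold pr ng ngR
  apply Units.ext
  change (ZMod.castHom (hQ i i.2) (ZMod (hb i))) (-(a : ZMod (qq m i))) =
    -((ZMod.castHom (hQ i i.2) (ZMod (hb i))) (a : ZMod (qq m i)))
  rw [map_neg]

theorem ng_ng (i : Q) (a : KK m Q i) : ng m Q i (ng m Q i a) = a := by
  unfold ng
  exact neg_neg a

theorem ngR_ne (hp : ∀ l ∈ Q, l.Prime) (i : Q) (ρ : RR Q i) : ngR Q i ρ ≠ ρ := by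
  intro h
  have h3 := hb_pos (hp i i.2)
  have h1 : -(show (ZMod (hb (i : ℕ)))ˣ from ρ) = (show (ZMod (hb (i : ℕ)))ˣ from ρ) := h
  have h2 := congrArg Units.val h1
  rw [Units.val_neg] at h2
  set u : (ZMod (hb (i : ℕ)))ˣ := ρ with hu
  have h4 : (2 : ZMod (hb (i : ℕ))) * (u : ZMod (hb (i : ℕ))) = 0 := by
    have h5 : (u : ZMod (hb (i : ℕ))) + (u : ZMod (hb (i : ℕ))) = 0 := by
      nth_rewrite 1 [← h2]
      exact neg_add_cancel _
    rw [two_mul]; exact h5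
  have h5 : (2 : ZMod (hb (i : ℕ))) = 0 := by
    have := congrArg (fun x => x * ((u⁻¹ : (ZMod (hb (i : ℕ)))ˣ) : ZMod (hb (i : ℕ)))) h4
    simpa [mul_assoc] using this
  have h6 : ((2 : ℕ) : ZMod (hb (i : ℕ))) = 0 := by exact_mod_cast h5
  rw [ZMod.natCast_eq_zero_iff] at h6
  have := Nat.le_of_dvd (by norm_num) h6
  omega

end Pool.Agent.SP
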