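import Pool.Agent.SP.ChainS
import Pool.Agent.SP.Dbl
import Pool.Agent.FSU.RMain

/-!
# The main theorem on pair-sparse Hodge characters
-/

set_option autoImplicit false

namespace Pool.Agent.SP

open Finset
open Pool.Agent.FS
open Pool.Agent.FSU (DatumX Al Kill Good zero_of_goodX exists_datumX)

/-- the primes which are large compared to the number of elements with order divisible by them -/
def Large {m : ℕ} (S : Multiset (ZMod m)) (r : ℕ) : Prop :=
  r.Prime ∧ 2 * cntp S r + 1 < r ∧
    (4 * cntp S r + 1 < r ∨ ¬ 3 ∣ m ∨ (¬ 4 ∣ m ∧ ∀ y ∈ S, ¬ 2 ∣ addOrderOf y))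

open Classical in
/-- the elements whose order is not divisible by a large prime -/
noncomputable def core {m : ℕ} (S : Multiset (ZMod m)) : Multiset (ZMod m) :=
  S.filter fun x => ∀ r, Large S r → ¬ r ∣ addOrderOf x

/-- the condition on the number of elements -/
def Sparse {m : ℕ} (P : Set (ℕ × ℕ)) (S : Multiset (ZMod m)) : Prop :=
  ∀ T : Finset ℕ, (∀ l ∈ T, l.Prime) → ¬ Al P T → ∀ p ∈ T, ∀ q ∈ T, p < q →
    cntW S T < hh p * hh q ∨ (p = 5 ∧ q = 7 ∧ T ≠ {5, 7} ∧ cntW S T < 10)

theorem FinS_hh {r : ℕ} (hr : r.Prime) (h : 7 < r) : 3 < hh r := by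
  unfold hh hb
  rw [if_neg (by omega), Nat.totient_prime hr]
  have h2 := hr.eq_two_or_odd
  have h3 : r ≠ 9 := by rintro rfl; exact absurd hr (by norm_num)
  omega

/-- The case of a datum. -/
theorem zeroS {m : ℕ} [NeZero m] {A : Type} [AddCommGroup A] {P : Set (ℕ × ℕ)} (D : DatumX P m A)
    (hm : 2 ∣ m) (S : Multiset (ZMod m)) (hc : Sparse P S)
    (hW : ∀ t, D.W t (S.map D.f).sum = 0) : (S.map D.f).sum = 0 := by
  classical
  obtain ⟨S', hreg, hf, hcnt⟩ := dbl (A := A) hm S
  have hf' := hf D.toDatum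
  have hW' : ∀ t, D.W t (S'.map D.f).sum = 0 := fun t => by rw [← hf']; exact hW t
  have hcS : ∀ T : Finset ℕ, (∀ l ∈ T, l.Prime) → ¬ Al P T → ∀ p ∈ T, ∀ q ∈ T, p < q →
      cntT S' T < hh p * hh q ∨ (p = 5 ∧ q = 7 ∧ cntT S' T < 10 ∧ ∃ r ∈ T, 3 < hh r) := by
    intro T hTp hT p hp q hq hpq
    rw [hcnt T hTp]
    rcases hc T hTp hT p hp q hq hpq with h | ⟨rfl, rfl, hT57, h⟩
    · exact Or.inl h
    · by_cases hr : ∃ r ∈ T, 7 < r
      · obtain ⟨r, hrT, hr⟩ := hr
        exact Or.inr ⟨rfl, rfl, h, r, hrT, FinS_hh (hTp r hrT) hr⟩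
      · push Not at hr
        obtain ⟨s, hs, hs5, hs7⟩ : ∃ s ∈ T, s ≠ 5 ∧ s ≠ 7 := by
          by_contra hcon
          push Not at hcon
          apply hT57
          ext s
          rw [mem_insert, mem_singleton]
          constructor
          · intro hs
            by_cases h5 : s = 5
            · exact Or.inl h5
            · exact Or.inr (hcon s hs h5)
          · rintro (rfl | rfl)
            · exact hp
            · exact hq
        have hs1 := hr s hs
        have hsp := hTp s hs
        have hs2 := hsp.two_le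
        have h23 : s = 2 ∨ s = 3 := by
          have h4 : s ≠ 4 := by rintro rfl; exact absurd hsp (by norm_num)
          have h6 : s ≠ 6 := by rintro rfl; exact absurd hsp (by norm_num)
          omega
        rcases hc T hTp hT s hs 7 hq (by omega) with h' | ⟨h', _⟩
        · left
          have e1 : hh 5 = 2 := by decide
          have e2 : hh 2 = 1 := by decide
          have e3 : hh 3 = 1 := by decide
          rcases h23 with rfl | rfl
          · rw [e2] at h'
            rw [e1]
            omega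
          · rw [e3] at h'
            rw [e1]
            omega
        · exact absurd h' hs5
  obtain ⟨S₁, h1, h2⟩ := chainS D.toDatum (Al P) (fun T hT l _ => hT.mono (erase_subset _ _)) S'
    hreg hcS hW'
  have h3 : (S'.map D.f).sum = (S₁.map D.f).sum := h2
  rw [hf', h3]
  refine zero_of_goodX D hm _ ?_ fun t => by rw [← h3]; exact hW' t
  refine AddSubgroup.multiset_sum_mem _ _ ?_
  intro a ha
  obtain ⟨x, hx, rfl⟩ := Multiset.mem_map.1 ha
  exact AddSubgroup.subset_closure
    ⟨x, ⟨addOrderOf x, Or.inl rfl, (h1 x hx).2.1, (h1 x hx).2.2⟩, rfl⟩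

theorem mainS (P : Set (ℕ × ℕ)) (m : ℕ) [NeZero m] (hm : Even m) (S : Multiset (ZMod m))
    (h0 : (0 : ZMod m) ∉ S) (heven : Even S.card) (hc : Sparse P (core S)) (hS : IsHodge S) :
    Pool.Agent.FSU.Gen P m S := by
  classical
  have hm0 : m ≠ 0 := NeZero.ne m
  obtain ⟨A, _, D, hD⟩ := exists_datumX P m hm
  refine hD S h0 heven ?_
  -- the weights
  have hW : ∀ t, D.W t (S.map D.f).sum = 0 := by
    intro t
    rw [map_multiset_sum, Multiset.map_map]
    have h1 : S.map (D.W t ∘ D.f) = S.map fun x => 2 * (((t : ZMod m) * x).val : ℤ) - m := by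
      refine Multiset.map_congr rfl fun x hx => ?_
      have hx0 : (t : ZMod m) * x ≠ 0 := by
        intro h
        have h2 := (t.isUnit.mul_right_eq_zero).1 h
        exact h0 (h2 ▸ hx)
      rw [Function.comp_apply, D.wf, sw, if_neg hx0]
    rw [h1]
    have h2 : ∀ (U : Multiset (ZMod m)),
        (U.map fun x => 2 * (((t : ZMod m) * x).val : ℤ) - m).sum =
          2 * (((U.map fun x => ((t : ZMod m) * x).val).sum : ℕ) : ℤ) - m * U.card := by
      intro U
      induction U using Multiset.induction_on with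
      | empty => simp
      | cons x U ih =>
        rw [Multiset.map_cons, Multiset.sum_cons, ih, Multiset.map_cons, Multiset.sum_cons,
          Multiset.card_cons]
        push_cast
        ring
    rw [h2]
    have h3 := hS t
    have h4 : (2 : ℤ) * (((S.map fun x => ((t : ZMod m) * x).val).sum : ℕ) : ℤ) =
        m * S.card := by exact_mod_cast h3
    rw [h4, sub_self]
  -- the large primes
  set s : Finset ℕ := m.primeFactors.filter fun r => Large S r ∧ 3 ≤ r with hs
  have hrem := RMain_remove D.toDatum hm S s (by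
    intro r hr
    rw [hs, mem_filter, Nat.mem_primeFactors] at hr
    obtain ⟨⟨hrp, hrm, _⟩, ⟨_, h1, h2⟩, h3⟩ := hr
    refine ⟨hrp, hrm, ?_, h3⟩
    rcases h2 with h2 | h2 | h2
    · exact Or.inl h2
    · exact Or.inr (Or.inl ⟨h2, h1⟩)
    · exact Or.inr (Or.inr ⟨h2, h1⟩)) hW
  have hcore : (S.filter fun x => ∀ r ∈ s, ¬ r ∣ addOrderOf x) = core S := by
    refine Multiset.filter_congr fun x hx => ⟨fun h r hr hrx => ?_, fun h r hr => ?_⟩
    · have hxm : addOrderOf x ∣ m := by
        have := addOrderOf_dvd_card (x := x)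
        rwa [ZMod.card] at this
      have hcp : 0 < cntp S r := Multiset.card_pos_iff_exists_mem.2
        ⟨x, Multiset.mem_filter.2 ⟨hx, hrx⟩⟩
      refine h r ?_ hrx
      rw [hs, mem_filter, Nat.mem_primeFactors]
      exact ⟨⟨hr.1, hrx.trans hxm, hm0⟩, hr, by have := hr.2.1; omega⟩
    · rw [hs, mem_filter] at hr
      exact h r hr.2.1
  rw [hcore] at hrem
  rw [hrem]
  exact zeroS D hm.two_dvd (core S) hc fun t => by rw [← hrem]; exact hW t

end Pool.Agent.SP
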