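import Pool.Agent.SP.Defs

/-!
# Algebra of cuts, slices and sums of invariant functions
-/

set_option autoImplicit false

namespace Pool.Agent.SP

open Finset

variable {ι : Type} {K R : ι → Type} {π : ∀ i, K i → R i}

/-! ### cuts -/

theorem cut_of_mem {l : ι} {T : Finset (R l)} {X : (∀ i, K i) → ℤ} {w : ∀ i, K i}
    (h : π l (w l) ∈ T) : cut π l T X w = X w := if_pos h

theorem cut_of_notMem {l : ι} {T : Finset (R l)} {X : (∀ i, K i) → ℤ} {w : ∀ i, K i}
    (h : π l (w l) ∉ T) : cut π l T X w = 0 := if_neg h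

theorem cut_zero (l : ι) (T : Finset (R l)) : cut π l T (0 : (∀ i, K i) → ℤ) = 0 := by
  funext w; unfold cut; split_ifs <;> rfl

theorem cut_add (l : ι) (T : Finset (R l)) (X Y : (∀ i, K i) → ℤ) :
    cut π l T (X + Y) = cut π l T X + cut π l T Y := by
  funext w; simp only [cut, Pi.add_apply]; split_ifs <;> simp

theorem cut_neg (l : ι) (T : Finset (R l)) (X : (∀ i, K i) → ℤ) :
    cut π l T (-X) = - cut π l T X := by
  funext w; simp only [cut, Pi.neg_apply]; split_ifs <;> simp

theorem cut_sub (l : ι) (T : Finset (R l)) (X Y : (∀ i, K i) → ℤ) :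
    cut π l T (X - Y) = cut π l T X - cut π l T Y := by
  rw [sub_eq_add_neg, cut_add, cut_neg, ← sub_eq_add_neg]

theorem cut_sum {α : Type*} (l : ι) (T : Finset (R l)) (s : Finset α)
    (X : α → (∀ i, K i) → ℤ) : cut π l T (∑ a ∈ s, X a) = ∑ a ∈ s, cut π l T (X a) := by
  classical
  induction s using Finset.induction_on with
  | empty => simp [cut_zero]
  | insert a s ha ih => rw [sum_insert ha, sum_insert ha, cut_add, ih]

theorem cut_comm (l l' : ι) (T : Finset (R l)) (T' : Finset (R l')) (X : (∀ i, K i) → ℤ) :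
    cut π l T (cut π l' T' X) = cut π l' T' (cut π l T X) := by
  funext w; simp only [cut]; split_ifs <;> rfl

theorem cut_of_subset {l : ι} {T T' : Finset (R l)} (h : T ⊆ T') (X : (∀ i, K i) → ℤ) :
    cut π l T (cut π l T' X) = cut π l T X := by
  funext w
  by_cases h1 : π l (w l) ∈ T
  · rw [cut_of_mem h1, cut_of_mem h1, cut_of_mem (h h1)]
  · rw [cut_of_notMem h1, cut_of_notMem h1]

theorem cut_of_disjoint {l : ι} {T T' : Finset (R l)} (h : Disjoint T T')
    (X : (∀ i, K i) → ℤ) : cut π l T (cut π l T' X) = 0 := by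
  funext w
  by_cases h1 : π l (w l) ∈ T
  · rw [cut_of_mem h1, cut_of_notMem (disjoint_left.1 h h1)]; rfl
  · rw [cut_of_notMem h1]; rfl

theorem sum_cut (l : ι) (T : Finset (R l)) (X : (∀ i, K i) → ℤ) :
    ∑ ρ ∈ T, cut π l {ρ} X = cut π l T X := by
  classical
  funext w
  rw [Finset.sum_apply]
  simp only [cut, mem_singleton]
  rw [Finset.sum_ite_eq]

theorem cut_univ [∀ i, Fintype (R i)] (l : ι) (X : (∀ i, K i) → ℤ) : cut π l univ X = X := by
  funext w; exact cut_of_mem (mem_univ _)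

theorem sum_cut_univ [∀ i, Fintype (R i)] (l : ι) (X : (∀ i, K i) → ℤ) :
    ∑ ρ, cut π l {ρ} X = X := by
  rw [sum_cut, cut_univ]

theorem cut_add_compl [∀ i, Fintype (R i)] [∀ i, DecidableEq (R i)] (l : ι) (T : Finset (R l))
    (X : (∀ i, K i) → ℤ) : cut π l T X + cut π l Tᶜ X = X := by
  funext w
  rw [Pi.add_apply]
  by_cases h1 : π l (w l) ∈ T
  · rw [cut_of_mem h1, cut_of_notMem (by rw [mem_compl]; exact fun h => h h1), add_zero]
  · rw [cut_of_notMem h1, cut_of_mem (mem_compl.2 h1), zero_add]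

/-! ### slices -/

theorem up_add (l : ι) (a : K l) (X Y : (∀ i, K i) → ℤ) : up l a (X + Y) = up l a X + up l a Y := rfl

theorem up_sub (l : ι) (a : K l) (X Y : (∀ i, K i) → ℤ) : up l a (X - Y) = up l a X - up l a Y := rfl

theorem up_neg (l : ι) (a : K l) (X : (∀ i, K i) → ℤ) : up l a (-X) = - up l a X := rfl

theorem up_sum {α : Type*} (l : ι) (a : K l) (s : Finset α) (X : α → (∀ i, K i) → ℤ) :
    up l a (∑ b ∈ s, X b) = ∑ b ∈ s, up l a (X b) := by
  funext w; simp only [up, Finset.sum_apply]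

theorem Inv_up (l : ι) (a : K l) (X : (∀ i, K i) → ℤ) : Inv l (up l a X) := by
  classical
  intro w b
  simp only [up, Function.update_idem]

/-! ### invariant functions -/

theorem Inv.up_eq {l : ι} {X : (∀ i, K i) → ℤ} (h : Inv l X) (a : K l) : up l a X = X := by
  funext w; exact h w a

theorem Inv_zero (l : ι) : Inv l (0 : (∀ i, K i) → ℤ) := fun _ _ => rfl

theorem Inv.add {l : ι} {X Y : (∀ i, K i) → ℤ} (hX : Inv l X) (hY : Inv l Y) : Inv l (X + Y) :=
  fun w a => by rw [Pi.add_apply, Pi.add_apply, hX, hY]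

theorem Inv.neg {l : ι} {X : (∀ i, K i) → ℤ} (hX : Inv l X) : Inv l (-X) :=
  fun w a => by rw [Pi.neg_apply, Pi.neg_apply, hX]

theorem Inv.sub {l : ι} {X Y : (∀ i, K i) → ℤ} (hX : Inv l X) (hY : Inv l Y) : Inv l (X - Y) :=
  fun w a => by rw [Pi.sub_apply, Pi.sub_apply, hX, hY]

theorem Inv_sum {α : Type*} {l : ι} (s : Finset α) {X : α → (∀ i, K i) → ℤ}
    (hX : ∀ a ∈ s, Inv l (X a)) : Inv l (∑ a ∈ s, X a) := by
  intro w b
  rw [Finset.sum_apply, Finset.sum_apply]
  exact sum_congr rfl fun a ha => hX a ha w b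

theorem Inv.cut {l l' : ι} (hne : l ≠ l') {X : (∀ i, K i) → ℤ} (hX : Inv l X)
    (T : Finset (R l')) : Inv l (cut π l' T X) := by
  classical
  intro w a
  have h : Function.update w l a l' = w l' := Function.update_of_ne hne.symm _ _
  simp only [SP.cut]
  have h2 : (Function.update w l a) = (fun i => Function.update w l a i) := rfl
  rw [hX w a]
  by_cases h1 : π l' (w l') ∈ T
  · rw [if_pos h1, if_pos (by rw [h]; exact h1)]
  · rw [if_neg h1, if_neg (by rw [h]; exact h1)]

theorem Inv.up {l l' : ι} {X : (∀ i, K i) → ℤ} (hX : Inv l X) (a : K l') :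
    Inv l (up l' a X) := by
  classical
  by_cases hne : l = l'
  · subst hne; exact Inv_up l a X
  · intro w b
    simp only [SP.up]
    rw [Function.update_comm hne, hX]

theorem Inv.sg {c : ∀ i, K i → K i} {l : ι} {X : (∀ i, K i) → ℤ} (hX : Inv l X) :
    Inv l (sg c X) := by
  classical
  intro w a
  simp only [SP.sg]
  have h : (fun i => c i (Function.update w l a i)) =
      Function.update (fun i => c i (w i)) l (c l a) := by
    funext i
    by_cases hi : i = l
    · subst hi; simp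
    · rw [Function.update_of_ne hi, Function.update_of_ne hi]
  rw [h, hX]

/-! ### sums of invariant functions -/

theorem IS_zero (L : Finset ι) : IS L (0 : (∀ i, K i) → ℤ) :=
  ⟨fun _ => 0, fun l _ => Inv_zero l, by simp⟩

theorem IS.add {L : Finset ι} {X Y : (∀ i, K i) → ℤ} (hX : IS L X) (hY : IS L Y) :
    IS L (X + Y) := by
  obtain ⟨F, hF, rfl⟩ := hX
  obtain ⟨G, hG, rfl⟩ := hY
  exact ⟨fun l => F l + G l, fun l hl => (hF l hl).add (hG l hl), by rw [sum_add_distrib]⟩

theorem IS.neg {L : Finset ι} {X : (∀ i, K i) → ℤ} (hX : IS L X) : IS L (-X) := by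
  obtain ⟨F, hF, rfl⟩ := hX
  exact ⟨fun l => - F l, fun l hl => (hF l hl).neg, by rw [sum_neg_distrib]⟩

theorem IS.sub {L : Finset ι} {X Y : (∀ i, K i) → ℤ} (hX : IS L X) (hY : IS L Y) :
    IS L (X - Y) := by
  rw [sub_eq_add_neg]; exact hX.add hY.neg

theorem IS_of_Inv {L : Finset ι} {l : ι} (hl : l ∈ L) {X : (∀ i, K i) → ℤ} (hX : Inv l X) :
    IS L X := by
  classical
  refine ⟨fun l' => if l' = l then X else 0, fun l' _ => ?_, ?_⟩
  · beta_reduce
    split_ifs with h
    · rw [h]; exact hX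
    · exact Inv_zero l'
  · rw [Finset.sum_ite_eq' L l fun _ => X, if_pos hl]

theorem IS.mono {L L' : Finset ι} (h : L ⊆ L') {X : (∀ i, K i) → ℤ} (hX : IS L X) :
    IS L' X := by
  classical
  obtain ⟨F, hF, rfl⟩ := hX
  refine ⟨fun l => if l ∈ L then F l else 0, fun l _ => ?_, ?_⟩
  · beta_reduce
    split_ifs with h
    · exact hF l h
    · exact Inv_zero l
  · rw [Finset.sum_ite_mem, inter_eq_right.2 h]

theorem IS.cut {L : Finset ι} {l : ι} (hl : l ∉ L) {X : (∀ i, K i) → ℤ} (hX : IS L X)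
    (T : Finset (R l)) : IS L (cut π l T X) := by
  obtain ⟨F, hF, rfl⟩ := hX
  refine ⟨fun l' => SP.cut π l T (F l'), fun l' hl' => (hF l' hl').cut ?_ T, cut_sum l T L F⟩
  rintro rfl
  exact hl hl'

/-- the difference with a slice -/
theorem IS.sub_up [DecidableEq ι] {L : Finset ι} {X : (∀ i, K i) → ℤ} (hX : IS L X) (l : ι)
    (a : K l) : IS (L.erase l) (X - up l a X) := by
  obtain ⟨F, hF, rfl⟩ := hX
  refine ⟨fun l' => F l' - up l a (F l'), fun l' hl' => ?_, ?_⟩
  · have h := hF l' (mem_of_mem_erase hl')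
    exact h.sub (h.up a)
  · rw [up_sum, ← sum_sub_distrib]
    by_cases hl : l ∈ L
    · rw [← Finset.sum_erase_add _ _ hl, (hF l hl).up_eq, sub_self, add_zero]
    · rw [Finset.erase_eq_of_notMem hl]

/-! ### the involution -/

theorem sg_add (c : ∀ i, K i → K i) (X Y : (∀ i, K i) → ℤ) : sg c (X + Y) = sg c X + sg c Y := rfl

theorem sg_sub (c : ∀ i, K i → K i) (X Y : (∀ i, K i) → ℤ) : sg c (X - Y) = sg c X - sg c Y := rfl

theorem sg_neg (c : ∀ i, K i → K i) (X : (∀ i, K i) → ℤ) : sg c (-X) = - sg c X := rfl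

theorem sg_sg {c : ∀ i, K i → K i} (hc : ∀ i a, c i (c i a) = a) (X : (∀ i, K i) → ℤ) :
    sg c (sg c X) = X := by
  funext w; simp only [sg, hc]

/-- cuts and the involution -/
theorem sg_cut {c : ∀ i, K i → K i} {cR : ∀ i, R i → R i} (hcR : ∀ i a, π i (c i a) = cR i (π i a))
    {l : ι} {T T' : Finset (R l)} (hT : ∀ ρ, cR l ρ ∈ T ↔ ρ ∈ T') (X : (∀ i, K i) → ℤ) :
    sg c (cut π l T X) = cut π l T' (sg c X) := by
  funext w
  by_cases h : π l (w l) ∈ T'
  · rw [cut_of_mem h]
    change cut π l T X (fun i => c i (w i)) = _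
    rw [cut_of_mem (by rw [hcR]; exact (hT _).2 h)]
    rfl
  · rw [cut_of_notMem h]
    change cut π l T X (fun i => c i (w i)) = _
    rw [cut_of_notMem (by rw [hcR]; exact fun h' => h ((hT _).1 h'))]

/-- slices and the involution -/
theorem sg_up {c : ∀ i, K i → K i} {l : ι} (a : K l) (hc : c l (c l a) = a)
    (X : (∀ i, K i) → ℤ) : sg c (up l a X) = up l (c l a) (sg c X) := by
  classical
  funext w
  simp only [sg, up]
  congr 1
  funext i
  by_cases hi : i = l
  · subst hi; simp [hc]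
  · simp [Function.update_of_ne hi]

end Pool.Agent.SP
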