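import Pool.Agent.SP.ArDefs

/-!
The coordinates of the units modulo `nn m Q` (definitions in ArDefs.lean; `hb l = 4` for `l = 2`
and `hb l = l` otherwise; `qq m l = ordProj[l] m`; `rr k = (k : ZMod n).val`).
-/

set_option autoImplicit false

namespace Pool.Agent.SP

open Finset
open Pool.Agent.FS

variable {m : ℕ} {Q : Finset ℕ}

theorem rr_co (w : (ZMod (nn m Q))ˣ) (i : Q) : rr (co m Q w i) ≡ rr w [MOD qq m i] := by
  rw [← ZMod.natCast_eq_natCast_iff, rr, rr, ZMod.natCast_zmod_val]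
  change (ZMod.castHom (qq_dvd_nn m i) (ZMod (qq m i))) (w : ZMod (nn m Q)) = _
  rw [ZMod.castHom_apply, ZMod.natCast_val]

private theorem ArA2_cop {l l' : ℕ} (hl : l.Prime) (hl' : l'.Prime) (h : l ≠ l') :
    (qq m l).Coprime (qq m l') :=
  Nat.Coprime.pow _ _ ((Nat.coprime_primes hl hl').2 h)

private theorem ArA2_modEq_prod (s : Finset ℕ) (hs : ∀ l ∈ s, l.Prime) {x y : ℕ}
    (h : ∀ l ∈ s, x ≡ y [MOD qq m l]) : x ≡ y [MOD ∏ l ∈ s, qq m l] := by
  induction s using Finset.induction_on with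
  | empty =>
    rw [Finset.prod_empty]
    exact Nat.modEq_one
  | insert l s hl ih =>
    rw [Finset.prod_insert hl]
    have hcop : (qq m l).Coprime (∏ l' ∈ s, qq m l') := by
      refine Nat.Coprime.prod_right ?_
      intro l' hl'
      refine ArA2_cop (hs l (Finset.mem_insert_self l s)) (hs l' (Finset.mem_insert_of_mem hl')) ?_
      intro he
      exact hl (he ▸ hl')
    exact (Nat.modEq_and_modEq_iff_modEq_mul hcop).1 ⟨h l (Finset.mem_insert_self l s),
      ih (fun l' hl' => hs l' (Finset.mem_insert_of_mem hl'))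
        (fun l' hl' => h l' (Finset.mem_insert_of_mem hl'))⟩

private theorem ArA2_totient_prod (s : Finset ℕ) (hs : ∀ l ∈ s, l.Prime) :
    (∏ l ∈ s, qq m l).totient = ∏ l ∈ s, (qq m l).totient := by
  induction s using Finset.induction_on with
  | empty => rw [Finset.prod_empty, Finset.prod_empty, Nat.totient_one]
  | insert l s hl ih =>
    have hcop : (qq m l).Coprime (∏ l' ∈ s, qq m l') := by
      refine Nat.Coprime.prod_right ?_
      intro l' hl'
      refine ArA2_cop (hs l (Finset.mem_insert_self l s)) (hs l' (Finset.mem_insert_of_mem hl')) ?_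
      intro he
      exact hl (he ▸ hl')
    rw [Finset.prod_insert hl, Finset.prod_insert hl, Nat.totient_mul hcop,
      ih (fun l' hl' => hs l' (Finset.mem_insert_of_mem hl'))]

private theorem ArA2_card (n : ℕ) [NeZero n] : Nat.card (ZMod n)ˣ = n.totient := by
  rw [Nat.card_eq_fintype_card, ZMod.card_units_eq_totient]

theorem co_bij (hp : ∀ l ∈ Q, l.Prime) : Function.Bijective (co m Q) := by
  have hinj : Function.Injective (co m Q) := by
    intro w w' h
    refine rr_inj ?_
    refine ArA2_modEq_prod Q hp ?_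
    intro l hl
    have h1 := rr_co w (⟨l, hl⟩ : Q)
    have h2 := rr_co w' (⟨l, hl⟩ : Q)
    rw [h] at h1
    exact h1.symm.trans h2
  refine hinj.bijective_of_nat_card_le ?_
  rw [Nat.card_pi, ArA2_card]
  have h1 : ∀ i : Q, Nat.card (KK m Q i) = (qq m i).totient := fun i => ArA2_card (qq m i)
  rw [Finset.prod_congr rfl (fun i _ => h1 i)]
  have h2 : ∏ i : Q, (qq m i).totient = ∏ l ∈ Q, (qq m l).totient :=
    Finset.prod_coe_sort Q (fun l => (qq m l).totient)
  rw [h2, ← ArA2_totient_prod Q hp]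
  exact le_rfl

theorem co_neg (w : (ZMod (nn m Q))ˣ) : co m Q (-1 * w) = fun i => ng m Q i (co m Q w i) := by
  funext i
  apply Units.ext
  change (ZMod.castHom (qq_dvd_nn m i) (ZMod (qq m i))) ((-1 * w : (ZMod (nn m Q))ˣ) : ZMod (nn m Q)) =
    -((ZMod.castHom (qq_dvd_nn m i) (ZMod (qq m i))) (w : ZMod (nn m Q)))
  rw [Units.val_mul, Units.val_neg, Units.val_one, map_mul, map_neg, map_one, neg_one_mul]

private theorem ArA2_mem {l : ℕ} (hp : ∀ l ∈ Q, l.Prime) (hl : l.Prime) (h : l ∣ nn m Q) :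
    l ∈ Q := by
  rw [nn, Prime.dvd_finsetProd_iff hl.prime] at h
  obtain ⟨l', hl', h2⟩ := h
  have h3 : l ∣ l' := hl.dvd_of_dvd_pow h2
  have h4 := (Nat.prime_dvd_prime_iff_eq hl (hp l' hl')).1 h3
  rw [h4]
  exact hl'

theorem nn_uni [NeZero m] (hp : ∀ l ∈ Q, l.Prime) :
    nn m Q ∣ m ∧ (nn m Q).Coprime (m / nn m Q) := by
  have h1 : nn m Q ∣ m := prod_qq_dvd _ hp
  refine ⟨h1, unitary h1 fun l hl h => ?_⟩
  exact Finset.dvd_prod_of_mem (fun l => qq m l) (ArA2_mem hp hl h)

/-- the prime factors of `nn m Q` -/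
theorem prime_dvd_nn (hp : ∀ l ∈ Q, l.Prime) (hQ : ∀ l ∈ Q, hb l ∣ qq m l) {l : ℕ}
    (hl : l.Prime) : l ∣ nn m Q ↔ l ∈ Q := by
  constructor
  · exact ArA2_mem hp hl
  · intro h
    have h1 : l ∣ hb l := by
      unfold hb
      split_ifs with h2
      · rw [h2]
        norm_num
      · exact dvd_rfl
    exact (h1.trans (hQ l h)).trans (Finset.dvd_prod_of_mem (fun l => qq m l) h)

end Pool.Agent.SP
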