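import Pool.Agent.SP.Box
import Pool.Agent.FS.RMain

/-!
# Coordinates of the units modulo a unitary divisor: definitions
-/

set_option autoImplicit false

namespace Pool.Agent.SP

open Finset
open Pool.Agent.FS

instance instNeZeroQQ (m l : ℕ) : NeZero (qq m l) := ⟨(Nat.ordProj_pos m l).ne'⟩

/-- the product of the `l`-parts of `m`, `l ∈ Q` -/
def nn (m : ℕ) (Q : Finset ℕ) : ℕ := ∏ l ∈ Q, qq m l

instance instNeZeroNN (m : ℕ) (Q : Finset ℕ) : NeZero (nn m Q) :=
  ⟨Finset.prod_ne_zero_iff.2 fun l _ => NeZero.ne (qq m l)⟩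

theorem qq_dvd_nn (m : ℕ) {Q : Finset ℕ} (i : Q) : qq m i ∣ nn m Q :=
  Finset.dvd_prod_of_mem (fun l => qq m l) i.2

/-- the coordinate groups -/
abbrev KK (m : ℕ) (Q : Finset ℕ) (i : Q) : Type := (ZMod (qq m i))ˣ

/-- the sets of classes -/
def RR (Q : Finset ℕ) (i : Q) : Type := (ZMod (hb i))ˣ

instance instFiniteUnits (k : ℕ) : Finite (ZMod k)ˣ := by
  rcases k with _ | k
  · change Finite ℤˣ
    infer_instance
  · infer_instance

noncomputable instance instFintypeRR (Q : Finset ℕ) (i : Q) : Fintype (RR Q i) := by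
  haveI : Finite (RR Q i) := instFiniteUnits (hb i)
  exact Fintype.ofFinite _

/-- half of the number of classes -/
def hh (l : ℕ) : ℕ := (hb l).totient / 2

/-- the class of a coordinate -/
def pr {m : ℕ} {Q : Finset ℕ} (hQ : ∀ l ∈ Q, hb l ∣ qq m l) (i : Q) (a : KK m Q i) : RR Q i :=
  ZMod.unitsMap (hQ i i.2) a

/-- the involution on the coordinates -/
def ng (m : ℕ) (Q : Finset ℕ) (i : Q) (a : KK m Q i) : KK m Q i := -a

/-- the involution on the classes -/
def ngR (Q : Finset ℕ) (i : Q) (ρ : RR Q i) : RR Q i := -(show (ZMod (hb i))ˣ from ρ)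

/-- the coordinates of a unit -/
def co (m : ℕ) (Q : Finset ℕ) : (ZMod (nn m Q))ˣ →* ∀ i : Q, KK m Q i :=
  MonoidHom.mk' (fun w i => ZMod.unitsMap (qq_dvd_nn m i) w) fun a b => by
    funext i
    rw [Pi.mul_apply, map_mul]

/-- the sides: the residue classes modulo the divisors of `qq m i` which are multiples of `hb i` -/
def BB (m : ℕ) (Q : Finset ℕ) (i : Q) : Set (Set (KK m Q i)) :=
  {B | ∃ d : ℕ, hb i ∣ d ∧ d ∣ qq m i ∧ ∃ a : KK m Q i, B = {b | rr b ≡ rr a [MOD d]}}

/-- elements of odd order or of order divisible by four -/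
def Reg {m : ℕ} (x : ZMod m) : Prop := ¬ 2 ∣ addOrderOf x ∨ 4 ∣ addOrderOf x

/-- the sum over the units given by a function of the coordinates -/
noncomputable def SS {m : ℕ} [NeZero m] {A : Type} [AddCommGroup A] (D : Datum m A)
    (Q : Finset ℕ) (X : (∀ i : Q, KK m Q i) → ℤ) : A :=
  ∑ w : (ZMod (nn m Q))ˣ, X (co m Q w) • D.f (emb m (nn m Q) w)

/-- the number of elements of `S` whose order is divisible by all primes of `T` -/
noncomputable def cntT {m : ℕ} (S : Multiset (ZMod m)) (T : Finset ℕ) : ℕ := by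
  classical exact (S.filter fun x => T ⊆ (addOrderOf x).primeFactors).card

end Pool.Agent.SP
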