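import Pool.Agent.SP.NrmL

/-!
# Boxes: definitions
-/

set_option autoImplicit false

namespace Pool.Agent.SP

open Finset

section

variable {ι : Type} {K : ι → Type}

open Classical in
/-- the characteristic function of a box -/
noncomputable def ind (B : ∀ i, Set (K i)) : (∀ i, K i) → ℤ :=
  fun w => if ∀ i, w i ∈ B i then 1 else 0

/-- the sum of a list of boxes with signs -/
noncomputable def bsum (ls : List ((∀ i, Set (K i)) × ℤ)) : (∀ i, K i) → ℤ :=
  (ls.map fun b => b.2 • ind b.1).sum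

/-- lists of signed boxes with sides in the system `𝓑` -/
def IsBL (𝓑 : ∀ i, Set (Set (K i))) (ls : List ((∀ i, Set (K i)) × ℤ)) : Prop :=
  ∀ b ∈ ls, (∀ i, b.1 i ∈ 𝓑 i) ∧ (b.2 = 1 ∨ b.2 = -1)

/-- the minimal number of signed boxes -/
noncomputable def bnorm (𝓑 : ∀ i, Set (Set (K i))) (X : (∀ i, K i) → ℤ) : ℕ :=
  sInf {n | ∃ ls, IsBL 𝓑 ls ∧ X = bsum ls ∧ ls.length = n}

end

/-- The properties of the system of sides: singletons are sides, every side is contained in a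
class, the classes are sides, the involution maps sides to sides. -/
structure Sides {ι : Type} {K R : ι → Type} (π : ∀ i, K i → R i) (c : ∀ i, K i → K i)
    (𝓑 : ∀ i, Set (Set (K i))) : Prop where
  single : ∀ i (a : K i), {a} ∈ 𝓑 i
  sub : ∀ i, ∀ B ∈ 𝓑 i, ∃ ρ : R i, ∀ a ∈ B, π i a = ρ
  cls : ∀ i (ρ : R i), {a | π i a = ρ} ∈ 𝓑 i
  inv : ∀ i, ∀ B ∈ 𝓑 i, {a | c i a ∈ B} ∈ 𝓑 i

end Pool.Agent.SP
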