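import Pool.Agent.SP.Box

/-!
Elementary facts on sums of signed boxes (only Mathlib is needed).

Plan.
* `bsum_append`, `bsum_neg`: `List.map_append`, `List.sum_append`; induction on the list.
* `exists_rep`: `ι` and all `K i` are finite, so `∀ i, K i` is a finite type; every `X` is the sum over
  all points `w` of `X w • ind {w}` where `ind (fun i => {w i}) = Pi.single w 1`. Take, e.g., the set of
  all `X` which have a representation: it contains `0` (empty list), is closed under addition (append) and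
  negation (`bsum_neg`), and contains all `Pi.single w 1`; then induct on the finite sum.
* `bnorm_spec`: `Nat.sInf_mem` for the nonempty set in the definition of `bnorm`.
* `bnorm_le`: `Nat.sInf_le`.
* the remaining three are consequences of `bnorm_spec` and `bnorm_le` (append / negate the lists).
-/

set_option autoImplicit false

namespace Pool.Agent.SP

open Finset

variable {ι : Type} {K : ι → Type} {𝓑 : ∀ i, Set (Set (K i))}

theorem bsum_append (ls ls' : List ((∀ i, Set (K i)) × ℤ)) :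
    bsum (ls ++ ls') = bsum ls + bsum ls' := by
  unfold bsum
  rw [List.map_append, List.sum_append]

theorem bsum_neg (ls : List ((∀ i, Set (K i)) × ℤ)) :
    bsum (ls.map fun b => (b.1, -b.2)) = - bsum ls := by
  induction ls with
  | nil => simp [bsum]
  | cons a l ih =>
    have h1 : bsum (a :: l) = a.2 • ind a.1 + bsum l := by simp [bsum]
    have h2 : bsum ((a :: l).map fun b => (b.1, -b.2)) =
        (-a.2) • ind a.1 + bsum (l.map fun b => (b.1, -b.2)) := by simp [bsum]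
    rw [h1, h2, ih, neg_smul, neg_add]

theorem boxA_IsBL_append {l1 l2 : List ((∀ i, Set (K i)) × ℤ)} (h1 : IsBL 𝓑 l1)
    (h2 : IsBL 𝓑 l2) : IsBL 𝓑 (l1 ++ l2) := by
  intro b hb
  rcases List.mem_append.mp hb with h | h
  · exact h1 b h
  · exact h2 b h

theorem boxA_IsBL_neg {l1 : List ((∀ i, Set (K i)) × ℤ)} (h1 : IsBL 𝓑 l1) :
    IsBL 𝓑 (l1.map fun b => (b.1, -b.2)) := by
  intro b hb
  obtain ⟨a, ha, rfl⟩ := List.mem_map.mp hb
  obtain ⟨h2, h3⟩ := h1 a ha
  refine ⟨h2, ?_⟩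
  rcases h3 with h | h
  · exact Or.inr (by simp [h])
  · exact Or.inl (by simp [h])

theorem exists_rep [Finite ι] [∀ i, Finite (K i)] (h1 : ∀ i (a : K i), {a} ∈ 𝓑 i)
    (X : (∀ i, K i) → ℤ) : ∃ ls, IsBL 𝓑 ls ∧ X = bsum ls := by
  classical
  haveI : Fintype (∀ i, K i) := Fintype.ofFinite _
  let S : AddSubgroup ((∀ i, K i) → ℤ) :=
    { carrier := {X | ∃ ls, IsBL 𝓑 ls ∧ X = bsum ls}
      zero_mem' := ⟨[], by simp [IsBL], by simp [bsum]⟩
      add_mem' := by
        rintro a b ⟨l1, h1, rfl⟩ ⟨l2, h2, rfl⟩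
        exact ⟨l1 ++ l2, boxA_IsBL_append h1 h2, (bsum_append l1 l2).symm⟩
      neg_mem' := by
        rintro a ⟨l1, h1, rfl⟩
        exact ⟨l1.map fun b => (b.1, -b.2), boxA_IsBL_neg h1, (bsum_neg l1).symm⟩ }
  have hsingle : ∀ w : (∀ i, K i), (Pi.single w 1 : (∀ i, K i) → ℤ) ∈ S := by
    intro w
    refine ⟨[((fun i => {w i}), 1)], ?_, ?_⟩
    · intro b hb
      rw [List.mem_singleton] at hb
      subst hb
      exact ⟨fun i => h1 i (w i), Or.inl rfl⟩
    · funext v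
      simp only [bsum, List.map_cons, List.map_nil, List.sum_cons, List.sum_nil, add_zero,
        one_smul, ind, Set.mem_singleton_iff, Pi.single_apply]
      by_cases hv : v = w
      · subst hv
        simp
      · rw [if_neg hv, if_neg]
        intro h
        exact hv (funext h)
  have hX : X = ∑ w : (∀ i, K i), X w • (Pi.single w 1 : (∀ i, K i) → ℤ) := by
    funext v
    simp [Finset.sum_apply, Pi.single_apply]
  have hmem : X ∈ S := by
    rw [hX]
    exact S.sum_mem (fun w _ => S.zsmul_mem (hsingle w) _)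
  exact hmem

theorem bnorm_spec [Finite ι] [∀ i, Finite (K i)] (h1 : ∀ i (a : K i), {a} ∈ 𝓑 i)
    (X : (∀ i, K i) → ℤ) : ∃ ls, IsBL 𝓑 ls ∧ X = bsum ls ∧ ls.length = bnorm 𝓑 X := by
  have hne : {n | ∃ ls, IsBL 𝓑 ls ∧ X = bsum ls ∧ ls.length = n}.Nonempty := by
    obtain ⟨ls, h, e⟩ := exists_rep h1 X
    exact ⟨ls.length, ls, h, e, rfl⟩
  exact Nat.sInf_mem hne

theorem bnorm_le (ls : List ((∀ i, Set (K i)) × ℤ)) (h : IsBL 𝓑 ls) :
    bnorm 𝓑 (bsum ls) ≤ ls.length := by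
  exact Nat.sInf_le ⟨ls, h, rfl, rfl⟩

theorem bnorm_zero : bnorm 𝓑 (0 : (∀ i, K i) → ℤ) = 0 := by
  have h := bnorm_le (𝓑 := 𝓑) [] (by simp [IsBL])
  have e : bsum ([] : List ((∀ i, Set (K i)) × ℤ)) = 0 := by simp [bsum]
  rw [e] at h
  simpa using h

theorem bnorm_eq_zero [Finite ι] [∀ i, Finite (K i)] (h1 : ∀ i (a : K i), {a} ∈ 𝓑 i)
    (X : (∀ i, K i) → ℤ) (h : bnorm 𝓑 X = 0) : X = 0 := by
  obtain ⟨ls, h2, h3, h4⟩ := bnorm_spec h1 X
  rw [h] at h4
  have h5 : ls = [] := List.eq_nil_of_length_eq_zero h4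
  subst h5
  rw [h3]
  simp [bsum]

theorem bnorm_neg [Finite ι] [∀ i, Finite (K i)] (h1 : ∀ i (a : K i), {a} ∈ 𝓑 i)
    (X : (∀ i, K i) → ℤ) : bnorm 𝓑 (-X) ≤ bnorm 𝓑 X := by
  obtain ⟨ls, h2, h3, h4⟩ := bnorm_spec h1 X
  have h5 := bnorm_le (𝓑 := 𝓑) (ls.map fun b => (b.1, -b.2)) (boxA_IsBL_neg h2)
  rw [bsum_neg, ← h3, List.length_map, h4] at h5
  exact h5

theorem bnorm_add [Finite ι] [∀ i, Finite (K i)] (h1 : ∀ i (a : K i), {a} ∈ 𝓑 i)
    (X Y : (∀ i, K i) → ℤ) : bnorm 𝓑 (X + Y) ≤ bnorm 𝓑 X + bnorm 𝓑 Y := by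
  obtain ⟨ls, h2, h3, h4⟩ := bnorm_spec h1 X
  obtain ⟨ls', h2', h3', h4'⟩ := bnorm_spec h1 Y
  have h5 := bnorm_le (𝓑 := 𝓑) (ls ++ ls') (boxA_IsBL_append h2 h2')
  rw [bsum_append, ← h3, ← h3', List.length_append, h4, h4'] at h5
  exact h5

end Pool.Agent.SP
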