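import Pool.Agent.SP.BoxA

/-!
# The norm of signed boxes is the sum of the norms of the cuts
-/

set_option autoImplicit false

namespace Pool.Agent.SP

open Finset

variable {ι : Type} {K R : ι → Type} {π : ∀ i, K i → R i} {c : ∀ i, K i → K i}
  [∀ i, Fintype (R i)] {𝓑 : ∀ i, Set (Set (K i))}

private theorem boxB_sum_le [Finite ι] [∀ i, Finite (K i)] (h1 : ∀ i (a : K i), {a} ∈ 𝓑 i)
    {α : Type*} (s : Finset α) (Y : α → (∀ i, K i) → ℤ) :
    bnorm 𝓑 (∑ a ∈ s, Y a) ≤ ∑ a ∈ s, bnorm 𝓑 (Y a) := by
  classical
  induction s using Finset.induction_on with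
  | empty => rw [sum_empty, sum_empty, bnorm_zero]
  | insert a s ha ih =>
    rw [sum_insert ha, sum_insert ha]
    exact (bnorm_add h1 _ _).trans (Nat.add_le_add_left ih _)

open Classical in
private theorem boxB_len {β γ : Type*} [Fintype γ] (cl : β → γ) (ls : List β) :
    ∑ ρ : γ, (ls.filter (fun b => decide (cl b = ρ))).length = ls.length := by
  induction ls with
  | nil => simp
  | cons b ls ih =>
    have h : ∀ ρ : γ, ((b :: ls).filter (fun b => decide (cl b = ρ))).length =
        (if cl b = ρ then 1 else 0) + (ls.filter (fun b => decide (cl b = ρ))).length := by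
      intro ρ
      rw [List.filter_cons]
      by_cases hb : cl b = ρ
      · rw [if_pos (by simpa using hb), if_pos hb, List.length_cons, Nat.add_comm]
      · rw [if_neg (by simpa using hb), if_neg hb, Nat.zero_add]
    rw [sum_congr rfl (fun ρ _ => h ρ), sum_add_distrib, ih, sum_ite_eq, if_pos (mem_univ _),
      List.length_cons, Nat.add_comm]

private theorem boxB_cut_add (l : ι) (T : Finset (R l)) (X Y : (∀ i, K i) → ℤ) :
    cut π l T (X + Y) = cut π l T X + cut π l T Y := by
  funext w; simp only [cut, Pi.add_apply]; split_ifs <;> simp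

open Classical in
private theorem boxB_cut (l : ι) (ρ : R l) (cl : ((∀ i, Set (K i)) × ℤ) → R l)
    (ls : List ((∀ i, Set (K i)) × ℤ)) (h : ∀ b ∈ ls, ∀ a ∈ b.1 l, π l a = cl b) :
    cut π l {ρ} (bsum ls) = bsum (ls.filter (fun b => decide (cl b = ρ))) := by
  induction ls with
  | nil =>
    funext w
    simp [bsum, cut]
  | cons b ls ih =>
    have ih' := ih (fun b' hb' => h b' (List.mem_cons_of_mem _ hb'))
    have e1 : bsum (b :: ls) = b.2 • ind b.1 + bsum ls := by
      unfold bsum
      rw [List.map_cons, List.sum_cons]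
    rw [e1, boxB_cut_add, ih', List.filter_cons]
    have hb := h b List.mem_cons_self
    by_cases hc : cl b = ρ
    · rw [if_pos (by simpa using hc)]
      have e2 : bsum (b :: ls.filter (fun b => decide (cl b = ρ))) =
          b.2 • ind b.1 + bsum (ls.filter (fun b => decide (cl b = ρ))) := by
        unfold bsum
        rw [List.map_cons, List.sum_cons]
      rw [e2]
      refine congrArg (fun t => t + bsum (ls.filter (fun b => decide (cl b = ρ)))) ?_
      funext w
      unfold cut
      split_ifs with hw
      · rfl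
      · have hnot : ¬ ∀ i, w i ∈ b.1 i := by
          intro hall
          apply hw
          rw [mem_singleton, hb (w l) (hall l), hc]
        simp only [Pi.smul_apply, ind, if_neg hnot, smul_zero]
    · rw [if_neg (by simpa using hc)]
      have e3 : cut π l {ρ} (b.2 • ind b.1) = 0 := by
        funext w
        unfold cut
        split_ifs with hw
        · have hnot : ¬ ∀ i, w i ∈ b.1 i := by
            intro hall
            apply hc
            rw [mem_singleton] at hw
            rw [← hw, hb (w l) (hall l)]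
          simp only [Pi.smul_apply, ind, if_neg hnot, smul_zero, Pi.zero_apply]
        · rfl
      rw [e3, zero_add]

theorem bnorm_cls [Finite ι] [∀ i, Finite (K i)] (H : Sides π c 𝓑) (l : ι)
    (X : (∀ i, K i) → ℤ) : bnorm 𝓑 X = ∑ ρ : R l, bnorm 𝓑 (cut π l {ρ} X) := by
  classical
  apply le_antisymm
  · have hX : X = ∑ ρ : R l, cut π l {ρ} X := by
      funext w
      rw [Finset.sum_apply]
      simp only [cut, mem_singleton]
      rw [Finset.sum_ite_eq, if_pos (mem_univ _)]
    calc bnorm 𝓑 X = bnorm 𝓑 (∑ ρ : R l, cut π l {ρ} X) := by rw [← hX]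
      _ ≤ ∑ ρ : R l, bnorm 𝓑 (cut π l {ρ} X) := boxB_sum_le H.single _ _
  · rcases isEmpty_or_nonempty (R l) with hR | hR
    · rw [Finset.univ_eq_empty, sum_empty]
      exact Nat.zero_le _
    · obtain ⟨ls, hls, hX, hlen⟩ := bnorm_spec H.single X
      have hcl : ∀ b : ((∀ i, Set (K i)) × ℤ), ∃ ρ : R l, b ∈ ls → ∀ a ∈ b.1 l, π l a = ρ := by
        intro b
        by_cases hb : b ∈ ls
        · obtain ⟨ρ, hρ⟩ := H.sub l (b.1 l) ((hls b hb).1 l)
          exact ⟨ρ, fun _ => hρ⟩
        · exact ⟨Classical.arbitrary _, fun h => absurd h hb⟩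
      choose cl hcl using hcl
      have hle : ∀ ρ : R l, bnorm 𝓑 (cut π l {ρ} X) ≤
          (ls.filter (fun b => decide (cl b = ρ))).length := by
        intro ρ
        rw [hX, boxB_cut l ρ cl ls hcl]
        refine bnorm_le _ ?_
        intro b hb
        exact hls b (List.mem_filter.1 hb).1
      calc ∑ ρ : R l, bnorm 𝓑 (cut π l {ρ} X)
          ≤ ∑ ρ : R l, (ls.filter (fun b => decide (cl b = ρ))).length :=
            sum_le_sum (fun ρ _ => hle ρ)
        _ = ls.length := boxB_len cl ls
        _ = bnorm 𝓑 X := hlen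

end Pool.Agent.SP
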