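import Mathlib

/-!
# Functions on a product: cuts, slices, sums of invariant functions, norms

`K i` are the coordinate sets, `R i` the sets of classes, `π i : K i → R i`.
-/

set_option autoImplicit false

namespace Pool.Agent.SP

open Finset

section defs

variable {ι : Type} {K R : ι → Type}

open Classical in
/-- restriction to the points whose `l`-coordinate lies in a class of `T` -/
noncomputable def cut (π : ∀ i, K i → R i) (l : ι) (T : Finset (R l)) (X : (∀ i, K i) → ℤ) :
    (∀ i, K i) → ℤ := fun w => if π l (w l) ∈ T then X w else 0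

open Classical in
/-- the function with the `l`-coordinate replaced by `a` -/
noncomputable def up (l : ι) (a : K l) (X : (∀ i, K i) → ℤ) : (∀ i, K i) → ℤ :=
  fun w => X (Function.update w l a)

open Classical in
/-- functions independent of the `l`-coordinate -/
def Inv (l : ι) (X : (∀ i, K i) → ℤ) : Prop :=
  ∀ (w : ∀ i, K i) (a : K l), X (Function.update w l a) = X w

/-- sums of functions, each of which is independent of one of the coordinates in `L` -/
def IS (L : Finset ι) (X : (∀ i, K i) → ℤ) : Prop :=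
  ∃ Y : ι → (∀ i, K i) → ℤ, (∀ l ∈ L, Inv l (Y l)) ∧ X = ∑ l ∈ L, Y l

/-- composition with the involution `c` in all coordinates -/
def sg (c : ∀ i, K i → K i) (X : (∀ i, K i) → ℤ) : (∀ i, K i) → ℤ :=
  fun w => X fun i => c i (w i)

/-- Norms adapted to the classes. -/
structure Nrm (π : ∀ i, K i → R i) (c : ∀ i, K i → K i) [∀ i, Fintype (R i)] where
  N : ((∀ i, K i) → ℤ) → ℕ
  zero : N 0 = 0
  eq_zero : ∀ X, N X = 0 → X = 0
  neg : ∀ X, N (-X) ≤ N X
  add : ∀ X Y, N (X + Y) ≤ N X + N Y
  cls : ∀ (l : ι) (X : (∀ i, K i) → ℤ), N X = ∑ ρ : R l, N (cut π l {ρ} X)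
  slice : ∀ (l : ι) (ρ : R l) (a : K l) (X : (∀ i, K i) → ℤ),
    N (cut π l {ρ} (up l a X)) ≤ N (cut π l {π l a} X)
  sig : ∀ X, N (sg c X) ≤ N X

end defs

end Pool.Agent.SP
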