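import Pool.Agent.SP.Alg

/-!
# Lemmas on norms
-/

set_option autoImplicit false

namespace Pool.Agent.SP

open Finset

variable {ι : Type} {K R : ι → Type} {π : ∀ i, K i → R i} {c : ∀ i, K i → K i}
  [∀ i, Fintype (R i)]

namespace Nrm

variable (ν : Nrm π c)

theorem neg_eq (X : (∀ i, K i) → ℤ) : ν.N (-X) = ν.N X :=
  le_antisymm (ν.neg X) (by simpa using ν.neg (-X))

theorem sub (X Y : (∀ i, K i) → ℤ) : ν.N (X - Y) ≤ ν.N X + ν.N Y := by
  rw [sub_eq_add_neg, ← ν.neg_eq Y]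
  exact ν.add X (-Y)

theorem le_add (X Y : (∀ i, K i) → ℤ) : ν.N X ≤ ν.N (X + Y) + ν.N Y := by
  have h := ν.sub (X + Y) Y
  rwa [add_sub_cancel_right] at h

theorem le_sub (X Y : (∀ i, K i) → ℤ) : ν.N X ≤ ν.N (X - Y) + ν.N Y := by
  have h := ν.add (X - Y) Y
  rwa [sub_add_cancel] at h

theorem sum {α : Type*} (s : Finset α) (X : α → (∀ i, K i) → ℤ) :
    ν.N (∑ a ∈ s, X a) ≤ ∑ a ∈ s, ν.N (X a) := by
  classical
  induction s using Finset.induction_on with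
  | empty => simp [ν.zero]
  | insert a s ha ih =>
    rw [sum_insert ha, sum_insert ha]
    exact (ν.add _ _).trans (by omega)

theorem cut_eq (l : ι) (T : Finset (R l)) (X : (∀ i, K i) → ℤ) :
    ν.N (cut π l T X) = ∑ ρ ∈ T, ν.N (cut π l {ρ} X) := by
  classical
  rw [ν.cls l (cut π l T X), ← Finset.sum_subset (subset_univ T)]
  · refine sum_congr rfl fun ρ hρ => ?_
    rw [cut_of_subset (singleton_subset_iff.2 hρ)]
  · intro ρ _ hρ
    rw [cut_of_disjoint (disjoint_singleton_left.2 hρ), ν.zero]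

theorem cut_le (l : ι) (T : Finset (R l)) (X : (∀ i, K i) → ℤ) : ν.N (cut π l T X) ≤ ν.N X := by
  rw [ν.cut_eq, ν.cls l X]
  exact Finset.sum_le_sum_of_subset (subset_univ T)

theorem cut_add_compl [∀ i, DecidableEq (R i)] (l : ι) (T : Finset (R l))
    (X : (∀ i, K i) → ℤ) : ν.N (cut π l T X) + ν.N (cut π l Tᶜ X) = ν.N X := by
  rw [ν.cut_eq, ν.cut_eq, ν.cls l X, Finset.sum_add_sum_compl]

/-- the norm of the slice -/
theorem inv_le {l : ι} {Y : (∀ i, K i) → ℤ} (hY : Inv l Y) (ρ : R l) (a : K l) :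
    ν.N (cut π l {ρ} Y) ≤ ν.N (cut π l {π l a} Y) := by
  have h := ν.slice l ρ a Y
  rwa [hY.up_eq] at h

/-- the norm of the cut of an invariant function is the same for all classes -/
theorem inv_eq (hπ : ∀ i, Function.Surjective (π i)) {l : ι} {Y : (∀ i, K i) → ℤ}
    (hY : Inv l Y) (ρ ρ' : R l) : ν.N (cut π l {ρ} Y) = ν.N (cut π l {ρ'} Y) := by
  obtain ⟨a, rfl⟩ := hπ l ρ
  obtain ⟨a', rfl⟩ := hπ l ρ'
  exact le_antisymm (ν.inv_le hY _ _) (ν.inv_le hY _ _)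

theorem sig_eq (hc : ∀ i a, c i (c i a) = a) (X : (∀ i, K i) → ℤ) : ν.N (sg c X) = ν.N X := by
  refine le_antisymm (ν.sig X) ?_
  have h := ν.sig (sg c X)
  rwa [sg_sg hc] at h

end Nrm

end Pool.Agent.SP
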