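import Pool.Agent.SP.SI

/-!
# The decomposition of functions of small norm
-/

set_option autoImplicit false

namespace Pool.Agent.SP

open Finset

variable {ι : Type} {K R : ι → Type} {π : ∀ i, K i → R i} {c : ∀ i, K i → K i}
  [∀ i, Fintype (R i)]

/-- half systems of a fixed point free involution -/
theorem exists_half {α : Type} [Fintype α] [DecidableEq α] (s : α → α) (hs : ∀ a, s (s a) = a)
    (hf : ∀ a, s a ≠ a) {k : ℕ} (hk : Fintype.card α = 2 * k) :
    ∃ H : Finset α, H.card = k ∧ ∀ a, s a ∈ H ↔ a ∉ H := by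
  set e := Fintype.equivFin α with he
  set H : Finset α := univ.filter fun a => e a < e (s a) with hH
  have h1 : ∀ a, s a ∈ H ↔ a ∉ H := by
    intro a
    simp only [hH, mem_filter, mem_univ, true_and, hs, not_lt]
    constructor
    · exact fun h => h.le
    · exact fun h => lt_of_le_of_ne h fun h' => hf a (e.injective h')
  refine ⟨H, ?_, h1⟩
  have h2 : Hᶜ = H.image s := by
    ext a
    rw [mem_compl, mem_image]
    constructor
    · intro h
      exact ⟨s a, (h1 a).2 h, hs a⟩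
    · rintro ⟨b, hb, rfl⟩
      rw [h1]
      exact fun h => h hb
  have h3 : (H.image s).card = H.card := card_image_of_injective _ fun a b hab => by
    rw [← hs a, ← hs b, hab]
  have h4 := Finset.card_add_card_compl H
  rw [h2, h3, hk] at h4
  omega

/-- a free pair of opposite classes -/
theorem free_class [∀ i, DecidableEq (R i)] {h : ι → ℕ}
    (hcard : ∀ i, Fintype.card (R i) = 2 * h i)
    (hπ : ∀ i, Function.Surjective (π i))
    {cR : ∀ i, R i → R i} (hcR2 : ∀ i ρ, cR i (cR i ρ) = ρ) (hfix : ∀ i ρ, cR i ρ ≠ ρ)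
    (ν : Nrm π c) {r l : ι} (hrl : r ≠ l) (W : (∀ i, K i) → ℤ) (hW : Inv r W) (ρ : R r)
    (hlt : ν.N (cut π r {ρ} W) < h l) :
    ∃ θ : R l, cut π l {θ} W = 0 ∧ cut π l {cR l θ} W = 0 := by
  set B : Finset (R l) := univ.filter fun τ => ν.N (cut π l {τ} (cut π r {ρ} W)) ≠ 0 with hB
  have h1 : B.card ≤ ν.N (cut π r {ρ} W) := by
    rw [ν.cls l (cut π r {ρ} W)]
    calc B.card = ∑ _τ ∈ B, 1 := by simp
      _ ≤ ∑ τ ∈ B, ν.N (cut π l {τ} (cut π r {ρ} W)) := by
          refine sum_le_sum fun τ hτ => ?_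
          rw [hB, mem_filter] at hτ
          exact Nat.one_le_iff_ne_zero.2 hτ.2
      _ ≤ _ := Finset.sum_le_sum_of_subset (subset_univ _)
  obtain ⟨Θ, hΘ, hΘ'⟩ := exists_half (cR l) (hcR2 l) (hfix l) (hcard l)
  have h2 : ∃ θ ∈ Θ, θ ∉ B ∧ cR l θ ∉ B := by
    by_contra hcon
    push Not at hcon
    have h3 : Θ ⊆ B.image fun τ => if τ ∈ Θ then τ else cR l τ := by
      intro θ hθ
      rw [mem_image]
      by_cases h4 : θ ∈ B
      · exact ⟨θ, h4, if_pos hθ⟩
      · refine ⟨cR l θ, hcon θ hθ h4, ?_⟩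
        rw [if_neg (by rw [hΘ']; exact fun h => h hθ), hcR2]
    have h4 := (card_le_card h3).trans card_image_le
    omega
  have h3 : ∀ θ, θ ∉ B → cut π l {θ} W = 0 := by
    intro θ hθ
    rw [hB, mem_filter, not_and, not_not] at hθ
    have h4 := hθ (mem_univ _)
    rw [cut_comm] at h4
    refine ν.eq_zero _ ?_
    rw [ν.cls r (cut π l {θ} W)]
    refine sum_eq_zero fun ρ' _ => ?_
    rw [ν.inv_eq hπ (hW.cut hrl _) ρ' ρ]
    exact h4
  obtain ⟨θ, _, h5, h6⟩ := h2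
  exact ⟨θ, h3 θ h5, h3 _ h6⟩

theorem decomp [Fintype ι] [Nonempty ι] {h : ι → ℕ} (hcard : ∀ i, Fintype.card (R i) = 2 * h i)
    (hpos : ∀ i, 0 < h i)
    (hπ : ∀ i, Function.Surjective (π i)) (hc : ∀ i a, c i (c i a) = a)
    {cR : ∀ i, R i → R i} (hcR : ∀ i a, π i (c i a) = cR i (π i a)) (hfix : ∀ i ρ, cR i ρ ≠ ρ)
    (hinj : Function.Injective h) (ν : Nrm π c) (X : (∀ i, K i) → ℤ)
    (hIS : IS univ (X - sg c X))
    (hN : ∀ p q, h p < h q → ν.N X < h p * h q ∨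
      (h p = 2 ∧ h q = 3 ∧ ν.N X < 10 ∧ ∃ r, 3 < h r)) :
    ∃ (Y : ι → (∀ i, K i) → ℤ) (E : (∀ i, K i) → ℤ) (n : ι → ℕ),
      (∀ l, Inv l (Y l) ∧ ∀ ρ : R l, ν.N (cut π l {ρ} (Y l)) ≤ n l) ∧ sg c E = E ∧
      X = E + ∑ l, Y l ∧ 2 * ∑ l, n l ≤ ν.N X := by
  classical
  have hcR2 : ∀ i ρ, cR i (cR i ρ) = ρ := by
    intro i ρ
    obtain ⟨a, rfl⟩ := hπ i ρ
    rw [← hcR, ← hcR, hc]
  obtain ⟨r, _, hmax⟩ := exists_max_image univ h univ_nonempty
  set U := X - sg c X with hU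
  have hσU : sg c U = - U := by
    rw [hU, sg_sub, sg_sg hc]
    abel
  by_cases hne : (univ.erase r : Finset ι).Nonempty
  swap
  · -- only one coordinate
    rw [not_nonempty_iff_eq_empty] at hne
    have hall : ∀ i : ι, i = r := by
      intro i
      by_contra hi
      have : i ∈ (univ.erase r : Finset ι) := mem_erase.2 ⟨hi, mem_univ _⟩
      rw [hne] at this
      exact notMem_empty _ this
    have h1 := hIS
    obtain ⟨F, hF, hF'⟩ := h1
    have h2 : (univ : Finset ι) = {r} := by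
      ext i
      simp [hall i]
    rw [h2, sum_singleton] at hF'
    have hUr : Inv r U := by
      rw [hF']
      exact hF r (mem_univ _)
    have hU0 : U = 0 := by
      funext w
      have h3 := hUr w (c r (w r))
      have h4 : Function.update w r (c r (w r)) = fun i => c i (w i) := by
        funext i
        obtain rfl := hall i
        rw [Function.update_self]
      rw [h4] at h3
      have h5 := congrFun hσU w
      change U (fun i => c i (w i)) = - U w at h5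
      rw [h3] at h5
      change U w = 0
      linarith
    refine ⟨fun _ => 0, X, fun _ => 0, fun l => ⟨Inv_zero l, fun ρ => ?_⟩, ?_, by simp, by simp⟩
    · rw [cut_zero, ν.zero]
    · rw [hU, sub_eq_zero] at hU0
      exact hU0.symm
  obtain ⟨l0, hl0⟩ := hne
  set Q' : Finset ι := univ.erase r with hQ'
  have hrQ : r ∉ Q' := notMem_erase r univ
  have hl0r : r ≠ l0 := (ne_of_mem_erase hl0).symm
  have hlt : ∀ l ∈ Q', h l < h r := fun l hl =>
    lt_of_le_of_ne (hmax l (mem_univ _)) fun h' => (ne_of_mem_erase hl) (hinj h')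
  have hreg : ∀ l ∈ Q', ν.N X < h l * h r := by
    intro l hl
    rcases hN l r (hlt l hl) with h1 | ⟨_, h2, _, r', h3⟩
    · exact h1
    · have := hmax r' (mem_univ _)
      omega
  obtain ⟨H, hH, hH'⟩ := exists_half (cR r) (hcR2 r) (hfix r) (hcard r)
  have hHc : ∀ ρ, cR r ρ ∈ Hᶜ ↔ ρ ∈ H := by
    intro ρ
    rw [mem_compl, hH', not_not]
  have hHc' : ∀ ρ, cR r ρ ∈ H ↔ ρ ∈ Hᶜ := by
    intro ρ
    rw [mem_compl, hH']
  -- cuts and the involution
  have s1 : ∀ Z : (∀ i, K i) → ℤ, sg c (cut π r Hᶜ Z) = cut π r H (sg c Z) := fun Z =>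
    sg_cut hcR hHc Z
  have s2 : ∀ Z : (∀ i, K i) → ℤ, sg c (cut π r H Z) = cut π r Hᶜ (sg c Z) := fun Z =>
    sg_cut hcR hHc' Z
  have hNU : ν.N (cut π r H U) ≤ ν.N X := by
    rw [hU, cut_sub]
    refine (ν.sub _ _).trans ?_
    rw [← s1, ν.sig_eq hc, ν.cut_add_compl]
  have hHne : H.Nonempty := card_pos.1 (by rw [hH]; exact hpos r)
  obtain ⟨ρ0, hρ0, hmin⟩ := exists_min_image H (fun ρ => ν.N (cut π r {ρ} U)) hHne
  obtain ⟨a, rfl⟩ := hπ r ρ0
  set W := up r a U with hW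
  have hWI : Inv r W := Inv_up r a U
  set V := ν.N (cut π r {π r a} W) with hV
  have hVeq : ∀ ρ, ν.N (cut π r {ρ} W) = V := fun ρ => ν.inv_eq hπ hWI ρ _
  have hVle : ∀ ρ ∈ H, V ≤ ν.N (cut π r {ρ} U) := fun ρ hρ =>
    (ν.slice r (π r a) a U).trans (hmin ρ hρ)
  have hNH : ν.N (cut π r H U) = ∑ ρ ∈ H, ν.N (cut π r {ρ} U) := ν.cut_eq r H U
  have hVt : h r * V ≤ ν.N X := by
    calc h r * V = ∑ _ρ ∈ H, V := by rw [sum_const, smul_eq_mul, hH]
      _ ≤ ∑ ρ ∈ H, ν.N (cut π r {ρ} U) := sum_le_sum hVle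
      _ ≤ _ := by rw [← hNH]; exact hNU
  have hVh : ∀ l ∈ Q', V < h l := by
    intro l hl
    have h1 := hreg l hl
    refine Nat.lt_of_mul_lt_mul_left (a := h r) ?_
    calc h r * V ≤ ν.N X := hVt
      _ < h l * h r := h1
      _ = h r * h l := mul_comm _ _
  have hVx : ∀ ρ ∈ H, ν.N (cut π r {ρ} U) + (h r - 1) * V ≤ ν.N X := by
    intro ρ hρ
    calc ν.N (cut π r {ρ} U) + (h r - 1) * V
        = ν.N (cut π r {ρ} U) + ∑ _ρ' ∈ H.erase ρ, V := by
          rw [sum_const, smul_eq_mul, card_erase_of_mem hρ, hH]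
      _ ≤ ν.N (cut π r {ρ} U) + ∑ ρ' ∈ H.erase ρ, ν.N (cut π r {ρ'} U) :=
          Nat.add_le_add_left (sum_le_sum fun ρ' hρ' => hVle ρ' (mem_of_mem_erase hρ')) _
      _ = ∑ ρ' ∈ H, ν.N (cut π r {ρ'} U) :=
          Finset.add_sum_erase H (fun ρ' => ν.N (cut π r {ρ'} U)) hρ
      _ ≤ _ := by rw [← hNH]; exact hNU
  -- the sum of the slice and its mirror image
  have hσW : sg c W = - up r (c r a) U := by
    rw [hW, sg_up a (hc r a), hσU, up_neg]
  have hZf : IS Q' (W + sg c W) := by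
    have h1 := (hIS.sub_up r (c r a)).sub (hIS.sub_up r a)
    have h2 : U - up r (c r a) U - (U - up r a U) = W + sg c W := by
      rw [hσW, hW]
      abel
    rw [h2] at h1
    exact h1
  obtain ⟨θ, hθ1, hθ2⟩ := free_class hcard hπ hcR2 hfix ν hl0r W hWI (π r a) (hVh l0 hl0)
  obtain ⟨b, rfl⟩ := hπ l0 θ
  have hupZ : up l0 b (W + sg c W) = 0 := by
    funext w
    change W (Function.update w l0 b) + W (fun i => c i (Function.update w l0 b i)) = 0
    have h1 := congrFun hθ1 (Function.update w l0 b)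
    rw [cut_of_mem (by simp)] at h1
    have h2 := congrFun hθ2 (fun i => c i (Function.update w l0 b i))
    rw [cut_of_mem (by simp [hcR])] at h2
    rw [h1, h2]
    rfl
  have hZf' : IS (Q'.erase l0) (W + sg c W) := by
    have h1 := hZf.sub_up l0 b
    rw [hupZ, sub_zero] at h1
    exact h1
  -- the half of the slice
  obtain ⟨Θ, hΘ', hΘV⟩ : ∃ Θ : Finset (R l0), (∀ τ, cR l0 τ ∈ Θ ↔ τ ∉ Θ) ∧
      2 * ν.N (cut π r {π r a} (cut π l0 Θ W)) ≤ V := by
    obtain ⟨Θ, _, hΘ'⟩ := exists_half (cR l0) (hcR2 l0) (hfix l0) (hcard l0)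
    have h1 : ν.N (cut π r {π r a} (cut π l0 Θ W)) + ν.N (cut π r {π r a} (cut π l0 Θᶜ W)) = V := by
      rw [cut_comm r l0, cut_comm r l0, ν.cut_add_compl]
    by_cases h2 : 2 * ν.N (cut π r {π r a} (cut π l0 Θ W)) ≤ V
    · exact ⟨Θ, hΘ', h2⟩
    · refine ⟨Θᶜ, fun τ => ?_, by omega⟩
      rw [mem_compl, mem_compl, hΘ']
  have hΘc : ∀ τ, cR l0 τ ∈ Θ ↔ τ ∈ Θᶜ := by
    intro τ
    rw [mem_compl, hΘ']
  set u := cut π l0 Θ W with hu
  have huI : Inv r u := hWI.cut hl0r Θ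
  have hσu : sg c u = cut π l0 Θᶜ (sg c W) := sg_cut hcR hΘc W
  set nu := ν.N (cut π r {π r a} u) with hnu
  have hueq : ∀ ρ, ν.N (cut π r {ρ} u) = nu := fun ρ => ν.inv_eq hπ huI ρ _
  set g := u - sg c u with hg
  have hgI : Inv r g := huI.sub huI.sg
  have hσueq : ∀ ρ, ν.N (cut π r {ρ} (sg c u)) = nu := by
    intro ρ
    have h1 : sg c (cut π r {cR r ρ} u) = cut π r {ρ} (sg c u) := by
      refine sg_cut hcR (fun τ => ?_) u
      rw [mem_singleton, mem_singleton]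
      constructor
      · intro h2
        have h3 := congrArg (cR r) h2
        rwa [hcR2, hcR2] at h3
      · rintro rfl
        rfl
    rw [← h1, ν.sig_eq hc, hueq]
  have hω1 : ∀ ρ, ν.N (cut π r {ρ} g) ≤ V := by
    intro ρ
    rw [hg, cut_sub]
    refine (ν.sub _ _).trans ?_
    rw [hueq, hσueq]
    omega
  have hω2 : ∀ ρ, nu ≤ ν.N (cut π r {ρ} g) := by
    intro ρ
    have h1 : cut π l0 Θ (cut π r {ρ} g) = cut π r {ρ} u := by
      rw [cut_comm l0 r, hg, cut_sub, hσu,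
        cut_of_disjoint (disjoint_compl_right : Disjoint Θ Θᶜ), sub_zero, hu,
        cut_of_subset subset_rfl]
    rw [← hueq ρ, ← h1]
    exact ν.cut_le _ _ _
  have hWg : IS Q' (W - g) := by
    have h1 : W - g = cut π l0 Θᶜ (W + sg c W) := by
      have h2 := cut_add_compl (π := π) l0 Θ W
      rw [cut_add, ← hσu, hg]
      rw [← hu] at h2
      nth_rewrite 1 [← h2]
      abel
    rw [h1]
    exact (hZf'.cut (notMem_erase l0 Q') Θᶜ).mono (erase_subset _ _)
  have hUg : IS Q' (U - g) := by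
    have h1 := (hIS.sub_up r a).add hWg
    have h2 : U - up r a U + (W - g) = U - g := by
      rw [hW]
      abel
    rw [h2] at h1
    exact h1
  -- the decompositions of the cuts
  have hSI : ∀ ρ, ρ ∈ H → ∃ (Y : ι → (∀ i, K i) → ℤ) (n : ι → ℕ),
      (∀ l ∈ Q', Inv l (Y l) ∧ ∀ τ : R l, ν.N (cut π l {τ} (Y l)) ≤ n l) ∧
      cut π r {ρ} U = cut π r {ρ} g + ∑ l ∈ Q', Y l ∧
      ν.N (cut π r {ρ} g) + 2 * ∑ l ∈ Q', n l ≤ ν.N (cut π r {ρ} U) := by
    intro ρ hρ
    refine SI hcard hπ ν Q' (fun l _ l' _ h' => hinj h') _ _ ?_ ?_ ?_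
    · rw [← cut_sub]
      exact hUg.cut hrQ _
    · intro l hl
      exact lt_of_le_of_lt (hω1 ρ) (hVh l hl)
    · intro l hl l' hl' hll
      have hx := hVx ρ hρ
      rcases hN l' l hll with h1 | ⟨h1, h2, h3, _⟩
      · left
        have h2 := hlt l hl
        have h3 := hVh l' hl'
        have h4 := hω1 ρ
        have h5 : ν.N (cut π r {ρ} g) * (h l + 1) ≤ V * (h l + 1) := Nat.mul_le_mul_right _ h4
        have h6 : h l * V ≤ (h r - 1) * V := Nat.mul_le_mul_right _ (by omega)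
        have h7 : V * (h l + 1) = h l * V + V := by ring
        have h8 : h l' * (h l + 1) = h l' * h l + h l' := by ring
        omega
      · right
        exact ⟨h2, h1, lt_of_le_of_lt (by omega) h3⟩
  choose! Y n hY hY2 hY3 using hSI
  have hu2 : 2 ≤ h r := by
    have := hlt l0 hl0
    have := hpos l0
    omega
  set Y' : ι → (∀ i, K i) → ℤ := fun l => if l = r then u else ∑ ρ ∈ H, cut π r {ρ} (Y ρ l)
    with hY'
  set n' : ι → ℕ := fun l => if l = r then nu else ∑ ρ ∈ H, n ρ l with hn'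
  have hYr : Y' r = u := if_pos rfl
  have hnr : n' r = nu := if_pos rfl
  have hYe : ∀ l ∈ Q', Y' l = ∑ ρ ∈ H, cut π r {ρ} (Y ρ l) := fun l hl =>
    if_neg (ne_of_mem_erase hl)
  have hne' : ∀ l ∈ Q', n' l = ∑ ρ ∈ H, n ρ l := fun l hl => if_neg (ne_of_mem_erase hl)
  have hsum : cut π r H U = cut π r H g + ∑ l ∈ Q', Y' l := by
    rw [← sum_cut r H U, ← sum_cut r H g, sum_congr rfl hYe, sum_comm, ← sum_add_distrib]
    refine sum_congr rfl fun ρ hρ => ?_
    have h1 := congrArg (cut π r {ρ}) (hY2 ρ hρ)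
    rw [cut_add, cut_sum, cut_of_subset subset_rfl, cut_of_subset subset_rfl] at h1
    exact h1
  refine ⟨Y', X - ∑ l, Y' l, n', ?_, ?_, by abel, ?_⟩
  · intro l
    by_cases hl : l = r
    · subst hl
      rw [hYr, hnr]
      exact ⟨huI, fun ρ => (hueq ρ).le⟩
    · have hl' : l ∈ Q' := mem_erase.2 ⟨hl, mem_univ _⟩
      rw [hYe l hl', hne' l hl']
      refine ⟨Inv_sum _ fun ρ hρ => (hY ρ hρ l hl').1.cut hl _, fun τ => ?_⟩
      rw [cut_sum]
      refine (ν.sum _ _).trans (sum_le_sum fun ρ hρ => ?_)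
      rw [cut_comm]
      exact (ν.cut_le _ _ _).trans ((hY ρ hρ l hl').2 τ)
  · have h1 : ∑ l, Y' l = u + ∑ l ∈ Q', Y' l := by
      rw [hQ', ← hYr, Finset.add_sum_erase univ Y' (mem_univ r)]
    have h2 : ∑ l ∈ Q', Y' l = cut π r H U - cut π r H g := by
      rw [hsum]
      abel
    have h3 : X - ∑ l, Y' l = (cut π r Hᶜ X + cut π r H (sg c X)) -
        (cut π r Hᶜ u + cut π r H (sg c u)) := by
      have e1 := cut_add_compl (π := π) r H X
      have e2 := cut_add_compl (π := π) r H u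
      rw [h1, h2, hU, hg, cut_sub, cut_sub]
      nth_rewrite 1 [← e1]
      nth_rewrite 1 [← e2]
      abel
    rw [h3]
    simp only [sg_sub, sg_add, s1, s2, sg_sg hc]
    abel
  · rw [← Finset.add_sum_erase univ n' (mem_univ r), ← hQ', hnr, sum_congr rfl hne', sum_comm]
    have h1 : ∑ ρ ∈ H, (ν.N (cut π r {ρ} g) + 2 * ∑ l ∈ Q', n ρ l) ≤
        ∑ ρ ∈ H, ν.N (cut π r {ρ} U) := sum_le_sum fun ρ hρ => hY3 ρ hρ
    rw [sum_add_distrib, ← mul_sum, ← hNH] at h1
    have h2 : h r * nu ≤ ∑ ρ ∈ H, ν.N (cut π r {ρ} g) := by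
      calc h r * nu = ∑ _ρ ∈ H, nu := by rw [sum_const, smul_eq_mul, hH]
        _ ≤ _ := sum_le_sum fun ρ _ => hω2 ρ
    have h3 : 2 * nu ≤ h r * nu := Nat.mul_le_mul_right _ hu2
    omega

end Pool.Agent.SP
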