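import Pool.Agent.SP.NrmL

/-!
# The lemma on sums of invariant functions of small norm
-/

set_option autoImplicit false

namespace Pool.Agent.SP

open Finset

variable {ι : Type} {K R : ι → Type} {π : ∀ i, K i → R i} {c : ∀ i, K i → K i}
  [∀ i, Fintype (R i)]

/-- gluing of the decompositions of the cuts -/
theorem SI_glue [DecidableEq ι] (ν : Nrm π c) (L : Finset ι) (l : ι) (hl : l ∈ L)
    (X X0 v : (∀ i, K i) → ℤ) (hv : Inv l v) (V : ℕ) (hV : ∀ ρ, ν.N (cut π l {ρ} v) ≤ V)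
    (e : R l → ℤ) (hsum : (ν.N X0 : ℤ) + 2 * V ≤ ∑ ρ, e ρ)
    (hloc : ∀ ρ : R l, ∃ (Y : ι → (∀ i, K i) → ℤ) (n : ι → ℕ),
      (∀ l' ∈ L.erase l, Inv l' (Y l') ∧ ∀ τ : R l', ν.N (cut π l' {τ} (Y l')) ≤ n l') ∧
      cut π l {ρ} X = cut π l {ρ} (X0 + v) + ∑ l' ∈ L.erase l, Y l' ∧
      e ρ + 2 * ((∑ l' ∈ L.erase l, n l' : ℕ) : ℤ) ≤ ν.N (cut π l {ρ} X)) :
    ∃ (Y : ι → (∀ i, K i) → ℤ) (n : ι → ℕ),
      (∀ l ∈ L, Inv l (Y l) ∧ ∀ ρ : R l, ν.N (cut π l {ρ} (Y l)) ≤ n l) ∧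
      X = X0 + ∑ l ∈ L, Y l ∧ ν.N X0 + 2 * ∑ l ∈ L, n l ≤ ν.N X := by
  choose Y n hY hX hn using hloc
  set Y' : ι → (∀ i, K i) → ℤ := fun l' => if l' = l then v else ∑ ρ, cut π l {ρ} (Y ρ l') with hY'
  set n' : ι → ℕ := fun l' => if l' = l then V else ∑ ρ, n ρ l' with hn'
  have hYl : Y' l = v := if_pos rfl
  have hnl : n' l = V := if_pos rfl
  have hYe : ∀ l' ∈ L.erase l, Y' l' = ∑ ρ, cut π l {ρ} (Y ρ l') := fun l' hl' =>
    if_neg (ne_of_mem_erase hl')
  have hne : ∀ l' ∈ L.erase l, n' l' = ∑ ρ, n ρ l' := fun l' hl' =>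
    if_neg (ne_of_mem_erase hl')
  refine ⟨Y', n', ?_, ?_, ?_⟩
  · intro l' hl'
    by_cases h : l' = l
    · subst h
      rw [hYl, hnl]
      exact ⟨hv, hV⟩
    · have hmem : l' ∈ L.erase l := mem_erase.2 ⟨h, hl'⟩
      rw [hYe l' hmem, hne l' hmem]
      refine ⟨Inv_sum _ fun ρ _ => (hY ρ l' hmem).1.cut h _, fun τ => ?_⟩
      rw [cut_sum]
      refine (ν.sum _ _).trans (sum_le_sum fun ρ _ => ?_)
      rw [cut_comm]
      exact (ν.cut_le _ _ _).trans ((hY ρ l' hmem).2 τ)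
  · have h1 : ∀ ρ, cut π l {ρ} X = cut π l {ρ} (X0 + v) +
        ∑ l' ∈ L.erase l, cut π l {ρ} (Y ρ l') := by
      intro ρ
      have h := congrArg (cut π l {ρ}) (hX ρ)
      rw [cut_add, cut_sum, cut_of_subset subset_rfl, cut_of_subset subset_rfl] at h
      exact h
    rw [← sum_cut_univ (π := π) l X, sum_congr rfl fun ρ _ => h1 ρ, sum_add_distrib, sum_cut_univ,
      sum_comm, ← Finset.add_sum_erase L Y' hl, hYl, ← add_assoc]
    congr 1
    exact sum_congr rfl fun l' hl' => (hYe l' hl').symm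
  · rw [← Finset.add_sum_erase L n' hl, hnl, sum_congr rfl hne, sum_comm]
    have h1 : ∑ ρ, (e ρ + 2 * ((∑ l' ∈ L.erase l, n ρ l' : ℕ) : ℤ)) ≤
        ∑ ρ, (ν.N (cut π l {ρ} X) : ℤ) := sum_le_sum fun ρ _ => hn ρ
    rw [sum_add_distrib, ← mul_sum] at h1
    have h2 : (ν.N X : ℤ) = ∑ ρ, (ν.N (cut π l {ρ} X) : ℤ) := by
      rw [ν.cls l X]; push_cast; rfl
    rw [← h2] at h1
    zify
    push_cast at h1 ⊢
    linarith

theorem SI {h : ι → ℕ} (hcard : ∀ i, Fintype.card (R i) = 2 * h i)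
    (hπ : ∀ i, Function.Surjective (π i)) (ν : Nrm π c) (L : Finset ι)
    (hinj : ∀ l ∈ L, ∀ l' ∈ L, h l = h l' → l = l') (X X0 : (∀ i, K i) → ℤ)
    (hIS : IS L (X - X0)) (H1 : ∀ l ∈ L, ν.N X0 < h l)
    (H2 : ∀ l ∈ L, ∀ l' ∈ L, h l' < h l →
      ν.N X0 * (h l + 1) + ν.N X < h l' * (h l + 1) ∨ (h l = 3 ∧ h l' = 2 ∧ ν.N X < 10)) :
    ∃ (Y : ι → (∀ i, K i) → ℤ) (n : ι → ℕ),
      (∀ l ∈ L, Inv l (Y l) ∧ ∀ ρ : R l, ν.N (cut π l {ρ} (Y l)) ≤ n l) ∧
      X = X0 + ∑ l ∈ L, Y l ∧ ν.N X0 + 2 * ∑ l ∈ L, n l ≤ ν.N X := by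
  classical
  induction L using Finset.strongInduction generalizing X X0 with
  | H L ih =>
  rcases L.eq_empty_or_nonempty with rfl | hne
  · obtain ⟨F, _, hF⟩ := hIS
    rw [sum_empty, sub_eq_zero] at hF
    subst hF
    exact ⟨fun _ => 0, fun _ => 0, by simp, by simp, by simp⟩
  obtain ⟨l, hl, hmax⟩ := exists_max_image L h hne
  have hlt : ∀ l' ∈ L.erase l, h l' < h l := fun l' hl' =>
    lt_of_le_of_ne (hmax l' (mem_of_mem_erase hl')) fun h' =>
      (ne_of_mem_erase hl') (hinj l' (mem_of_mem_erase hl') l hl h')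
  set Z : Finset (R l) := univ.filter fun ρ => ν.N (cut π l {ρ} X0) = 0 with hZ
  -- the classes outside `Z`
  have hZc : Zᶜ.card ≤ ν.N X0 := by
    rw [ν.cls l X0]
    calc Zᶜ.card = ∑ _ρ ∈ Zᶜ, 1 := by simp
      _ ≤ ∑ ρ ∈ Zᶜ, ν.N (cut π l {ρ} X0) := by
          refine sum_le_sum fun ρ hρ => ?_
          rw [mem_compl, hZ, mem_filter, not_and] at hρ
          exact Nat.one_le_iff_ne_zero.2 (hρ (mem_univ _))
      _ ≤ _ := Finset.sum_le_sum_of_subset (subset_univ _)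
  have hZtot : Z.card + Zᶜ.card = 2 * h l := by
    rw [Finset.card_add_card_compl, hcard]
  have h1l := H1 l hl
  have hZcard : h l + 1 ≤ Z.card := by omega
  have hZne : Z.Nonempty := card_pos.1 (by omega)
  obtain ⟨ρ0, hρ0, hmin⟩ := exists_min_image Z (fun ρ => ν.N (cut π l {ρ} X)) hZne
  obtain ⟨a, rfl⟩ := hπ l ρ0
  set v := up l a X with hv
  have hvI : Inv l v := Inv_up l a X
  set V := ν.N (cut π l {π l a} v) with hVdef
  have hVeq : ∀ ρ, ν.N (cut π l {ρ} v) = V := fun ρ => ν.inv_eq hπ hvI ρ _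
  have hVle : ∀ ρ ∈ Z, V ≤ ν.N (cut π l {ρ} X) := fun ρ hρ =>
    (ν.slice l (π l a) a X).trans (hmin ρ hρ)
  have hX0Z : ∀ ρ ∈ Z, cut π l {ρ} X0 = 0 := fun ρ hρ => by
    rw [hZ, mem_filter] at hρ
    exact ν.eq_zero _ hρ.2
  -- the slice of `X0` vanishes
  have hup : up l a X0 = 0 := by
    funext w
    have h1 := congrFun (hX0Z _ hρ0) (Function.update w l a)
    rw [cut_of_mem (by simp)] at h1
    exact h1
  have hIS' : IS (L.erase l) (X - (X0 + v)) := by
    have h1 := hIS.sub_up l a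
    rw [up_sub, hup, sub_zero] at h1
    have h2 : X - (X0 + v) = X - X0 - up l a X := by rw [hv]; abel
    rw [h2]
    exact h1
  have hISρ : ∀ ρ, IS (L.erase l) (cut π l {ρ} X - cut π l {ρ} (X0 + v)) := fun ρ => by
    rw [← cut_sub]
    exact hIS'.cut (notMem_erase l L) _
  have hss : L.erase l ⊂ L := erase_ssubset hl
  have hinj' : ∀ l' ∈ L.erase l, ∀ l'' ∈ L.erase l, h l' = h l'' → l' = l'' :=
    fun l' hl' l'' hl'' => hinj l' (mem_of_mem_erase hl') l'' (mem_of_mem_erase hl'')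
  -- sums
  have hsX := ν.cls l X
  have hs0 := ν.cls l X0
  have hZV : (h l + 1) * V ≤ ν.N X := by
    calc (h l + 1) * V ≤ Z.card * V := Nat.mul_le_mul_right _ hZcard
      _ = ∑ _ρ ∈ Z, V := by rw [sum_const, smul_eq_mul]
      _ ≤ ∑ ρ ∈ Z, ν.N (cut π l {ρ} X) := sum_le_sum hVle
      _ ≤ ν.N X := by rw [hsX]; exact Finset.sum_le_sum_of_subset (subset_univ _)
  have hVx : ∀ ρ, V * h l + ν.N (cut π l {ρ} X) ≤ ν.N X := by
    intro ρ
    have h1 : h l ≤ (Z.erase ρ).card := by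
      have := Finset.pred_card_le_card_erase (s := Z) (a := ρ)
      omega
    calc V * h l + ν.N (cut π l {ρ} X) ≤ (Z.erase ρ).card * V + ν.N (cut π l {ρ} X) := by
          rw [mul_comm]; exact Nat.add_le_add_right (Nat.mul_le_mul_right _ h1) _
      _ = ∑ _ρ ∈ Z.erase ρ, V + ν.N (cut π l {ρ} X) := by rw [sum_const, smul_eq_mul]
      _ ≤ ∑ ρ' ∈ Z.erase ρ, ν.N (cut π l {ρ'} X) + ν.N (cut π l {ρ} X) :=
          Nat.add_le_add_right (sum_le_sum fun ρ' hρ' => hVle ρ' (mem_of_mem_erase hρ')) _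
      _ ≤ ∑ ρ' ∈ univ.erase ρ, ν.N (cut π l {ρ'} X) + ν.N (cut π l {ρ} X) :=
          Nat.add_le_add_right (Finset.sum_le_sum_of_subset
            (erase_subset_erase _ (subset_univ _))) _
      _ = ν.N X := by rw [hsX, Finset.sum_erase_add _ _ (mem_univ ρ)]
  have hle : ∀ ρ, ν.N (cut π l {ρ} (X0 + v)) ≤ ν.N (cut π l {ρ} X0) + V := fun ρ => by
    rw [cut_add, ← hVeq ρ]
    exact ν.add _ _
  have hge : ∀ ρ, ν.N (cut π l {ρ} X0) ≤ ν.N (cut π l {ρ} (X0 + v)) + V := fun ρ => by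
    rw [cut_add, ← hVeq ρ]
    exact ν.le_add _ _
  have hZeq : ∀ ρ ∈ Z, ν.N (cut π l {ρ} (X0 + v)) = V := fun ρ hρ => by
    rw [cut_add, hX0Z ρ hρ, zero_add, hVeq]
  have hZ0 : ∀ ρ ∈ Z, ν.N (cut π l {ρ} X0) = 0 := fun ρ hρ => by
    rw [hX0Z ρ hρ, ν.zero]
  have hs0c : ν.N X0 = ∑ ρ ∈ Zᶜ, ν.N (cut π l {ρ} X0) := by
    rw [hs0, ← Finset.sum_add_sum_compl Z, sum_eq_zero hZ0, zero_add]
  by_cases hreg : ∀ l' ∈ L.erase l, ν.N X0 * (h l + 1) + ν.N X < h l' * (h l + 1)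
  · -- the regular case
    refine SI_glue ν L l hl X X0 v hvI V (fun ρ => (hVeq ρ).le)
      (fun ρ => (ν.N (cut π l {ρ} (X0 + v)) : ℤ)) ?_ ?_
    · rw [← Finset.sum_add_sum_compl Z]
      have h1 : ∑ ρ ∈ Z, (ν.N (cut π l {ρ} (X0 + v)) : ℤ) = Z.card * V := by
        rw [sum_congr rfl fun ρ hρ => by rw [hZeq ρ hρ], sum_const, nsmul_eq_mul]
      have h2 : (ν.N X0 : ℤ) - Zᶜ.card * V ≤
          ∑ ρ ∈ Zᶜ, (ν.N (cut π l {ρ} (X0 + v)) : ℤ) := by
        rw [hs0c]
        push_cast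
        rw [← nsmul_eq_mul, ← sum_const, ← sum_sub_distrib]
        refine sum_le_sum fun ρ _ => ?_
        have := hge ρ
        zify at this
        linarith
      have h3 : (Z.card : ℤ) - Zᶜ.card ≥ 2 := by
        have : Zᶜ.card + 2 ≤ Z.card := by omega
        zify at this
        linarith
      have h4 : (2 : ℤ) * V ≤ ((Z.card : ℤ) - Zᶜ.card) * V :=
        mul_le_mul_of_nonneg_right h3 (by positivity)
      rw [h1]
      linarith
    · intro ρ
      have hA : ∀ l' ∈ L.erase l, ν.N (cut π l {ρ} (X0 + v)) < h l' := by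
        intro l' hl'
        have h1 := hreg l' hl'
        have h2 : ν.N (cut π l {ρ} (X0 + v)) ≤ ν.N X0 + V :=
          (hle ρ).trans (Nat.add_le_add_right (ν.cut_le _ _ _) _)
        refine lt_of_le_of_lt h2 (Nat.lt_of_mul_lt_mul_right (a := h l + 1) ?_)
        calc (ν.N X0 + V) * (h l + 1) = ν.N X0 * (h l + 1) + (h l + 1) * V := by ring
          _ ≤ ν.N X0 * (h l + 1) + ν.N X := Nat.add_le_add_left hZV _
          _ < _ := h1
      have hB : ∀ l' ∈ L.erase l, ∀ l'' ∈ L.erase l, h l'' < h l' →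
          ν.N (cut π l {ρ} (X0 + v)) * (h l' + 1) + ν.N (cut π l {ρ} X) < h l'' * (h l' + 1) ∨
            (h l' = 3 ∧ h l'' = 2 ∧ ν.N (cut π l {ρ} X) < 10) := by
        intro l' hl' l'' hl'' hlt'
        rcases H2 l' (mem_of_mem_erase hl') l'' (mem_of_mem_erase hl'') hlt' with h1 | ⟨h1, h2, h3⟩
        · left
          have h2 : ν.N (cut π l {ρ} (X0 + v)) ≤ ν.N X0 + V :=
            (hle ρ).trans (Nat.add_le_add_right (ν.cut_le _ _ _) _)
          have h3 := hVx ρ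
          have h4 : h l' + 1 ≤ h l := hlt l' hl'
          calc ν.N (cut π l {ρ} (X0 + v)) * (h l' + 1) + ν.N (cut π l {ρ} X)
              ≤ (ν.N X0 + V) * (h l' + 1) + ν.N (cut π l {ρ} X) :=
                Nat.add_le_add_right (Nat.mul_le_mul_right _ h2) _
            _ = ν.N X0 * (h l' + 1) + (V * (h l' + 1) + ν.N (cut π l {ρ} X)) := by ring
            _ ≤ ν.N X0 * (h l' + 1) + (V * h l + ν.N (cut π l {ρ} X)) :=
                Nat.add_le_add_left (Nat.add_le_add_right (Nat.mul_le_mul_left _ h4) _) _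
            _ ≤ ν.N X0 * (h l' + 1) + ν.N X := Nat.add_le_add_left h3 _
            _ < _ := h1
        · right
          exact ⟨h1, h2, lt_of_le_of_lt (ν.cut_le _ _ _) h3⟩
      obtain ⟨Y, n, h1, h2, h3⟩ := ih (L.erase l) hss hinj' (cut π l {ρ} X)
        (cut π l {ρ} (X0 + v)) (hISρ ρ) hA hB
      exact ⟨Y, n, h1, h2, by exact_mod_cast h3⟩
  · -- the exceptional case
    push Not at hreg
    obtain ⟨l', hl', hnr⟩ := hreg
    obtain ⟨e1, e2, e3⟩ := (H2 l hl l' (mem_of_mem_erase hl') (hlt l' hl')).resolve_left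
      (by omega)
    have hL' : L.erase l = {l'} := by
      refine eq_singleton_iff_unique_mem.2 ⟨hl', fun l'' hl'' => ?_⟩
      have h1 := hlt l'' hl''
      have h2 := H1 l'' (mem_of_mem_erase hl'')
      have h3 : h l'' = 1 ∨ h l'' = 2 := by omega
      rcases h3 with h3 | h3
      · exfalso
        rcases H2 l hl l'' (mem_of_mem_erase hl'') h1 with h4 | h4
        · rw [h3, e1] at h4
          rw [e1, e2] at hnr
          omega
        · omega
      · exact hinj' l'' hl'' l' hl' (by omega)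
    have ht : ν.N X0 < 2 := by rw [← e2]; exact H1 l' (mem_of_mem_erase hl')
    rw [e1] at hZcard hZtot hZV
    have hV1 : V ≤ 1 := by
      have h5 : 5 ≤ Z.card := by omega
      have h6 : Z.card * V ≤ ν.N X := by
        calc Z.card * V = ∑ _ρ ∈ Z, V := by rw [sum_const, smul_eq_mul]
          _ ≤ ∑ ρ ∈ Z, ν.N (cut π l {ρ} X) := sum_le_sum hVle
          _ ≤ ν.N X := by rw [hsX]; exact Finset.sum_le_sum_of_subset (subset_univ _)
      have h7 : 5 * V ≤ Z.card * V := Nat.mul_le_mul_right _ h5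
      omega
    -- the induction hypothesis for small norms
    have hind : ∀ ρ, ν.N (cut π l {ρ} (X0 + v)) < 2 → ∃ (Y : ι → (∀ i, K i) → ℤ) (n : ι → ℕ),
        (∀ l' ∈ L.erase l, Inv l' (Y l') ∧ ∀ τ : R l', ν.N (cut π l' {τ} (Y l')) ≤ n l') ∧
        cut π l {ρ} X = cut π l {ρ} (X0 + v) + ∑ l' ∈ L.erase l, Y l' ∧
        ν.N (cut π l {ρ} (X0 + v)) + 2 * (∑ l' ∈ L.erase l, n l') ≤ ν.N (cut π l {ρ} X) := by
      intro ρ hρ
      refine ih (L.erase l) hss hinj' (cut π l {ρ} X) (cut π l {ρ} (X0 + v)) (hISρ ρ) ?_ ?_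
      · intro l'' hl''
        rw [hL', mem_singleton] at hl''
        rw [hl'', e2]
        exact hρ
      · intro l1 hl1 l2 hl2 h12
        rw [hL', mem_singleton] at hl1 hl2
        rw [hl1, hl2] at h12
        exact absurd h12 (lt_irrefl _)
    refine SI_glue ν L l hl X X0 v hvI V (fun ρ => (hVeq ρ).le)
      (fun ρ => if ρ ∈ Z then (V : ℤ) else if V = 0 then (ν.N (cut π l {ρ} X0) : ℤ) else -2) ?_ ?_
    · rw [← Finset.sum_add_sum_compl Z, sum_congr rfl fun ρ hρ => if_pos hρ,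
        sum_congr (s₁ := Zᶜ) rfl fun ρ hρ => if_neg (mem_compl.1 hρ), sum_const, nsmul_eq_mul]
      by_cases hV0 : V = 0
      · simp only [hV0, if_true]
        rw [hs0c]
        push_cast
        simp
      · have hV1' : V = 1 := by omega
        simp only [if_neg hV0, sum_const, nsmul_eq_mul]
        rw [hV1']
        have h1 : (Z.card : ℤ) + Zᶜ.card = 6 := by exact_mod_cast hZtot
        have h2 : (Zᶜ.card : ℤ) ≤ ν.N X0 := by exact_mod_cast hZc
        have h3 : (ν.N X0 : ℤ) < 2 := by exact_mod_cast ht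
        push_cast
        linarith
    · intro ρ
      by_cases hρ : ρ ∈ Z
      · obtain ⟨Y, n, h1, h2, h3⟩ := hind ρ (by rw [hZeq ρ hρ]; omega)
        refine ⟨Y, n, h1, h2, ?_⟩
        rw [if_pos hρ, ← hZeq ρ hρ]
        exact_mod_cast h3
      · rw [if_neg hρ]
        have hρ' := hle ρ
        have hρ'' : ν.N (cut π l {ρ} X0) ≤ ν.N X0 := ν.cut_le _ _ _
        by_cases hV0 : V = 0
        · obtain ⟨Y, n, h1, h2, h3⟩ := hind ρ (by omega)
          refine ⟨Y, n, h1, h2, ?_⟩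
          rw [if_pos hV0]
          have h4 := hge ρ
          zify at h3 h4
          rw [hV0] at h4
          push_cast at h3 h4 ⊢
          linarith
        · rw [if_neg hV0]
          -- the direct argument
          obtain ⟨F, hF, hF'⟩ := hISρ ρ
          rw [hL', sum_singleton] at hF'
          have hFI : Inv l' (F l') := hF l' hl'
          have hR : Nonempty (R l') := by
            rw [← Fintype.card_pos_iff, hcard, e2]
            norm_num
          obtain ⟨τ0⟩ := hR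
          set k := ν.N (cut π l' {τ0} (F l')) with hk
          refine ⟨F, fun _ => k, ?_, ?_, ?_⟩
          · intro l'' hl''
            have h1 := hF l'' hl''
            rw [hL', mem_singleton] at hl''
            subst hl''
            exact ⟨h1, fun τ => (ν.inv_eq hπ hFI τ τ0).le⟩
          · rw [hL', sum_singleton, ← hF']
            abel
          · rw [hL', sum_singleton]
            have h1 : ν.N (F l') = 4 * k := by
              rw [ν.cls l' (F l'), sum_congr rfl fun τ _ => ν.inv_eq hπ hFI τ τ0, sum_const,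
                card_univ, hcard, e2, smul_eq_mul]
            have h2 : ν.N (F l') ≤ ν.N (cut π l {ρ} X) + ν.N (cut π l {ρ} (X0 + v)) := by
              rw [← hF']
              exact ν.sub _ _
            have h3 : 4 * k ≤ ν.N (cut π l {ρ} X) + 2 := by omega
            zify at h3
            push_cast
            have h4 : (0 : ℤ) ≤ k := by positivity
            linarith

end Pool.Agent.SP
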